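import Mathlib

set_option autoImplicit false

/-!
# QPC: shared definitions for the geometric half (sections 4 - 7)

`S f O` : base change of an `R`-algebra `O` along a ring hom `f : R →+* B`, as a `B`-algebra.
Never unfold it: everything is in the API below
(`S.inc`, `S.basis`, `S.lift`, `S.hom_ext`, `S.map`, action of a group `G`).
`CHR G O` : the Chase-Harrison-Rosenberg condition.
-/

open TensorProduct

namespace Pool.QPC

universe u v w

/-- A type synonym of `B`, with the `R`-algebra structure given by `f`. -/
def Pull {R B : Type*} [CommRing R] [CommRing B] (_f : R →+* B) : Type _ := B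

noncomputable instance Pull.instCommRing {R B : Type*} [CommRing R] [CommRing B] (f : R →+* B) :
    CommRing (Pull f) := inferInstanceAs (CommRing B)

noncomputable instance Pull.instAlgebra {R B : Type*} [CommRing R] [CommRing B] (f : R →+* B) :
    Algebra R (Pull f) := f.toAlgebra

/-- the identity `B → Pull f` -/
def Pull.of {R B : Type*} [CommRing R] [CommRing B] (f : R →+* B) : B ≃+* Pull f := RingEquiv.refl B

/-- Base change of the `R`-algebra `O` along `f : R →+* B`. -/
def S {R B : Type*} [CommRing R] [CommRing B] (f : R →+* B) (O : Type*) [CommRing O]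
    [Algebra R O] : Type _ := Pull f ⊗[R] O

namespace S

variable {R B B' B'' : Type*} [CommRing R] [CommRing B] [CommRing B'] [CommRing B'']
  (f : R →+* B) (f' : R →+* B') (f'' : R →+* B'') (O : Type*) [CommRing O] [Algebra R O]

noncomputable instance instCommRing : CommRing (S f O) :=
  inferInstanceAs (CommRing (Pull f ⊗[R] O))

noncomputable instance instAlgebra : Algebra B (S f O) :=
  (Algebra.TensorProduct.leftAlgebra : Algebra (Pull f) (Pull f ⊗[R] O))

/-- the ring hom `O → S f O` -/
noncomputable def inc : O →+* S f O :=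
  (Algebra.TensorProduct.includeRight : O →ₐ[R] Pull f ⊗[R] O).toRingHom

variable {O}

theorem inc_algebraMap (r : R) : inc f O (algebraMap R O r) = algebraMap B (S f O) (f r) := by
  have h1 : inc f O (algebraMap R O r) = ((1 : Pull f) ⊗ₜ[R] (algebraMap R O r) : Pull f ⊗[R] O) :=
    rfl
  have h2 : algebraMap B (S f O) (f r)
      = ((algebraMap R (Pull f) r) ⊗ₜ[R] (1 : O) : Pull f ⊗[R] O) := rfl
  rw [h1, h2, Algebra.algebraMap_eq_smul_one, Algebra.algebraMap_eq_smul_one,
    TensorProduct.tmul_smul, TensorProduct.smul_tmul']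

/-- universal property -/
noncomputable def lift {A : Type*} [CommRing A] (g : B →+* A) (h : O →+* A)
    (hc : ∀ r : R, g (f r) = h (algebraMap R O r)) : S f O →+* A :=
  letI : Algebra R A := (g.comp f).toAlgebra
  (Algebra.TensorProduct.lift
    ({ toRingHom := g.comp (Pull.of f).symm.toRingHom, commutes' := fun _ => rfl } :
      Pull f →ₐ[R] A)
    ({ toRingHom := h, commutes' := fun r => (hc r).symm } : O →ₐ[R] A)
    (fun _ _ => Commute.all _ _)).toRingHom

theorem lift_algebraMap {A : Type*} [CommRing A] (g : B →+* A) (h : O →+* A)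
    (hc : ∀ r : R, g (f r) = h (algebraMap R O r)) (b : B) :
    lift f g h hc (algebraMap B (S f O) b) = g b := by
  let _ : Algebra R A := (g.comp f).toAlgebra
  have h0 : lift f g h hc (algebraMap B (S f O) b) = (Algebra.TensorProduct.lift
    ({ toRingHom := g.comp (Pull.of f).symm.toRingHom, commutes' := fun _ => rfl } :
      Pull f →ₐ[R] A)
    ({ toRingHom := h, commutes' := fun r => (hc r).symm } : O →ₐ[R] A)
    (fun _ _ => Commute.all _ _)) ((Pull.of f b) ⊗ₜ[R] (1 : O)) := rfl
  rw [h0, Algebra.TensorProduct.lift_tmul, map_one, mul_one]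
  rfl

theorem lift_inc {A : Type*} [CommRing A] (g : B →+* A) (h : O →+* A)
    (hc : ∀ r : R, g (f r) = h (algebraMap R O r)) (a : O) :
    lift f g h hc (inc f O a) = h a := by
  let _ : Algebra R A := (g.comp f).toAlgebra
  have h0 : lift f g h hc (inc f O a) = (Algebra.TensorProduct.lift
    ({ toRingHom := g.comp (Pull.of f).symm.toRingHom, commutes' := fun _ => rfl } :
      Pull f →ₐ[R] A)
    ({ toRingHom := h, commutes' := fun r => (hc r).symm } : O →ₐ[R] A)
    (fun _ _ => Commute.all _ _)) ((1 : Pull f) ⊗ₜ[R] a) := rfl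
  rw [h0, Algebra.TensorProduct.lift_tmul, map_one, one_mul]
  rfl

/-- every element is a sum of products `b * inc a` -/
theorem induction_on {P : S f O → Prop} (x : S f O)
    (h1 : ∀ (b : B) (a : O), P (algebraMap B (S f O) b * inc f O a))
    (h2 : ∀ x y, P x → P y → P (x + y)) : P x := by
  have h3 : ∀ (b : Pull f) (a : O), ((b ⊗ₜ[R] a : Pull f ⊗[R] O) : S f O)
      = algebraMap B (S f O) ((Pull.of f).symm b) * inc f O a := by
    intro b a
    have : ((b ⊗ₜ[R] a : Pull f ⊗[R] O))
      = (b ⊗ₜ[R] (1 : O)) * ((1 : Pull f) ⊗ₜ[R] a) := by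
      rw [Algebra.TensorProduct.tmul_mul_tmul, mul_one, one_mul]
    exact this
  refine TensorProduct.induction_on (motive := fun y : Pull f ⊗[R] O => P y) x ?_ ?_ ?_
  · have := h1 0 0
    rw [map_zero, zero_mul] at this
    exact this
  · intro b a
    have := h1 ((Pull.of f).symm b) a
    rw [← h3] at this
    exact this
  · intro x y hx hy
    exact h2 x y hx hy

variable {f}

theorem hom_ext {A : Type*} [CommRing A] {g h : S f O →+* A}
    (h1 : ∀ b : B, g (algebraMap B (S f O) b) = h (algebraMap B (S f O) b))
    (h2 : ∀ a : O, g (inc f O a) = h (inc f O a)) : g = h := by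
  ext x
  refine induction_on f (P := fun x => g x = h x) x ?_ ?_
  · intro b a
    rw [map_mul, map_mul, h1, h2]
  · intro x y hx hy
    rw [map_add, map_add, hx, hy]

variable (f)

/-- the basis of `S f O` over `B` obtained from a basis of `O` over `R` -/
noncomputable def basis {ι : Type*} (eta : Module.Basis ι R O) : Module.Basis ι B (S f O) :=
  (Algebra.TensorProduct.basis (Pull f) eta : Module.Basis ι (Pull f) (Pull f ⊗[R] O))

theorem basis_apply {ι : Type*} (eta : Module.Basis ι R O) (i : ι) :
    basis f eta i = inc f O (eta i) :=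
  Algebra.TensorProduct.basis_apply (A := Pull f) eta i

/-- coordinates of `inc a` -/
theorem basis_repr_inc {ι : Type*} (eta : Module.Basis ι R O) (a : O) (i : ι) :
    (basis f eta).repr (inc f O a) i = f (eta.repr a i) := by
  have h := Algebra.TensorProduct.basis_repr_tmul (A := Pull f) eta (1 : Pull f) a
  have h2 : ((Algebra.TensorProduct.basis (Pull f) eta).repr ((1 : Pull f) ⊗ₜ[R] a)) i
      = algebraMap R (Pull f) (eta.repr a i) := by
    rw [h, one_smul, Finsupp.mapRange_apply]
  exact h2

/-- coordinates of `b * inc a` -/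
theorem basis_repr_mul_inc {ι : Type*} (eta : Module.Basis ι R O) (b : B) (a : O) (i : ι) :
    (basis f eta).repr (algebraMap B (S f O) b * inc f O a) i = b * f (eta.repr a i) := by
  rw [← Algebra.smul_def, map_smul, Finsupp.smul_apply, basis_repr_inc, smul_eq_mul]

variable {f f' f''}

/-- functoriality in `B` -/
noncomputable def map (h : B →+* B') (hf : ∀ r : R, h (f r) = f' r) : S f O →+* S f' O :=
  lift f ((algebraMap B' (S f' O)).comp h) (inc f' O) (fun r => by
    rw [RingHom.comp_apply, hf, inc_algebraMap])

theorem map_algebraMap (h : B →+* B') (hf : ∀ r : R, h (f r) = f' r) (b : B) :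
    map (O := O) h hf (algebraMap B (S f O) b) = algebraMap B' (S f' O) (h b) := by
  rw [map, lift_algebraMap]; rfl

theorem map_inc (h : B →+* B') (hf : ∀ r : R, h (f r) = f' r) (a : O) :
    map h hf (inc f O a) = inc f' O a := by
  rw [map, lift_inc]

/-- coordinates of `map h x` -/
theorem map_repr {ι : Type*} (eta : Module.Basis ι R O) (h : B →+* B')
    (hf : ∀ r : R, h (f r) = f' r) (x : S f O) (i : ι) :
    (basis f' eta).repr (map h hf x) i = h ((basis f eta).repr x i) := by
  refine induction_on f (P := fun x => (basis f' eta).repr (map h hf x) i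
    = h ((basis f eta).repr x i)) x ?_ ?_
  · intro b a
    rw [map_mul, map_algebraMap, map_inc, basis_repr_mul_inc, basis_repr_mul_inc, map_mul, hf]
  · intro x y hx hy
    rw [map_add, map_add, map_add, Finsupp.add_apply, Finsupp.add_apply, map_add, hx, hy]

theorem map_injective {ι : Type*} (eta : Module.Basis ι R O) (h : B →+* B')
    (hf : ∀ r : R, h (f r) = f' r) (hi : Function.Injective h) :
    Function.Injective (map (O := O) h hf) := by
  intro x y hxy
  apply (basis f eta).repr.injective
  ext i
  apply hi
  rw [← map_repr eta h hf, ← map_repr eta h hf, hxy]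

theorem map_map (h : B →+* B') (hf : ∀ r : R, h (f r) = f' r)
    (h' : B' →+* B'') (hf' : ∀ r : R, h' (f' r) = f'' r) (x : S f O) :
    map h' hf' (map h hf x) = map (h'.comp h) (fun r => by rw [RingHom.comp_apply, hf, hf']) x := by
  have : (map (O := O) h' hf').comp (map h hf)
      = map (h'.comp h) (fun r => by rw [RingHom.comp_apply, hf, hf']) := by
    apply hom_ext
    · intro b
      rw [RingHom.comp_apply, map_algebraMap, map_algebraMap, map_algebraMap]; rfl
    · intro a
      rw [RingHom.comp_apply, map_inc, map_inc, map_inc]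
  exact congrArg (fun g : S f O →+* S f'' O => g x) this

theorem map_id (h : B →+* B) (hf : ∀ r : R, h (f r) = f r) (hid : ∀ b, h b = b) (x : S f O) :
    map h hf x = x := by
  have : map (O := O) h hf = RingHom.id _ := by
    apply hom_ext
    · intro b
      rw [map_algebraMap, hid]; rfl
    · intro a
      rw [map_inc]; rfl
  exact congrArg (fun g : S f O →+* S f O => g x) this

section action

variable {G : Type*} [Group G] [MulSemiringAction G O] [SMulCommClass G R O]

theorem smul_algebraMap_base (s : G) (r : R) : s • (algebraMap R O r) = algebraMap R O r := by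
  rw [Algebra.algebraMap_eq_smul_one, smul_comm, smul_one]

/-- the action of one element -/
noncomputable def act (f : R →+* B) (s : G) : S f O →+* S f O :=
  lift f (algebraMap B (S f O)) ((inc f O).comp (MulSemiringAction.toRingHom G O s)) (fun r => by
    rw [RingHom.comp_apply, MulSemiringAction.toRingHom_apply, smul_algebraMap_base,
      inc_algebraMap])

noncomputable instance instAction : MulSemiringAction G (S f O) where
  smul s x := act f s x
  one_smul x := by
    have : act (O := O) f (1 : G) = RingHom.id _ := by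
      apply hom_ext
      · intro b
        rw [act, lift_algebraMap]; rfl
      · intro a
        rw [act, lift_inc, RingHom.comp_apply, MulSemiringAction.toRingHom_apply, one_smul]; rfl
    exact congrArg (fun g : S f O →+* S f O => g x) this
  mul_smul s t x := by
    have : act (O := O) f (s * t) = (act f s).comp (act f t) := by
      apply hom_ext
      · intro b
        rw [RingHom.comp_apply, act, act, act, lift_algebraMap, lift_algebraMap, lift_algebraMap]
      · intro a
        rw [RingHom.comp_apply, act, act, act, lift_inc, lift_inc, RingHom.comp_apply,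
          RingHom.comp_apply, lift_inc, RingHom.comp_apply, MulSemiringAction.toRingHom_apply,
          MulSemiringAction.toRingHom_apply, MulSemiringAction.toRingHom_apply, mul_smul]
    exact congrArg (fun g : S f O →+* S f O => g x) this
  smul_zero s := map_zero (act f s)
  smul_add s x y := map_add (act f s) x y
  smul_one s := map_one (act f s)
  smul_mul s x y := map_mul (act f s) x y

theorem smul_algebraMap (s : G) (b : B) :
    s • (algebraMap B (S f O) b) = algebraMap B (S f O) b := by
  have : s • (algebraMap B (S f O) b) = act f s (algebraMap B (S f O) b) := rfl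
  rw [this, act, lift_algebraMap]

theorem smul_inc (s : G) (a : O) : s • (inc f O a) = inc f O (s • a) := by
  have : s • (inc f O a) = act f s (inc f O a) := rfl
  rw [this, act, lift_inc]; rfl

instance instSMulCommClass : SMulCommClass G B (S f O) where
  smul_comm s b x := by
    rw [Algebra.smul_def, smul_mul', smul_algebraMap, Algebra.smul_def]

theorem map_smul' (h : B →+* B') (hf : ∀ r : R, h (f r) = f' r) (s : G) (x : S f O) :
    map h hf (s • x) = s • map h hf x := by
  refine induction_on f (P := fun x => map h hf (s • x) = s • map h hf x) x ?_ ?_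
  · intro b a
    rw [smul_mul', smul_algebraMap, smul_inc, map_mul, map_mul, map_algebraMap, map_inc, map_inc,
      smul_mul', smul_algebraMap, smul_inc]
  · intro x y hx hy
    rw [smul_add, map_add, map_add, smul_add, hx, hy]

end action

end S

/-- The Chase-Harrison-Rosenberg condition (`G`-Galois extension of rings). -/
def CHR (G O : Type*) [Group G] [CommRing O] [MulSemiringAction G O] : Prop :=
  ∃ (N : ℕ) (x y : Fin N → O),
    (∑ i, x i * y i = 1) ∧ ∀ s : G, s ≠ 1 → ∑ i, x i * (s • y i) = 0

section CHR

variable {R B O : Type*} [CommRing R] [CommRing B] [CommRing O] [Algebra R O]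
  {G : Type*} [Group G] [MulSemiringAction G O] [SMulCommClass G R O]

theorem CHR.baseChange (f : R →+* B) (h : CHR G O) : CHR G (S f O) := by
  obtain ⟨N, x, y, h1, h2⟩ := h
  refine ⟨N, fun i => S.inc f O (x i), fun i => S.inc f O (y i), ?_, ?_⟩
  · rw [← map_one (S.inc f O), ← h1, map_sum]
    simp only [map_mul]
  · intro s hs
    rw [← map_zero (S.inc f O), ← h2 s hs, map_sum]
    simp only [map_mul, S.smul_inc]

/-- `s = sum x_i Tr(y_i s)` -/
theorem CHR.trace [Fintype G] {N : ℕ} {x y : Fin N → O} (h1 : ∑ i, x i * y i = 1)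
    (h2 : ∀ s : G, s ≠ 1 → ∑ i, x i * (s • y i) = 0) (a : O) :
    a = ∑ i, x i * ∑ s : G, s • (y i * a) := by
  classical
  have : ∑ i, x i * ∑ s : G, s • (y i * a) = ∑ s : G, (∑ i, x i * (s • y i)) * (s • a) := by
    simp only [Finset.mul_sum, Finset.sum_mul, smul_mul', mul_assoc]
    rw [Finset.sum_comm]
  rw [this, Finset.sum_eq_single (1 : G)]
  · simp only [one_smul]
    rw [h1, one_mul]
  · intro s _ hs
    rw [h2 s hs, zero_mul]
  · intro h
    exact absurd (Finset.mem_univ _) h

end CHR

/-- `F` is locally (Zariski) an `m`-th power times a unit: the certificate `a_j ^ m = F u_j`,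
`sum al_j u_j = 1`. -/
def Cert {A : Type*} [CommRing A] (m : ℕ) (F : A) : Prop :=
  ∃ (N : ℕ) (a u al : Fin N → A), (∀ j, a j ^ m = F * u j) ∧ ∑ j, al j * u j = 1

theorem Cert.map {A A' : Type*} [CommRing A] [CommRing A'] (h : A →+* A') {m : ℕ} {F : A}
    (hF : Cert m F) : Cert m (h F) := by
  obtain ⟨N, a, u, al, h1, h2⟩ := hF
  refine ⟨N, fun j => h (a j), fun j => h (u j), fun j => h (al j), fun j => ?_, ?_⟩
  · rw [← map_pow, h1, map_mul]
  · rw [← map_one h, ← h2, map_sum]
    simp only [map_mul]

theorem Cert.mul_pow {A : Type*} [CommRing A] {m : ℕ} {F : A} (hF : Cert m F) (c : A) :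
    Cert m (F * c ^ m) := by
  obtain ⟨N, a, u, al, h1, h2⟩ := hF
  refine ⟨N, fun j => a j * c, u, al, fun j => ?_, h2⟩
  rw [_root_.mul_pow, h1]; ring

section lines

open Polynomial

/-- `X ↦ y ^ m`, for `y` in a `k`-algebra `B`. -/
noncomputable def pw {k B : Type*} [CommRing k] [CommRing B] [Algebra k B] (m : ℕ) (y : B) :
    k[X] →+* B := (aeval (y ^ m)).toRingHom

theorem pw_X {k B : Type*} [CommRing k] [CommRing B] [Algebra k B] (m : ℕ) (y : B) :
    pw (k := k) m y X = y ^ m := by
  simp [pw]

theorem pw_C {k B : Type*} [CommRing k] [CommRing B] [Algebra k B] (m : ℕ) (y : B) (c : k) :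
    pw (k := k) m y (C c) = algebraMap k B c := by
  simp [pw]

/-- a ring hom which is compatible with the constants and maps `y` to `y'` -/
theorem pw_comp {k B B' : Type*} [CommRing k] [CommRing B] [CommRing B'] [Algebra k B]
    [Algebra k B'] (m : ℕ) (y : B) (y' : B') (h : B →+* B')
    (h1 : ∀ c : k, h (algebraMap k B c) = algebraMap k B' c) (h2 : h y = y') (r : k[X]) :
    h (pw (k := k) m y r) = pw (k := k) m y' r := by
  have : h.comp (pw (k := k) m y) = pw (k := k) m y' := by
    apply Polynomial.ringHom_ext
    · intro c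
      rw [RingHom.comp_apply, pw_C, pw_C, h1]
    · rw [RingHom.comp_apply, pw_X, pw_X, map_pow, h2]
  exact congrArg (fun g : k[X] →+* B' => g r) this

/-- `(z^p - z)/t` in `R[z]`; `ti` is the inverse of the parameter `t`. -/
noncomputable def vz {R : Type*} [CommRing R] (p : ℕ) (ti : R) : R[X] := C ti * (X ^ p - X)

/-- the substitution `z ↦ z + 1` -/
noncomputable def shift (R : Type*) [CommRing R] : R[X] →+* R[X] := (aeval (X + 1 : R[X])).toRingHom

theorem shift_X (R : Type*) [CommRing R] : shift R X = X + 1 := by simp [shift]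

theorem shift_C (R : Type*) [CommRing R] (c : R) : shift R (C c) = C c := by simp [shift]

theorem shift_vz {R : Type*} [CommRing R] {p : ℕ} [Fact p.Prime] [CharP R p] (ti : R) :
    shift R (vz p ti) = vz p ti := by
  rw [vz, map_mul, shift_C, map_sub, map_pow, shift_X, add_pow_char, one_pow]
  ring

theorem shift_pw {k R : Type*} [CommRing k] [CommRing R] [Algebra k R] {p : ℕ} [Fact p.Prime]
    [CharP R p] (m : ℕ) (ti : R) (r : k[X]) :
    shift R (pw (k := k) m (vz p ti) r) = pw (k := k) m (vz p ti) r :=
  pw_comp m _ _ (shift R) (fun c => by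
    rw [Polynomial.algebraMap_apply, shift_C]) (shift_vz ti) r

end lines

section geo

open Polynomial

/-- The ring `S(R,t)` of the paper: base change of the `k[X]`-algebra `O` along
`k[X] → R[z]`, `X ↦ ((z^p - z)/t)^m`, where `ti = 1/t`. -/
abbrev SRt (k : Type*) [CommRing k] {R : Type*} [CommRing R] [Algebra k R] (p m : ℕ) (ti : R)
    (O : Type*) [CommRing O] [Algebra k[X] O] : Type _ :=
  S (pw (k := k) m (vz p ti)) O

variable {k R O : Type*} [CommRing k] [CommRing R] [Algebra k R] [CommRing O] [Algebra k[X] O]

/-- `tau : z ↦ z + 1` on `S(R,t)`. -/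
noncomputable def tau {p : ℕ} [Fact p.Prime] [CharP R p] (m : ℕ) (ti : R) :
    SRt k p m ti O →+* SRt k p m ti O :=
  S.map (shift R) (shift_pw m ti)

/-- `X_n = prod_gam gam(F)^(n_gam)` -/
noncomputable def Xn {G A : Type*} [Group G] [Fintype G] [CommRing A] [MulSemiringAction G A]
    (F : A) (n : G → ℕ) : A := ∏ g : G, (g • F) ^ n g

/-- `Y_n = X_n * tau(X_n)^(l-1)` -/
noncomputable def Yn {G : Type*} [Group G] [Fintype G] [MulSemiringAction G O]
    [SMulCommClass G k[X] O] {p : ℕ} [Fact p.Prime] [CharP R p] (m : ℕ) (ti : R) (l : ℕ)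
    (F : SRt k p m ti O) (n : G → ℕ) : SRt k p m ti O :=
  Xn F n * (tau m ti (Xn F n)) ^ (l - 1)

end geo

/-- all coordinates of `x` (in the basis `eta`) are polynomials with coefficients in `kap` -/
def CoordIn {k O : Type*} [Field k] [CommRing O] [Algebra (Polynomial k) O] {ι : Type*}
    (eta : Module.Basis ι (Polynomial k) O) {f : Polynomial k →+* Polynomial k}
    (kap : Subfield k) (x : S f O) : Prop :=
  ∀ (i : ι) (j : ℕ), ((S.basis f eta).repr x i).coeff j ∈ kap

end Pool.QPC
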