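import Pool.Agent.QPG.N1

set_option autoImplicit false

open Polynomial

namespace Pool.QPC

open Pool.Agent.PatchGL (chi kV zet mapHom mapHom_coeff chi_C chi_X chi_phV phV mapHom_ofPS)

section ThetaQ

variable {k : Type} [Field k] {p : ℕ} [Fact p.Prime] [CharP k p] {R O : Type} [CommRing R]
  [CommRing O] [Algebra R O]
  (f0 : R →+* k[X]) (fz : R →+* (LaurentSeries k)[X]) (fP : R →+* PowerSeries k[X])
  (fV : R →+* LaurentSeries k[X]) (fO : R →+* (HahnSeries ℚ k)[X])
  (hP : ∀ r, PowerSeries.C (f0 r) = fP r) (hV : ∀ r, HahnSeries.C (f0 r) = fV r)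
  (hO : ∀ r, mapRingHom (embQ k) (fz r) = fO r)

theorem mapHom_C1 {A B : Type*} [CommRing A] [CommRing B] (f : A →+* B) (a : A) :
    mapHom f (HahnSeries.C a) = HahnSeries.C (f a) := by
  ext q
  rw [mapHom_coeff, HahnSeries.C_apply, HahnSeries.C_apply, HahnSeries.coeff_single,
    HahnSeries.coeff_single]
  split_ifs <;> simp

/-- `S(k[v]((s))) → (S_v)((s))` -/
noncomputable def LamV : S fV O →+* LaurentSeries (S f0 O) :=
  S.lift fV (mapHom (algebraMap k[X] (S f0 O))) (HahnSeries.C.comp (S.inc f0 O)) (fun r => by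
    rw [← hV, mapHom_C1, RingHom.comp_apply, S.inc_algebraMap])

/-- `S(k[v][[s]]) → (S_v)[[s]]` -/
noncomputable def LamP : S fP O →+* PowerSeries (S f0 O) :=
  S.lift fP (PowerSeries.map (algebraMap k[X] (S f0 O))) ((PowerSeries.C).comp (S.inc f0 O))
    (fun r => by
      rw [← hP, PowerSeries.map_C, RingHom.comp_apply, S.inc_algebraMap])

theorem LamV_ofPS (h1 : ∀ r, HahnSeries.ofPowerSeries ℤ (Polynomial k) (fP r) = fV r)
    (y : S fP O) :
    LamV f0 fV hV (S.map (HahnSeries.ofPowerSeries ℤ (Polynomial k)) h1 y)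
      = HahnSeries.ofPowerSeries ℤ (S f0 O) (LamP f0 fP hP y) := by
  have : (LamV (O := O) f0 fV hV).comp (S.map (HahnSeries.ofPowerSeries ℤ (Polynomial k)) h1)
      = (HahnSeries.ofPowerSeries ℤ (S f0 O)).comp (LamP f0 fP hP) := by
    apply S.hom_ext
    · intro b
      rw [RingHom.comp_apply, RingHom.comp_apply, S.map_algebraMap, LamV, LamP, S.lift_algebraMap,
        S.lift_algebraMap, mapHom_ofPS]
    · intro a
      rw [RingHom.comp_apply, RingHom.comp_apply, S.map_inc, LamV, LamP, S.lift_inc, S.lift_inc,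
        RingHom.comp_apply, RingHom.comp_apply, HahnSeries.ofPowerSeries_C]
  exact congrArg (fun g : S fP O →+* LaurentSeries (S f0 O) => g y) this

theorem constCoeff_LamP (h3 : ∀ r, PowerSeries.constantCoeff (fP r) = f0 r) (y : S fP O) :
    PowerSeries.constantCoeff (LamP f0 fP hP y) = S.map PowerSeries.constantCoeff h3 y := by
  have : (PowerSeries.constantCoeff).comp (LamP (O := O) f0 fP hP)
      = S.map PowerSeries.constantCoeff h3 := by
    apply S.hom_ext
    · intro b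
      rw [RingHom.comp_apply, S.map_algebraMap, LamP, S.lift_algebraMap,
        ← PowerSeries.coeff_zero_eq_constantCoeff_apply, PowerSeries.coeff_map,
        PowerSeries.coeff_zero_eq_constantCoeff_apply]
    · intro a
      rw [RingHom.comp_apply, S.map_inc, LamP, S.lift_inc, RingHom.comp_apply,
        PowerSeries.constantCoeff_C]
  exact congrArg (fun g : S fP O →+* S f0 O => g y) this

/-- `Θ_i : S(Ω[z]) → HahnSeries ℚ (S_v)`, `z ↦ i + ζ` -/
noncomputable def ThetaQ (i : k) (hi : ∀ r, chi k p i (fz r) = fV r) :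
    S fO O →+* HahnSeries ℚ (S f0 O) :=
  S.lift fO ((mapQ (algebraMap k[X] (S f0 O))).comp (chiQ k p i))
    (HahnSeries.C.comp (S.inc f0 O)) (fun r => by
      rw [RingHom.comp_apply, ← hO, chiQ_emb, hi, ← hV, embQ_C, mapQ_C, RingHom.comp_apply,
        S.inc_algebraMap])

theorem ThetaQ_map (i : k) (hi : ∀ r, chi k p i (fz r) = fV r) (x : S fz O) :
    ThetaQ f0 fz fV fO hV hO i hi (S.map (mapRingHom (embQ k)) hO x)
      = embQ (S f0 O) (LamV f0 fV hV (S.map (chi k p i) hi x)) := by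
  have : (ThetaQ (O := O) f0 fz fV fO hV hO i hi).comp (S.map (mapRingHom (embQ k)) hO)
      = (embQ (S f0 O)).comp ((LamV f0 fV hV).comp (S.map (chi k p i) hi)) := by
    apply S.hom_ext
    · intro b
      rw [RingHom.comp_apply, RingHom.comp_apply, RingHom.comp_apply, S.map_algebraMap,
        S.map_algebraMap, ThetaQ, LamV, S.lift_algebraMap, S.lift_algebraMap, RingHom.comp_apply,
        chiQ_emb, mapQ_embQ]
    · intro a
      rw [RingHom.comp_apply, RingHom.comp_apply, RingHom.comp_apply, S.map_inc, S.map_inc, ThetaQ,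
        LamV, S.lift_inc, S.lift_inc, RingHom.comp_apply]
      exact (embQ_C _).symm
  exact congrArg (fun g : S fz O →+* HahnSeries ℚ (S f0 O) => g x) this

theorem ThetaQ_shift (h0 : ∀ r, chi k p 0 (fz r) = fV r) (h1 : ∀ r, chi k p 1 (fz r) = fV r)
    (hs : ∀ r, shift (HahnSeries ℚ k) (fO r) = fO r) (x : S fO O) :
    ThetaQ f0 fz fV fO hV hO 0 h0 (S.map (shift (HahnSeries ℚ k)) hs x)
      = ThetaQ f0 fz fV fO hV hO 1 h1 x := by
  have : (ThetaQ (O := O) f0 fz fV fO hV hO 0 h0).comp (S.map (shift (HahnSeries ℚ k)) hs)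
      = ThetaQ f0 fz fV fO hV hO 1 h1 := by
    apply S.hom_ext
    · intro b
      rw [RingHom.comp_apply, S.map_algebraMap, ThetaQ, ThetaQ, S.lift_algebraMap,
        S.lift_algebraMap, RingHom.comp_apply, RingHom.comp_apply, chiQ_shift]
    · intro a
      rw [RingHom.comp_apply, S.map_inc, ThetaQ, ThetaQ, S.lift_inc, S.lift_inc]
  exact congrArg (fun g : S fO O →+* HahnSeries ℚ (S f0 O) => g x) this

end ThetaQ

section main

variable {k : Type} [Field k] {p : ℕ} [Fact p.Prime] [CharP k p] {R O : Type} [CommRing R]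
  [CommRing O] [Algebra R O] {G : Type} [Group G] [Fintype G] [MulSemiringAction G O]
  [SMulCommClass G R O]

theorem S_map_Xn {B B' : Type} [CommRing B] [CommRing B'] {f : R →+* B} {f' : R →+* B'}
    (h : B →+* B') (hf : ∀ r, h (f r) = f' r) (F : S f O) (ν : G → ℕ) :
    S.map h hf (Xn F ν) = Xn (S.map h hf F) ν := by
  rw [Xn, Xn, map_prod]
  refine Finset.prod_congr rfl fun g _ => ?_
  rw [map_pow, S.map_smul']

/-- the core of N1, general base -/
theorem N1_core (f0 : R →+* k[X]) [IsDomain (S f0 O)] (fz : R →+* (LaurentSeries k)[X])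
    (fP : R →+* PowerSeries k[X]) (hP : ∀ r, PowerSeries.C (f0 r) = fP r)
    (fV : R →+* LaurentSeries k[X]) (hV : ∀ r, HahnSeries.C (f0 r) = fV r)
    (fO : R →+* (HahnSeries ℚ k)[X]) (hO : ∀ r, mapRingHom (embQ k) (fz r) = fO r)
    (hs : ∀ r, shift (HahnSeries ℚ k) (fO r) = fO r)
    (hi0 : ∀ r, chi k p 0 (fz r) = fV r) (hi1 : ∀ r, chi k p 1 (fz r) = fV r)
    (h1 : ∀ r, HahnSeries.ofPowerSeries ℤ (Polynomial k) (fP r) = fV r)
    (h3 : ∀ r, PowerSeries.constantCoeff (fP r) = f0 r)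
    (F : S fz O) (F0 F1 : S fP O) (f' f1 : S f0 O)
    (hF0 : S.map (HahnSeries.ofPowerSeries ℤ (Polynomial k)) h1 F0 = S.map (chi k p 0) hi0 F)
    (hF0' : S.map PowerSeries.constantCoeff h3 F0 = f')
    (hF1 : S.map (HahnSeries.ofPowerSeries ℤ (Polynomial k)) h1 F1 = S.map (chi k p 1) hi1 F)
    (hF1' : S.map PowerSeries.constantCoeff h3 F1 = f1)
    {l : ℕ} (hl : 1 ≤ l) (ν : G → ℕ) (h : S fO O)
    (hh : h ^ l = Xn (S.map (mapRingHom (embQ k)) hO F) ν *
      (S.map (shift (HahnSeries ℚ k)) hs (Xn (S.map (mapRingHom (embQ k)) hO F) ν)) ^ (l - 1)) :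
    ∃ b : S f0 O, b ^ l = Xn f' ν * (Xn f1 ν) ^ (l - 1) := by
  have key : (ThetaQ f0 fz fV fO hV hO 0 hi0 h) ^ l
      = embQ (S f0 O) (HahnSeries.ofPowerSeries ℤ (S f0 O)
        (LamP f0 fP hP (Xn F0 ν * (Xn F1 ν) ^ (l - 1)))) := by
    rw [← map_pow, hh, map_mul, map_pow, ThetaQ_shift (p := p) f0 fz fV fO hV hO hi0 hi1 hs,
      ← S_map_Xn, ThetaQ_map, ThetaQ_map, S_map_Xn, S_map_Xn, ← hF0, ← hF1, ← S_map_Xn, ← S_map_Xn,
      LamV_ofPS f0 fP fV hP hV h1, LamV_ofPS f0 fP fV hP hV h1, ← map_pow, ← map_mul, ← map_pow,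
      ← map_mul, ← map_pow, ← map_mul]
  obtain ⟨b, hb⟩ := const_pow hl _ _ key
  refine ⟨b, ?_⟩
  rw [hb, constCoeff_LamP f0 fP hP h3, map_mul, map_pow, S_map_Xn, S_map_Xn, hF0', hF1']

end main

end Pool.QPC
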