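import Pool.Agent.QPG.Defs

/-! # QPC, section 7: descent of `(O, eta, G)` to a subfield of constants -/

set_option autoImplicit false

open Polynomial

namespace Pool.QPC

/-- polynomials over `k` with coefficients in (the image of) `k₀` -/
noncomputable def PK (k₀ k : Type*) [CommRing k₀] [CommRing k] [Algebra k₀ k] : Subring k[X] :=
  (mapRingHom (algebraMap k₀ k)).range

theorem mem_PK {k₀ k : Type*} [CommRing k₀] [CommRing k] [Algebra k₀ k] {q : k[X]} :
    q ∈ PK k₀ k ↔ ∃ r : k₀[X], r.map (algebraMap k₀ k) = q := Iff.rfl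

theorem mem_PK_of_coeff {k₀ k : Type*} [CommRing k₀] [CommRing k] [Algebra k₀ k] {q : k[X]}
    (h : ∀ j, ∃ c : k₀, algebraMap k₀ k c = q.coeff j) : q ∈ PK k₀ k := by
  have : q ∈ lifts (algebraMap k₀ k) := by
    rw [lifts_iff_coeff_lifts]
    exact fun j => h j
  exact (mem_lifts _).mp this

section desc

variable {k₀ k : Type*} [Field k₀] [Field k] [Algebra k₀ k] {O : Type*} [CommRing O]
  [Algebra k[X] O] {n : ℕ} (eta : Module.Basis (Fin n) k[X] O)
  (hmul : ∀ i j l, eta.repr (eta i * eta j) l ∈ PK k₀ k) (hone : ∀ l, eta.repr 1 l ∈ PK k₀ k)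

/-- the descended ring -/
def O0 : Subring O where
  carrier := {a | ∀ l, eta.repr a l ∈ PK k₀ k}
  mul_mem' := by
    intro a b ha hb l
    have : a * b = ∑ i, ∑ j, (eta.repr a i * eta.repr b j) • (eta i * eta j) := by
      conv_lhs => rw [← eta.sum_repr a, ← eta.sum_repr b]
      rw [Finset.sum_mul_sum]
      refine Finset.sum_congr rfl fun i _ => Finset.sum_congr rfl fun j _ => ?_
      rw [smul_mul_smul_comm]
    rw [this, map_sum, Finsupp.finsetSum_apply]
    refine sum_mem fun i _ => ?_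
    rw [map_sum, Finsupp.finsetSum_apply]
    refine sum_mem fun j _ => ?_
    rw [map_smul, Finsupp.smul_apply, smul_eq_mul]
    exact mul_mem (mul_mem (ha i) (hb j)) (hmul i j l)
  one_mem' := hone
  add_mem' := by
    intro a b ha hb l
    rw [map_add, Finsupp.add_apply]
    exact add_mem (ha l) (hb l)
  zero_mem' := by
    intro l
    rw [map_zero]
    exact zero_mem _
  neg_mem' := by
    intro a ha l
    rw [map_neg, Finsupp.neg_apply]
    exact neg_mem (ha l)

theorem mem_O0 {a : O} : a ∈ O0 eta hmul hone ↔ ∀ l, eta.repr a l ∈ PK k₀ k := Iff.rfl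

theorem algebraMap_mem_O0 (q : k[X]) (hq : q ∈ PK k₀ k) :
    algebraMap k[X] O q ∈ O0 eta hmul hone := by
  intro l
  rw [Algebra.algebraMap_eq_smul_one, map_smul, Finsupp.smul_apply, smul_eq_mul]
  exact mul_mem hq (hone l)

noncomputable instance : Algebra k₀[X] (O0 eta hmul hone) :=
  (((algebraMap k[X] O).comp (mapRingHom (algebraMap k₀ k))).codRestrict (O0 eta hmul hone)
    (fun r => algebraMap_mem_O0 eta hmul hone _ ⟨r, rfl⟩)).toAlgebra

theorem O0_algebraMap (r : k₀[X]) :
    ((algebraMap k₀[X] (O0 eta hmul hone) r : O0 eta hmul hone) : O) =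
      algebraMap k[X] O (mapRingHom (algebraMap k₀ k) r) := rfl

theorem O0_smul (r : k₀[X]) (a : O0 eta hmul hone) :
    ((r • a : O0 eta hmul hone) : O) = (mapRingHom (algebraMap k₀ k) r) • (a : O) := by
  rw [Algebra.smul_def, Algebra.smul_def]
  change ((algebraMap k₀[X] (O0 eta hmul hone) r : O0 eta hmul hone) : O) * (a : O) = _
  rw [O0_algebraMap]

theorem eta_mem_O0 (i : Fin n) : eta i ∈ O0 eta hmul hone := by
  intro l
  rw [eta.repr_self, Finsupp.single_apply]
  split_ifs
  · exact one_mem _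
  · exact zero_mem _

/-- the basis of the descended ring -/
noncomputable def eta0 : Module.Basis (Fin n) k₀[X] (O0 eta hmul hone) :=
  Module.Basis.mk (v := fun i => (⟨eta i, eta_mem_O0 eta hmul hone i⟩ : O0 eta hmul hone))
    (by
      rw [Fintype.linearIndependent_iff]
      intro g hg i
      have h1 : ∑ i, (mapRingHom (algebraMap k₀ k) (g i)) • eta i = 0 := by
        have h2 := congrArg (fun a : O0 eta hmul hone => (a : O)) hg
        simp only [ZeroMemClass.coe_zero] at h2
        rw [← h2, AddSubmonoidClass.coe_finsetSum]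
        exact Finset.sum_congr rfl fun i _ =>
          (O0_smul eta hmul hone (g i) ⟨eta i, eta_mem_O0 eta hmul hone i⟩).symm
      have h3 := (Fintype.linearIndependent_iff.mp eta.linearIndependent) _ h1 i
      apply Polynomial.map_injective _ (algebraMap k₀ k).injective
      rw [Polynomial.map_zero]
      exact h3)
    (by
      intro a _
      choose q hq using fun i => mem_PK.mp (a.2 i)
      have h1 : a = ∑ i, q i • (⟨eta i, eta_mem_O0 eta hmul hone i⟩ : O0 eta hmul hone) := by
        apply Subtype.ext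
        rw [AddSubmonoidClass.coe_finsetSum]
        conv_lhs => rw [← eta.sum_repr (a : O)]
        refine Finset.sum_congr rfl fun i _ => ?_
        rw [O0_smul, coe_mapRingHom, hq]
      rw [h1]
      exact Submodule.sum_mem _ fun i _ =>
        Submodule.smul_mem _ _ (Submodule.subset_span ⟨i, rfl⟩))

theorem coe_eta0 (i : Fin n) : ((eta0 eta hmul hone i : O0 eta hmul hone) : O) = eta i := by
  rw [eta0, Module.Basis.mk_apply]

/-- invariants -/
theorem desc_inv [Nontrivial O] (q : k[X]) (hq : algebraMap k[X] O q ∈ O0 eta hmul hone) :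
    q ∈ PK k₀ k := by
  obtain ⟨l, hl⟩ : ∃ l, eta.repr 1 l ≠ 0 := by
    by_contra hno
    push Not at hno
    apply one_ne_zero (α := O)
    apply eta.repr.injective
    ext1 l
    rw [hno l, map_zero]; rfl
  have h1 := hq l
  rw [Algebra.algebraMap_eq_smul_one, map_smul, Finsupp.smul_apply, smul_eq_mul] at h1
  obtain ⟨c, hc⟩ := mem_PK.mp (hone l)
  obtain ⟨d, hd⟩ := mem_PK.mp h1
  have h2 : c.map (algebraMap k₀ k) ∣ d.map (algebraMap k₀ k) := by
    rw [hc, hd]; exact Dvd.intro_left _ rfl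
  rw [map_dvd_map'] at h2
  obtain ⟨r, rfl⟩ := h2
  rw [Polynomial.map_mul, hc, mul_comm] at hd
  exact mem_PK.mpr ⟨r, mul_right_cancel₀ hl hd⟩

variable {G : Type*} [Group G] [MulSemiringAction G O] [SMulCommClass G k[X] O]
  (hG : ∀ (s : G) i l, eta.repr (s • eta i) l ∈ PK k₀ k)

include hG in
theorem smul_mem_O0 (s : G) {a : O} (ha : a ∈ O0 eta hmul hone) : s • a ∈ O0 eta hmul hone := by
  intro l
  have : s • a = ∑ i, eta.repr a i • (s • eta i) := by
    conv_lhs => rw [← eta.sum_repr a]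
    rw [Finset.smul_sum]
    exact Finset.sum_congr rfl fun i _ => smul_comm _ _ _
  rw [this, map_sum, Finsupp.finsetSum_apply]
  refine sum_mem fun i _ => ?_
  rw [map_smul, Finsupp.smul_apply, smul_eq_mul]
  exact mul_mem (ha i) (hG s i l)

/-- the action of `G` on the descended ring -/
@[instance_reducible]
noncomputable def actO0 : MulSemiringAction G (O0 eta hmul hone) where
  smul s a := ⟨s • (a : O), smul_mem_O0 eta hmul hone hG s a.2⟩
  one_smul _ := Subtype.ext (one_smul _ _)
  mul_smul _ _ _ := Subtype.ext (mul_smul _ _ _)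
  smul_zero _ := Subtype.ext (smul_zero _)
  smul_add _ _ _ := Subtype.ext (smul_add _ _ _)
  smul_one _ := Subtype.ext (smul_one _)
  smul_mul _ _ _ := Subtype.ext (smul_mul' _ _ _)

end desc

/-- Descent of `(O, eta, G)` to a field of constants that contains the structure constants. -/
theorem descend0.{u} {k₀ k : Type*} [Field k₀] [Field k] [Algebra k₀ k] {O : Type u} [CommRing O]
    [Nontrivial O] [Algebra k[X] O] {n : ℕ} (eta : Module.Basis (Fin n) k[X] O)
    {G : Type*} [Group G] [MulSemiringAction G O] [SMulCommClass G k[X] O]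
    (hmul : ∀ i j l, eta.repr (eta i * eta j) l ∈ PK k₀ k) (hone : ∀ l, eta.repr 1 l ∈ PK k₀ k)
    (hG : ∀ (s : G) i l, eta.repr (s • eta i) l ∈ PK k₀ k)
    {N : ℕ} (x y : Fin N → O) (hx : ∀ i l, eta.repr (x i) l ∈ PK k₀ k)
    (hy : ∀ i l, eta.repr (y i) l ∈ PK k₀ k) (h1 : ∑ i, x i * y i = 1)
    (h2 : ∀ s : G, s ≠ 1 → ∑ i, x i * (s • y i) = 0)
    (hinv : ∀ a : O, (∀ s : G, s • a = a) → ∃ r, a = algebraMap k[X] O r) :
    ∃ (O₀ : Type u) (_ : CommRing O₀) (_ : Algebra k₀[X] O₀) (_ : MulSemiringAction G O₀)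
      (_ : SMulCommClass G k₀[X] O₀) (eta₀ : Module.Basis (Fin n) k₀[X] O₀) (ψ : O₀ →+* O),
      Function.Injective ψ ∧
      (∀ r, ψ (algebraMap k₀[X] O₀ r) = algebraMap k[X] O (mapRingHom (algebraMap k₀ k) r)) ∧
      (∀ i, ψ (eta₀ i) = eta i) ∧ (∀ (s : G) a, ψ (s • a) = s • ψ a) ∧ CHR G O₀ ∧
      (∀ a : O₀, (∀ s : G, s • a = a) → ∃ r, a = algebraMap k₀[X] O₀ r) ∧
      (∀ a : O, (∃ b, ψ b = a) ↔ ∀ l, eta.repr a l ∈ PK k₀ k) := by
  let _ : MulSemiringAction G (O0 eta hmul hone) := actO0 eta hmul hone hG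
  have hcoe : ∀ (s : G) (a : O0 eta hmul hone), ((s • a : O0 eta hmul hone) : O) = s • (a : O) :=
    fun s a => rfl
  have hcomm : SMulCommClass G k₀[X] (O0 eta hmul hone) := ⟨fun s r a => by
    apply Subtype.ext
    rw [hcoe, O0_smul, O0_smul, hcoe, smul_comm]⟩
  refine ⟨O0 eta hmul hone, inferInstance, inferInstance, actO0 eta hmul hone hG, hcomm,
    eta0 eta hmul hone, (O0 eta hmul hone).subtype, Subtype.val_injective,
    fun r => O0_algebraMap eta hmul hone r, fun i => coe_eta0 eta hmul hone i, fun s a => rfl,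
    ?_, ?_, ?_⟩
  · refine ⟨N, fun i => ⟨x i, hx i⟩, fun i => ⟨y i, hy i⟩, ?_, ?_⟩
    · apply Subtype.ext
      rw [AddSubmonoidClass.coe_finsetSum]
      exact h1
    · intro s hs
      apply Subtype.ext
      rw [AddSubmonoidClass.coe_finsetSum]
      exact h2 s hs
  · intro a ha
    obtain ⟨q, hq⟩ := hinv (a : O) (fun s => by rw [← hcoe, ha])
    have hq' : q ∈ PK k₀ k := desc_inv eta hmul hone q (by rw [← hq]; exact a.2)
    obtain ⟨r, rfl⟩ := mem_PK.mp hq'
    exact ⟨r, Subtype.ext hq⟩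
  · intro a
    constructor
    · rintro ⟨b, rfl⟩
      exact b.2
    · intro ha
      exact ⟨⟨a, ha⟩, rfl⟩

end Pool.QPC
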