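import Pool.Agent.QPG.Sp4a
import Pool.Agent.QPG.Sp4b

/-! # QPC, section 7: the descent to a finite field of constants, and the statement SPEC -/

set_option autoImplicit false

open Polynomial

namespace Pool.QPC

theorem finite_coeff {k : Type*} [CommRing k] (q : k[X]) : (Set.range q.coeff).Finite := by
  classical
  apply ((Finset.finite_toSet q.coeffs).union (Set.finite_singleton (0 : k))).subset
  rintro _ ⟨j, rfl⟩
  by_cases h : q.coeff j = 0
  · right; exact h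
  · left; exact coeff_mem_coeffs h

/-- Descent of `(O, eta, G)` to a finite field of constants that contains a given finite set. -/
theorem descend.{u} {p : ℕ} [Fact p.Prime] {k : Type*} [Field k] [Algebra (ZMod p) k]
    [Algebra.IsAlgebraic (ZMod p) k] {O : Type u} [CommRing O] [Nontrivial O] [Algebra k[X] O]
    {n : ℕ} (eta : Module.Basis (Fin n) k[X] O)
    {G : Type*} [Group G] [Finite G] [MulSemiringAction G O] [SMulCommClass G k[X] O]
    (chr : CHR G O) (hinv : ∀ a : O, (∀ s : G, s • a = a) → ∃ r, a = algebraMap k[X] O r)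
    (E : Set k) (hE : E.Finite) :
    ∃ k₀ : IntermediateField (ZMod p) k, Finite k₀ ∧ E ⊆ k₀ ∧
      ∃ (O₀ : Type u) (_ : CommRing O₀) (_ : Algebra k₀[X] O₀) (_ : MulSemiringAction G O₀)
      (_ : SMulCommClass G k₀[X] O₀) (eta₀ : Module.Basis (Fin n) k₀[X] O₀) (ψ : O₀ →+* O),
      Function.Injective ψ ∧
      (∀ r, ψ (algebraMap k₀[X] O₀ r) = algebraMap k[X] O (mapRingHom (algebraMap k₀ k) r)) ∧
      (∀ i, ψ (eta₀ i) = eta i) ∧ (∀ (s : G) a, ψ (s • a) = s • ψ a) ∧ CHR G O₀ ∧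
      (∀ a : O₀, (∀ s : G, s • a = a) → ∃ r, a = algebraMap k₀[X] O₀ r) ∧
      (∀ a : O, (∃ b, ψ b = a) ↔ ∀ l, eta.repr a l ∈ PK k₀ k) := by
  obtain ⟨N, x, y, h1, h2⟩ := chr
  obtain ⟨T, hT⟩ : ∃ T : Set k, T = (E ∪
      (⋃ q : Fin n × Fin n × Fin n, Set.range (eta.repr (eta q.1 * eta q.2.1) q.2.2).coeff) ∪
      (⋃ l : Fin n, Set.range (eta.repr 1 l).coeff) ∪
      (⋃ q : G × Fin n × Fin n, Set.range (eta.repr (q.1 • eta q.2.1) q.2.2).coeff) ∪
      (⋃ q : Fin N × Fin n, Set.range (eta.repr (x q.1) q.2).coeff) ∪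
      (⋃ q : Fin N × Fin n, Set.range (eta.repr (y q.1) q.2).coeff)) := ⟨_, rfl⟩
  have hTf : T.Finite := by
    rw [hT]
    refine Set.Finite.union (Set.Finite.union (Set.Finite.union (Set.Finite.union
      (Set.Finite.union hE ?_) ?_) ?_) ?_) ?_
    all_goals exact Set.finite_iUnion fun q => finite_coeff _
  obtain ⟨k₀, hk₀⟩ : ∃ k₀ : IntermediateField (ZMod p) k,
    k₀ = IntermediateField.adjoin (ZMod p) T := ⟨_, rfl⟩
  have hTk : T ⊆ k₀ := by rw [hk₀]; exact IntermediateField.subset_adjoin _ _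
  have hfd : FiniteDimensional (ZMod p) k₀ := by
    rw [hk₀]
    have : Finite T := hTf
    exact IntermediateField.finiteDimensional_adjoin fun x _ =>
      (Algebra.IsAlgebraic.isAlgebraic x).isIntegral
  have hfin : Finite k₀ := Module.finite_of_finite (ZMod p)
  have key : ∀ q : k[X], Set.range q.coeff ⊆ T → q ∈ PK k₀ k := fun q hq =>
    mem_PK_of_coeff fun j => ⟨⟨_, hTk (hq ⟨j, rfl⟩)⟩, rfl⟩
  refine ⟨k₀, hfin, fun c hc => hTk ?_, descend0 eta ?_ ?_ ?_ x y ?_ ?_ h1 h2 hinv⟩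
  · rw [hT]
    exact Or.inl (Or.inl (Or.inl (Or.inl (Or.inl hc))))
  · intro i j l
    apply key
    intro c hc
    rw [hT]
    exact Or.inl (Or.inl (Or.inl (Or.inl (Or.inr (Set.mem_iUnion.mpr ⟨(i, j, l), hc⟩)))))
  · intro l
    apply key
    intro c hc
    rw [hT]
    exact Or.inl (Or.inl (Or.inl (Or.inr (Set.mem_iUnion.mpr ⟨l, hc⟩))))
  · intro s i l
    apply key
    intro c hc
    rw [hT]
    exact Or.inl (Or.inl (Or.inr (Set.mem_iUnion.mpr ⟨(s, i, l), hc⟩)))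
  · intro i l
    apply key
    intro c hc
    rw [hT]
    exact Or.inl (Or.inr (Set.mem_iUnion.mpr ⟨(i, l), hc⟩))
  · intro i l
    apply key
    intro c hc
    rw [hT]
    exact Or.inr (Set.mem_iUnion.mpr ⟨(i, l), hc⟩)

/-- SPEC: from a solution over an algebraically closed field `Ω` with a transcendental parameter
`t` to a solution over `k` with a parameter `b`, with coordinates in the field generated by
`b ^ (p - 1)`. -/
theorem SPEC {p : ℕ} [Fact p.Prime] {k : Type*} [Field k] [Algebra (ZMod p) k] [CharP k p]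
    [IsAlgClosed k] [Algebra.IsAlgebraic (ZMod p) k]
    {O : Type*} [CommRing O] [Nontrivial O] [Algebra k[X] O] {n : ℕ}
    (eta : Module.Basis (Fin n) k[X] O)
    {G : Type*} [Group G] [Fintype G] [MulSemiringAction G O] [SMulCommClass G k[X] O]
    (chr : CHR G O) (hinv : ∀ a : O, (∀ s : G, s • a = a) → ∃ r, a = algebraMap k[X] O r)
    (m : ℕ) {l : ℕ} (hl : 1 ≤ l) (E : Finset k)
    {Ω : Type*} [Field Ω] [IsAlgClosed Ω] [Algebra k Ω] [CharP Ω p] (t : Ω)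
    (ht : Transcendental k t) (F : SRt k p m t⁻¹ O) {N : ℕ} (a u al : Fin N → SRt k p m t⁻¹ O)
    (hau : ∀ j, a j ^ m = F * u j) (hal : ∑ j, al j * u j = 1)
    (hY : ∀ ν : G → ℕ, (∀ g, ν g < l) → (∃ g g', ν g ≠ ν g') →
      ∀ h : SRt k p m t⁻¹ O, h ^ l ≠ Yn m t⁻¹ l F ν) :
    ∃ b : k, b ≠ 0 ∧ (∀ x ∈ E, x ∈ Subfield.closure {b ^ (p - 1)}) ∧
      b ∈ Subfield.closure {b ^ (p - 1)} ∧
      ∃ (F : SRt k p m b⁻¹ O) (N : ℕ) (a u al : Fin N → SRt k p m b⁻¹ O),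
        CoordIn eta (Subfield.closure {b ^ (p - 1)}) F ∧
        (∀ j, CoordIn eta (Subfield.closure {b ^ (p - 1)}) (a j) ∧
          CoordIn eta (Subfield.closure {b ^ (p - 1)}) (u j) ∧
          CoordIn eta (Subfield.closure {b ^ (p - 1)}) (al j)) ∧
        (∀ j, a j ^ m = F * u j) ∧ ∑ j, al j * u j = 1 ∧
        ∀ ν : G → ℕ, (∀ g, ν g < l) → (∃ g g', ν g ≠ ν g') →
          ∀ h : SRt k p m b⁻¹ O, h ^ l ≠ Yn m b⁻¹ l F ν := by
  classical
  obtain ⟨k₀, hfin, hE, O₀, _, _, _, _, eta₀, ψ, -, hψ, hb, hs, chr₀, hinv₀, -⟩ :=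
    descend (p := p) eta chr hinv (E : Set k) E.finite_toSet
  have hck₀ : CharP k₀ p := charP_of_injective_algebraMap (algebraMap (ZMod p) k₀).injective p
  have tr0 : Transcendental k₀ t := ht.restrictScalars (algebraMap k₀ k).injective
  have hinjΩ := ThS_injective ψ hψ eta₀ eta hb (p := p) (m := m) t⁻¹
  have hsurjΩ := ThS_surjective ψ hψ eta₀ eta hb (p := p) (m := m) t⁻¹
  obtain ⟨F₀, hF₀⟩ := hsurjΩ F
  choose a₀ ha₀ using fun r => hsurjΩ (a r)
  choose u₀ hu₀ using fun r => hsurjΩ (u r)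
  choose al₀ hal₀ using fun r => hsurjΩ (al r)
  obtain ⟨b, hb0, hbk, hbb, F', a', u', al', h1, h2, h3, h4, h5⟩ := spec0 (k := k) eta₀ chr₀ hinv₀
    m hl t tr0 F₀ a₀ u₀ al₀ (fun j => hinjΩ (by rw [map_pow, map_mul, ha₀, hF₀, hu₀, hau]))
    (hinjΩ (by
      rw [map_sum, map_one, ← hal]
      exact Finset.sum_congr rfl fun j _ => by rw [map_mul, hal₀, hu₀]))
    (fun ν hν hνn h hh => hY ν hν hνn (ThS ψ hψ t⁻¹ h) (by
      rw [← map_pow, hh, ThS_Yn ψ hψ t⁻¹ hs, hF₀]))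
  have hsurj := ThS_surjective ψ hψ eta₀ eta hb (p := p) (m := m) b⁻¹
  have hinj := ThS_injective ψ hψ eta₀ eta hb (p := p) (m := m) b⁻¹
  have hco : ∀ x : SRt k₀ p m b⁻¹ O₀,
      (∀ i j, co eta₀ x i j ∈ Subfield.closure {b ^ (p - 1)}) →
      CoordIn eta (Subfield.closure {b ^ (p - 1)}) (ThS ψ hψ b⁻¹ x) := by
    intro x hx i j
    rw [ThS_repr ψ hψ eta₀ eta hb]
    exact hx i j
  refine ⟨b, hb0, fun x hx => ?_, hbb, ThS ψ hψ b⁻¹ F', N, fun r => ThS ψ hψ b⁻¹ (a' r),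
    fun r => ThS ψ hψ b⁻¹ (u' r), fun r => ThS ψ hψ b⁻¹ (al' r), hco _ h1,
    fun r => ⟨hco _ fun i j => (h2 r i j).1, hco _ fun i j => (h2 r i j).2.1,
      hco _ fun i j => (h2 r i j).2.2⟩, ?_, ?_, ?_⟩
  · exact hbk ⟨x, hE hx⟩
  · intro j
    rw [← map_pow, h3, map_mul]
  · rw [← map_one (ThS ψ hψ b⁻¹), ← h4, map_sum]
    exact Finset.sum_congr rfl fun j _ => by rw [map_mul]
  · intro ν hν hνn h hh
    obtain ⟨h', rfl⟩ := hsurj h
    apply h5 ν hν hνn h'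
    apply hinj
    rw [map_pow, hh, ThS_Yn ψ hψ b⁻¹ hs]

end Pool.QPC
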