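import Pool.Agent.QPG.Z3
import Pool.Agent.QPG.N2
import Pool.Agent.QPG.Sp4c

set_option autoImplicit false

open Polynomial

namespace Pool.QPC

open Pool.Agent.PatchGL (chi chi_phV phV)

theorem Xn_algebraMap {R B O G : Type} [CommRing R] [CommRing B] [CommRing O] [Algebra R O]
    [Group G] [Fintype G] [MulSemiringAction G O] [SMulCommClass G R O] (f : R →+* B) (b : B)
    (ν : G → ℕ) : Xn (algebraMap B (S f O) b) ν = (algebraMap B (S f O) b) ^ (∑ g, ν g) := by
  rw [Xn, ← Finset.prod_pow_eq_pow_sum]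
  refine Finset.prod_congr rfl fun g _ => ?_
  rw [S.smul_algebraMap]

theorem embQ_single (k : Type) [Field k] (n : ℤ) (a : k) :
    embQ k (HahnSeries.single n a) = HahnSeries.single (n : ℚ) a := by
  rw [embQ, HahnSeries.embDomainRingHom_apply]
  exact HahnSeries.embDomain_single

theorem t_inv (k : Type) [Field k] :
    embQ k (HahnSeries.single (-2) 1) = (HahnSeries.single 2 1 : HahnSeries ℚ k)⁻¹ := by
  rw [embQ_single]
  apply eq_inv_of_mul_eq_one_left
  rw [HahnSeries.single_mul_single, one_mul]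
  push_cast
  rw [neg_add_cancel]
  rfl

theorem algQ (k : Type) [Field k] (c : k) :
    algebraMap k (HahnSeries ℚ k) c = HahnSeries.C c := by
  rw [HahnSeries.algebraMap_apply']
  exact HahnSeries.ofPowerSeries_C c

theorem t_transc (k : Type) [Field k] :
    Transcendental k (HahnSeries.single 2 1 : HahnSeries ℚ k) := by
  rw [transcendental_iff]
  intro P hP
  have h1 : ∀ i : ℕ, (aeval (HahnSeries.single 2 1 : HahnSeries ℚ k) P).coeff ((2 : ℚ) * i)
      = P.coeff i := by
    intro i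
    rw [aeval_eq_sum_range, HahnSeries.coeff_sum]
    have h2 : ∀ j : ℕ, (@HSMul.hSMul k (HahnSeries ℚ k) (HahnSeries ℚ k)
        (@instHSMul k (HahnSeries ℚ k) (HahnSeries.powerSeriesAlgebra ℚ k).toSMul) (P.coeff j)
        ((HahnSeries.single 2 1 : HahnSeries ℚ k) ^ j)).coeff
        ((2 : ℚ) * i) = if j = i then P.coeff j else 0 := by
      intro j
      rw [Algebra.smul_def, algQ, HahnSeries.C_mul_eq_smul, HahnSeries.coeff_smul,
        HahnSeries.single_pow, one_pow, HahnSeries.coeff_single]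
      by_cases hji : j = i
      · subst hji
        rw [if_pos (by rw [nsmul_eq_mul, mul_comm]), if_pos rfl, smul_eq_mul, mul_one]
      · rw [if_neg, if_neg hji, smul_zero]
        intro h3
        apply hji
        rw [nsmul_eq_mul] at h3
        have h4 : (i : ℚ) = j := by linarith
        exact_mod_cast h4.symm
    refine (Finset.sum_congr rfl (fun j _ => h2 j)).trans ?_
    rw [Finset.sum_ite_eq']
    split_ifs with h3
    · rfl
    · rw [Finset.mem_range, not_lt] at h3
      rw [Polynomial.coeff_eq_zero_of_natDegree_lt (by omega)]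
  ext i
  rw [← h1, hP, HahnSeries.coeff_zero, Polynomial.coeff_zero]

/-- GEO: the output of sections 4 - 7 for the descent (sections 8, 9).
`kap = Subfield.closure {b ^ (p - 1)}` contains the given finite set `E` and `b`. -/
theorem GEO {p : ℕ} [Fact p.Prime] {k : Type} [Field k] [Algebra (ZMod p) k] [CharP k p]
    [IsAlgClosed k] [Algebra.IsAlgebraic (ZMod p) k]
    {O : Type} [CommRing O] [IsDomain O] [Algebra k[X] O] {n : ℕ}
    (eta : Module.Basis (Fin n) k[X] O)
    {G : Type} [Group G] [Fintype G] [MulSemiringAction G O] [SMulCommClass G k[X] O]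
    (chr : CHR G O) (hinv : ∀ a : O, (∀ s : G, s • a = a) → ∃ r, a = algebraMap k[X] O r)
    {l e : ℕ} (hl : l.Prime) (hlp : l ≠ p) (he : 1 ≤ e) (hlG : ¬ l ∣ Fintype.card G)
    (E : Finset k) :
    ∃ b : k, b ≠ 0 ∧ (∀ x ∈ E, x ∈ Subfield.closure {b ^ (p - 1)}) ∧
      b ∈ Subfield.closure {b ^ (p - 1)} ∧
      ∃ (F : SRt k p (l ^ e) b⁻¹ O) (N : ℕ) (a u al : Fin N → SRt k p (l ^ e) b⁻¹ O),
        CoordIn eta (Subfield.closure {b ^ (p - 1)}) F ∧
        (∀ j, CoordIn eta (Subfield.closure {b ^ (p - 1)}) (a j) ∧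
          CoordIn eta (Subfield.closure {b ^ (p - 1)}) (u j) ∧
          CoordIn eta (Subfield.closure {b ^ (p - 1)}) (al j)) ∧
        (∀ j, a j ^ (l ^ e) = F * u j) ∧ ∑ j, al j * u j = 1 ∧
        ∀ ν : G → ℕ, (∀ g, ν g < l) → (∃ g g', ν g ≠ ν g') →
          ∀ h : SRt k p (l ^ e) b⁻¹ O, h ^ l ≠ Yn (l ^ e) b⁻¹ l F ν := by
  classical
  let f0 : k[X] →+* k[X] := pw (k := k) (l ^ e) (X : k[X])
  let fz : k[X] →+* (LaurentSeries k)[X] :=
    pw (k := k) (l ^ e) (vz p (HahnSeries.single (-2) 1 : LaurentSeries k))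
  let fP : k[X] →+* PowerSeries k[X] := (PowerSeries.C).comp f0
  let fV : k[X] →+* LaurentSeries k[X] := (HahnSeries.C).comp f0
  obtain ⟨hdomv, f', r, F, hf', hNT, hF, ⟨F0, hF0, hF0'⟩, hi⟩ := part1 (p := p) eta chr hinv hl
    hlp he hlG fP (fun _ => rfl) fV (fun _ => rfl)
  obtain ⟨F1, hF1, hF1'⟩ := hi 1 one_ne_zero (one_pow p)
  -- the field
  have hcharΩ : CharP (HahnSeries ℚ k) p :=
    charP_of_injective_algebraMap (algebraMap k (HahnSeries ℚ k)).injective p
  let t : HahnSeries ℚ k := HahnSeries.single 2 1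
  have ht0 : embQ k (HahnSeries.single (-2) 1) = t⁻¹ := t_inv k
  have htr : Transcendental k t := t_transc k
  have hO : ∀ q, mapRingHom (embQ k) (fz q) = pw (k := k) (l ^ e) (vz p t⁻¹) q := by
    intro q
    exact pw_comp (k := k) _ _ _ (mapRingHom (embQ k)) (fun c => by
      rw [Polynomial.algebraMap_apply, Polynomial.algebraMap_apply, coe_mapRingHom, map_C]
      congr 1
      rw [LaurentSeries.algebraMap_apply, embQ_C, algQ]) (by
      rw [vz, vz, map_mul, coe_mapRingHom, map_C, ht0]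
      simp) q
  have hs : ∀ q, shift (HahnSeries ℚ k) (pw (k := k) (l ^ e) (vz p t⁻¹) q)
      = pw (k := k) (l ^ e) (vz p t⁻¹) q := shift_pw _ _
  have hchi : ∀ i : k, i ^ p = i → ∀ q, chi k p i (fz q) = fV q := by
    intro i hi q
    rw [← fz_eq]
    exact chi_phV k p i hi (f0 q)
  have h1 : ∀ q, HahnSeries.ofPowerSeries ℤ (Polynomial k) (fP q) = fV q := fun q => by
    rw [RingHom.comp_apply, HahnSeries.ofPowerSeries_C]; rfl
  have h3 : ∀ q, PowerSeries.constantCoeff (fP q) = f0 q := fun q => by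
    rw [RingHom.comp_apply, PowerSeries.constantCoeff_C]
  obtain ⟨N, a, u, al, hau, hal⟩ := hF.map (S.map (mapRingHom (embQ k)) hO)
  refine SPEC eta chr hinv (l ^ e) hl.one_le E t htr (S.map (mapRingHom (embQ k)) hO F) a u al
    hau hal ?_
  intro ν hν hne h hh
  have hi0 := hchi 0 (zero_pow (Fact.out : p.Prime).ne_zero)
  have hi1 := hchi 1 (one_pow p)
  obtain ⟨b, hb⟩ := N1_core (p := p) f0 fz fP (fun _ => rfl) fV (fun _ => rfl) _ hO hs hi0 hi1 h1 h3
    F F0 F1 f' (algebraMap (Polynomial k) (S f0 O) (Polynomial.X ^ (r * (l ^ e))))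
    (hF0 h1 hi0) (hF0' h3) (hF1 h1 hi1) (hF1' h3) hl.one_le ν h hh
  rw [Xn_algebraMap, map_pow, ← pow_mul, ← pow_mul] at hb
  refine hNT ν hν hne (algebraMap k[X] (S f0 O) X ^ (r * l ^ (e - 1) * (∑ g, ν g) * (l - 1))) b
    (pow_ne_zero _ ?_) ?_
  · rw [Ne, map_eq_zero_iff _ (inj_of_basis (S.basis f0 eta))]
    exact X_ne_zero
  · rw [hb, mul_comm, ← pow_mul]
    congr 2
    obtain ⟨e', rfl⟩ : ∃ e', e = e' + 1 := ⟨e - 1, by omega⟩
    rw [Nat.add_sub_cancel, pow_succ]
    ring

end Pool.QPC
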