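import Pool.Agent.QPG.Defs
import Pool.Agent.QPC.Tab

set_option autoImplicit false

/-! # The bridge between `GD` (tables) and `S f O` -/

namespace Pool.QPC

open Pool.Agent.QPC (GD Tab)

section

variable {A R O : Type} [CommRing A] [CommRing R] [CommRing O] [Algebra R O] {n : ℕ}
  {G : Type} [Group G] [Fintype G] [DecidableEq G] [MulSemiringAction G O] [SMulCommClass G R O]

/-- the table `D` over `A` is the table of `O` in the basis `eta`, after `j : A → R` -/
structure Compat (D : GD A n G) (j : A →+* R) (eta : Module.Basis (Fin n) R O) : Prop where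
  hc : ∀ a b l, eta.repr (eta a * eta b) l = j (D.c a b l)
  he : ∀ l, eta.repr 1 l = j (D.e l)
  hact : ∀ g a l, eta.repr (g • eta a) l = j (D.act g l a)

variable {D : GD A n G} {j : A →+* R} {eta : Module.Basis (Fin n) R O}

theorem br_sum {B : Type} [CommRing B] (f : R →+* B) (x : S f O) :
    x = ∑ l, algebraMap B (S f O) ((S.basis f eta).repr x l) * S.inc f O (eta l) := by
  conv_lhs => rw [← (S.basis f eta).sum_repr x]
  refine Finset.sum_congr rfl fun l _ => ?_
  rw [Algebra.smul_def, S.basis_apply]

theorem br_repr_sum {B : Type} [CommRing B] (f : R →+* B) (c : Fin n → B) (l : Fin n) :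
    (S.basis f eta).repr (∑ a, algebraMap B (S f O) (c a) * S.inc f O (eta a)) l = c l := by
  have : ∑ a, algebraMap B (S f O) (c a) * S.inc f O (eta a)
      = ∑ a, c a • (S.basis f eta) a := by
    refine Finset.sum_congr rfl fun a _ => ?_
    rw [Algebra.smul_def, S.basis_apply]
  rw [this, Module.Basis.repr_sum_self]

/-- coordinates of a product in `S f O` -/
theorem br_repr_mul (h : Compat D j eta) {B : Type} [CommRing B] (f : R →+* B) (f' : A →+* B)
    (hf : ∀ a, f (j a) = f' a) (x y : S f O) (l : Fin n) :
    (S.basis f eta).repr (x * y) l = ∑ a, ∑ b, (S.basis f eta).repr x a *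
      (S.basis f eta).repr y b * f' (D.c a b l) := by
  conv_lhs => rw [br_sum (eta := eta) f x, br_sum (eta := eta) f y]
  rw [Finset.sum_mul_sum, map_sum, Finset.sum_apply']
  refine Finset.sum_congr rfl fun a _ => ?_
  rw [map_sum, Finset.sum_apply']
  refine Finset.sum_congr rfl fun b _ => ?_
  have : algebraMap B (S f O) ((S.basis f eta).repr x a) * S.inc f O (eta a) *
      (algebraMap B (S f O) ((S.basis f eta).repr y b) * S.inc f O (eta b))
      = algebraMap B (S f O) ((S.basis f eta).repr x a * (S.basis f eta).repr y b) *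
        S.inc f O (eta a * eta b) := by
    rw [map_mul, map_mul]; ring
  rw [this, S.basis_repr_mul_inc, h.hc, hf]

theorem br_repr_one (h : Compat D j eta) {B : Type} [CommRing B] (f : R →+* B) (f' : A →+* B)
    (hf : ∀ a, f (j a) = f' a) (l : Fin n) :
    (S.basis f eta).repr (1 : S f O) l = f' (D.e l) := by
  rw [← map_one (S.inc f O), S.basis_repr_inc, h.he, hf]

theorem br_repr_smul (h : Compat D j eta) {B : Type} [CommRing B] (f : R →+* B) (f' : A →+* B)
    (hf : ∀ a, f (j a) = f' a) (g : G) (x : S f O) (l : Fin n) :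
    (S.basis f eta).repr (g • x) l = ∑ a, f' (D.act g l a) * (S.basis f eta).repr x a := by
  conv_lhs => rw [br_sum (eta := eta) f x]
  rw [Finset.smul_sum, map_sum, Finset.sum_apply']
  refine Finset.sum_congr rfl fun a _ => ?_
  rw [smul_mul', S.smul_algebraMap, S.smul_inc, S.basis_repr_mul_inc, h.hact, hf, mul_comm]

/-- the isomorphism -/
noncomputable def bridge (h : Compat D j eta) {B : Type} [CommRing B] (f : R →+* B) (f' : A →+* B)
    (hf : ∀ a, f (j a) = f' a) : (D.map f').S ≃+* S f O where
  toFun x := ∑ l, algebraMap B (S f O) (x.co l) * S.inc f O (eta l)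
  invFun y := ⟨fun l => (S.basis f eta).repr y l⟩
  left_inv x := by
    refine Tab.ext' fun l => ?_
    exact br_repr_sum f x.co l
  right_inv y := (br_sum f y).symm
  map_add' x y := by
    rw [← Finset.sum_add_distrib]
    refine Finset.sum_congr rfl fun l _ => ?_
    rw [Tab.add_co, map_add, add_mul]
  map_mul' x y := by
    apply (S.basis f eta).repr.injective
    ext l
    rw [br_repr_sum, br_repr_mul h f f' hf]
    rw [Tab.mul_co]
    refine Finset.sum_congr rfl fun a _ => Finset.sum_congr rfl fun b _ => ?_
    rw [br_repr_sum, br_repr_sum]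
    rfl

theorem bridge_repr (h : Compat D j eta) {B : Type} [CommRing B] (f : R →+* B) (f' : A →+* B)
    (hf : ∀ a, f (j a) = f' a) (x : (D.map f').S) (l : Fin n) :
    (S.basis f eta).repr (bridge h f f' hf x) l = x.co l := br_repr_sum f x.co l

theorem bridge_algebraMap (h : Compat D j eta) {B : Type} [CommRing B] (f : R →+* B)
    (f' : A →+* B) (hf : ∀ a, f (j a) = f' a) (b : B) :
    bridge h f f' hf (algebraMap B (D.map f').S b) = algebraMap B (S f O) b := by
  apply (S.basis f eta).repr.injective
  ext l
  rw [bridge_repr, Tab.algebraMap_co, Algebra.algebraMap_eq_smul_one b, map_smul,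
    Finsupp.smul_apply, smul_eq_mul, br_repr_one h f f' hf]
  rfl

theorem bridge_ac (h : Compat D j eta) {B : Type} [CommRing B] (f : R →+* B)
    (f' : A →+* B) (hf : ∀ a, f (j a) = f' a) (g : G) (x : (D.map f').S) :
    bridge h f f' hf ((D.map f').ac g x) = g • bridge h f f' hf x := by
  apply (S.basis f eta).repr.injective
  ext l
  rw [bridge_repr, br_repr_smul h f f' hf, GD.ac_co]
  refine Finset.sum_congr rfl fun a _ => ?_
  rw [bridge_repr]
  rfl

theorem bridge_hom (h : Compat D j eta) {B B' : Type} [CommRing B] [CommRing B'] (f : R →+* B)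
    (f' : A →+* B) (hf : ∀ a, f (j a) = f' a) (g : R →+* B') (g' : A →+* B')
    (hg : ∀ a, g (j a) = g' a) (u : B →+* B') (hu : ∀ r, u (f r) = g r) (hu' : u.comp f' = g')
    (x : (D.map f').S) :
    bridge h g g' hg (D.hom f' g' u hu' x) = S.map u hu (bridge h f f' hf x) := by
  apply (S.basis g eta).repr.injective
  ext l
  rw [bridge_repr, S.map_repr, bridge_repr]
  rfl

end

end Pool.QPC
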