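import Pool.Agent.QPG.Defs

set_option autoImplicit false

open Polynomial

namespace Pool.QPC

section gen

variable {B A G : Type*} [CommRing B] [CommRing A] [Algebra B A] [Group G] [Fintype G]
  [MulSemiringAction G A] [SMulCommClass G B A]

theorem dd_dvd {K : Type*} [IsDomain B] [IsIntegrallyClosed B] [Field K]
    [Algebra B K] (hinj : Function.Injective (algebraMap B K)) {b c : B} (hb : b ≠ 0)
    (h : IsIntegral B (algebraMap B K c / algebraMap B K b)) : b ∣ c := by
  let ι : FractionRing B →+* K := IsFractionRing.lift hinj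
  have hι : ∀ a, ι (algebraMap B (FractionRing B) a) = algebraMap B K a :=
    fun a => IsFractionRing.lift_algebraMap hinj a
  have hz : ι (algebraMap B (FractionRing B) c / algebraMap B (FractionRing B) b) =
      algebraMap B K c / algebraMap B K b := by rw [map_div₀, hι, hι]
  obtain ⟨P, hP, h0⟩ := h
  have hzi : IsIntegral B (algebraMap B (FractionRing B) c / algebraMap B (FractionRing B) b) := by
    refine ⟨P, hP, ι.injective ?_⟩
    have hc : ι.comp (algebraMap B (FractionRing B)) = algebraMap B K := RingHom.ext hι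
    rw [Polynomial.hom_eval₂, map_zero, hz, hc]
    exact h0
  obtain ⟨q, hq⟩ := (isIntegrallyClosed_iff (FractionRing B)).mp inferInstance hzi
  refine ⟨q, IsFractionRing.injective B (FractionRing B) ?_⟩
  have hb' : algebraMap B (FractionRing B) b ≠ 0 := by
    intro h1
    exact hb (IsFractionRing.injective B (FractionRing B) (by rw [h1, map_zero]))
  rw [map_mul, hq, mul_div_cancel₀ _ hb']

omit [Fintype G] in
theorem dd_smul_inj (g : G) : Function.Injective (fun a : A => g • a) := by
  intro u v h
  have h1 := congrArg (fun x => g⁻¹ • x) h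
  simpa using h1

omit [Fintype G] in
theorem dd_smul_alg (g : G) (b : B) : g • (algebraMap B A b) = algebraMap B A b := by
  rw [Algebra.algebraMap_eq_smul_one, smul_comm, smul_one]

/-- normality of Galois extensions -/
theorem ic_of_chr [IsDomain B] [IsIntegrallyClosed B] [IsDomain A] [Module.Finite B A]
    (hinj : Function.Injective (algebraMap B A)) (chr : CHR G A)
    (hinv : ∀ a : A, (∀ s : G, s • a = a) → ∃ b, a = algebraMap B A b) : IsIntegrallyClosed A := by
  classical
  have hint : Algebra.IsIntegral B A := inferInstance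
  have hSK : Function.Injective (algebraMap A (FractionRing A)) := IsFractionRing.injective A (FractionRing A)
  have hBK : Function.Injective (algebraMap B (FractionRing A)) := by
    rw [IsScalarTower.algebraMap_eq B A (FractionRing A)]
    exact hSK.comp hinj
  rw [isIntegrallyClosed_iff (FractionRing A)]
  intro y hy
  have hyB : IsIntegral B y := isIntegral_trans y hy
  -- the extension of the action
  have hσ0 : ∀ g : G, Function.Injective ((algebraMap A (FractionRing A)).comp
      (MulSemiringAction.toRingHom G A g)) := fun g => hSK.comp (dd_smul_inj g)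
  let σ : G → (FractionRing A →+* FractionRing A) := fun g => IsFractionRing.lift (hσ0 g)
  have hσ : ∀ g u, σ g (algebraMap A (FractionRing A) u) = algebraMap A (FractionRing A) (g • u) :=
    fun g u => IsFractionRing.lift_algebraMap (hσ0 g) u
  have hσB : ∀ g a, σ g (algebraMap B (FractionRing A) a) = algebraMap B (FractionRing A) a := by
    intro g a
    rw [IsScalarTower.algebraMap_apply B A (FractionRing A), hσ, dd_smul_alg]
  have hσint : ∀ g z, IsIntegral B z → IsIntegral B (σ g z) := by
    rintro g z ⟨P, hP, h0⟩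
    refine ⟨P, hP, ?_⟩
    have hc : (σ g).comp (algebraMap B (FractionRing A)) = algebraMap B (FractionRing A) :=
      RingHom.ext (hσB g)
    have h1 := Polynomial.hom_eval₂ P (algebraMap B (FractionRing A)) (σ g) z
    rw [hc, h0, map_zero] at h1
    exact h1.symm
  -- common denominator in `B`
  obtain ⟨s, d, hd, hsd⟩ := IsFractionRing.div_surjective (A := A) y
  have hd0 : d ≠ 0 := nonZeroDivisors.ne_zero hd
  have hN : ∀ h : G, h • (∏ g : G, g • d) = ∏ g : G, g • d := by
    intro h
    rw [Finset.smul_prod', ← Equiv.prod_comp (Equiv.mulLeft h) (fun g => g • d)]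
    refine Finset.prod_congr rfl fun g _ => ?_
    rw [← mul_smul]; rfl
  obtain ⟨b, hb⟩ : ∃ b : B, ∏ g : G, g • d = algebraMap B A b := hinv _ hN
  have hN0 : ∏ g : G, g • d ≠ 0 := by
    rw [Finset.prod_ne_zero_iff]
    intro g _ h
    exact hd0 (dd_smul_inj g (by simpa using h))
  have hb0 : b ≠ 0 := by
    rintro rfl
    exact hN0 (by rw [hb, map_zero])
  have hsplit : ∏ g : G, g • d = d * ∏ g ∈ Finset.univ.erase (1 : G), g • d := by
    rw [← Finset.mul_prod_erase _ _ (Finset.mem_univ (1 : G)), one_smul]
  obtain ⟨s', hs'⟩ : ∃ s', s' = s * ∏ g ∈ Finset.univ.erase (1 : G), g • d := ⟨_, rfl⟩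
  have hbK : algebraMap B (FractionRing A) b ≠ 0 := by
    intro h
    exact hb0 (hBK (by rw [h, map_zero]))
  have hy' : y = algebraMap A (FractionRing A) s' / algebraMap B (FractionRing A) b := by
    have hdK : algebraMap A (FractionRing A) d ≠ 0 := by
      intro h
      exact hd0 (hSK (by rw [h, map_zero]))
    rw [← hsd, div_eq_div_iff hdK hbK, IsScalarTower.algebraMap_apply B A (FractionRing A),
      ← hb, hsplit, hs', ← map_mul, ← map_mul]
    congr 1
    ring
  -- the traces
  obtain ⟨N, X, Y, hXY1, hXY2⟩ := chr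
  have htr : ∀ a : A, ∃ c : B, ∑ g : G, g • a = algebraMap B A c := by
    intro a
    refine hinv _ fun h => ?_
    rw [Finset.smul_sum, ← Equiv.sum_comp (Equiv.mulLeft h) (fun g => g • a)]
    refine Finset.sum_congr rfl fun g _ => ?_
    rw [← mul_smul]; rfl
  choose T hT using htr
  have hdvd : ∀ t, b ∣ T (Y t * s') := by
    intro t
    apply dd_dvd hBK hb0
    have h1 : ∑ g, σ g (algebraMap A (FractionRing A) (Y t) * y) =
        algebraMap B (FractionRing A) (T (Y t * s')) / algebraMap B (FractionRing A) b := by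
      have h2 : ∀ g, σ g (algebraMap A (FractionRing A) (Y t) * y) =
          algebraMap A (FractionRing A) (g • (Y t * s')) / algebraMap B (FractionRing A) b := by
        intro g
        rw [hy', ← mul_div_assoc, ← map_mul, map_div₀, hσ, hσB]
      rw [Finset.sum_congr rfl fun g _ => h2 g, ← Finset.sum_div, ← map_sum, hT,
        ← IsScalarTower.algebraMap_apply B A (FractionRing A)]
    rw [← h1]
    refine IsIntegral.sum _ fun g _ => hσint g _ (IsIntegral.mul ?_ hyB)
    exact (Algebra.IsIntegral.isIntegral (R := B) (Y t)).algebraMap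
  choose q hq using hdvd
  refine ⟨∑ t, q t • X t, ?_⟩
  have h3 : s' = algebraMap B A b * ∑ t, q t • X t := by
    conv_lhs => rw [CHR.trace hXY1 hXY2 s']
    rw [Finset.mul_sum]
    refine Finset.sum_congr rfl fun t _ => ?_
    rw [hT, hq t, map_mul, Algebra.smul_def]
    ring
  rw [hy', h3, map_mul, ← IsScalarTower.algebraMap_apply B A (FractionRing A),
    mul_div_cancel_left₀ _ hbK]

theorem dd_of_chr [IsDomain B] [IsPrincipalIdealRing B] [IsDomain A] [Module.Finite B A]
    (hinj : Function.Injective (algebraMap B A)) (chr : CHR G A)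
    (hinv : ∀ a : A, (∀ s : G, s • a = a) → ∃ b, a = algebraMap B A b) : IsDedekindDomain A := by
  have hint : Algebra.IsIntegral B A := inferInstance
  have hic : IsIntegrallyClosed A := ic_of_chr hinj chr hinv
  rw [isDedekindDomain_iff A (FractionRing A)]
  refine ⟨inferInstance, IsNoetherianRing.of_finite B A, ⟨fun {P} hP0 hP => ?_⟩, ?_⟩
  · have h1 : P.comap (algebraMap B A) ≠ ⊥ := fun h => hP0 (Ideal.eq_bot_of_comap_eq_bot h)
    have h2 : (P.comap (algebraMap B A)).IsPrime := Ideal.comap_isPrime _ _
    exact Ideal.isMaximal_of_isIntegral_of_isMaximal_comap P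
      (Ring.DimensionLEOne.maximalOfPrime h1 h2)
  · exact (isIntegrallyClosed_iff (FractionRing A)).mp hic

end gen

section base

variable {R B O G : Type*} [CommRing R] [CommRing B] [CommRing O] [Algebra R O] [Group G] [Fintype G]
  [MulSemiringAction G O] [SMulCommClass G R O] {ι : Type*} [Fintype ι] (eta : Module.Basis ι R O)

omit [Fintype ι] in
include eta in
/-- an element of trace one -/
theorem exists_tr_one [Nonempty ι] (chr : CHR G O)
    (hinv : ∀ a : O, (∀ s : G, s • a = a) → ∃ r, a = algebraMap R O r) :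
    ∃ w : O, ∑ g : G, g • w = 1 := by
  obtain ⟨N, x, y, h1, h2⟩ := chr
  have htr : ∀ a : O, ∃ c : R, ∑ g : G, g • a = algebraMap R O c := by
    intro a
    refine hinv _ fun h => ?_
    rw [Finset.smul_sum, ← Equiv.sum_comp (Equiv.mulLeft h) (fun g => g • a)]
    refine Finset.sum_congr rfl fun g _ => ?_
    rw [← mul_smul]; rfl
  choose T hT using htr
  obtain ⟨i0⟩ := (inferInstance : Nonempty ι)
  have h3 : (1 : O) = ∑ t, x t * algebraMap R O (T (y t)) := by
    conv_lhs => rw [CHR.trace h1 h2 1]
    refine Finset.sum_congr rfl fun t _ => ?_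
    rw [mul_one, hT]
  have h4 : (1 : R) = ∑ t, T (y t) * eta.repr (eta i0 * x t) i0 := by
    have h5 : eta i0 = ∑ t, T (y t) • (eta i0 * x t) := by
      conv_lhs => rw [← mul_one (eta i0), h3, Finset.mul_sum]
      refine Finset.sum_congr rfl fun t _ => ?_
      rw [Algebra.smul_def]; ring
    have h6 := congrArg (fun z => eta.repr z i0) h5
    simp only [Module.Basis.repr_self, Finsupp.single_eq_same, map_sum, map_smul] at h6
    rw [h6, Finset.sum_apply']
    rfl
  refine ⟨∑ t, eta.repr (eta i0 * x t) i0 • y t, ?_⟩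
  have h7 : ∀ g : G, g • (∑ t, eta.repr (eta i0 * x t) i0 • y t) =
      ∑ t, eta.repr (eta i0 * x t) i0 • (g • y t) := by
    intro g
    rw [Finset.smul_sum]
    refine Finset.sum_congr rfl fun t _ => ?_
    rw [smul_comm]
  rw [Finset.sum_congr rfl fun g _ => h7 g, Finset.sum_comm]
  have h8 : ∀ t, ∑ g : G, eta.repr (eta i0 * x t) i0 • (g • y t) =
      algebraMap R O (T (y t) * eta.repr (eta i0 * x t) i0) := by
    intro t
    rw [← Finset.smul_sum, hT, Algebra.smul_def, ← map_mul, mul_comm]
  rw [Finset.sum_congr rfl fun t _ => h8 t, ← map_sum, ← h4, map_one]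

/-- invariants of the base change -/
theorem S_inv {w : O} (hw : ∑ g : G, g • w = 1)
    (hinv : ∀ a : O, (∀ s : G, s • a = a) → ∃ r, a = algebraMap R O r) (f : R →+* B) (x : S f O)
    (hx : ∀ s : G, s • x = x) : ∃ b, x = algebraMap B (S f O) b := by
  have h1 : ∀ y : S f O, ∃ b, ∑ g : G, g • y = algebraMap B (S f O) b := by
    intro y
    refine S.induction_on f (P := fun y => ∃ b, ∑ g : G, g • y = algebraMap B (S f O) b) y ?_ ?_
    · intro b a
      obtain ⟨c, hc⟩ : ∃ c : R, ∑ g : G, g • a = algebraMap R O c := by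
        refine hinv _ fun h => ?_
        rw [Finset.smul_sum, ← Equiv.sum_comp (Equiv.mulLeft h) (fun g => g • a)]
        refine Finset.sum_congr rfl fun g _ => ?_
        rw [← mul_smul]; rfl
      refine ⟨b * f c, ?_⟩
      have h2 : ∀ g : G, g • (algebraMap B (S f O) b * S.inc f O a) =
          algebraMap B (S f O) b * S.inc f O (g • a) := by
        intro g
        rw [smul_mul', S.smul_algebraMap, S.smul_inc]
      rw [Finset.sum_congr rfl fun g _ => h2 g, ← Finset.mul_sum, ← map_sum, hc, S.inc_algebraMap,
        ← map_mul]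
    · rintro y z ⟨b, hb⟩ ⟨c, hc⟩
      refine ⟨b + c, ?_⟩
      have : ∀ g : G, g • (y + z) = g • y + g • z := fun g => smul_add g y z
      rw [Finset.sum_congr rfl fun g _ => this g, Finset.sum_add_distrib, hb, hc, map_add]
  obtain ⟨b, hb⟩ := h1 (x * S.inc f O w)
  refine ⟨b, ?_⟩
  rw [← hb]
  have h3 : ∀ g : G, g • (x * S.inc f O w) = x * S.inc f O (g • w) := by
    intro g
    rw [smul_mul', hx, S.smul_inc]
  rw [Finset.sum_congr rfl fun g _ => h3 g, ← Finset.mul_sum, ← map_sum, hw, map_one, mul_one]

include eta in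
/-- The Dedekind property of `S f O`. -/
theorem isDedekind_fz (chr : CHR G O)
    (hinv : ∀ a : O, (∀ s : G, s • a = a) → ∃ r, a = algebraMap R O r)
    (f : R →+* B) [IsDomain B] [IsPrincipalIdealRing B] [IsDomain (S f O)] :
    IsDedekindDomain (S f O) := by
  have hne : Nonempty ι := by
    by_contra h
    rw [not_nonempty_iff] at h
    have h1 : Subsingleton (S f O) := (S.basis f eta).repr.toEquiv.subsingleton
    exact not_subsingleton (S f O) h1
  have hfin : Module.Finite B (S f O) := Module.Finite.of_basis (S.basis f eta)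
  obtain ⟨w, hw⟩ := exists_tr_one eta chr hinv
  refine dd_of_chr (G := G) (B := B) (A := S f O) ?_ (chr.baseChange f) (fun a ha => S_inv hw hinv f a ha)
  obtain ⟨i0⟩ := hne
  rw [injective_iff_map_eq_zero]
  intro b hb
  have h1 : b • S.basis f eta i0 = 0 := by rw [Algebra.smul_def, hb, zero_mul]
  have h2 := congrArg (fun z => (S.basis f eta).repr z i0) h1
  simpa using h2

end base

end Pool.QPC
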