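import Pool.Agent.QPG.Z0

set_option autoImplicit false

open Polynomial

namespace Pool.QPC

/-- A basis of `O` over `k[X]` in which `1` has constant coordinates. -/
theorem exists_basis_one {k O G : Type} [Field k] [CommRing O] [IsDomain O] [Algebra k[X] O]
    {n : ℕ} (eta : Module.Basis (Fin n) k[X] O) [Group G] [MulSemiringAction G O]
    [SMulCommClass G k[X] O]
    (hinv : ∀ a : O, (∀ s : G, s • a = a) → ∃ r, a = algebraMap k[X] O r) :
    ∃ (eta' : Module.Basis (Fin n) k[X] O) (c : Fin n → k), ∀ i, eta'.repr 1 i = C (c i) := by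
  classical
  have hinj := inj_of_basis eta
  obtain ⟨n', snf⟩ := Submodule.smithNormalForm eta (Submodule.span k[X] {(1 : O)})
  have h1mem : (1 : O) ∈ Submodule.span k[X] {(1 : O)} := Submodule.mem_span_singleton_self 1
  have hn' : Nonempty (Fin n') := by
    by_contra h
    rw [not_nonempty_iff] at h
    have h2 : (⟨1, h1mem⟩ : Submodule.span k[X] {(1 : O)}) = 0 := by
      apply snf.bN.repr.injective
      ext i
      exact (h.false i).elim
    have h3 : (1 : O) = 0 := congrArg Subtype.val h2
    exact one_ne_zero h3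
  obtain ⟨i0⟩ := hn'
  have h4 : (snf.bN i0 : O) ∈ Submodule.span k[X] {(1 : O)} := (snf.bN i0).2
  obtain ⟨r0, hr0⟩ := Submodule.mem_span_singleton.mp h4
  have hsnf := snf.snf i0
  have hr0ne : r0 ≠ 0 := by
    rintro rfl
    rw [zero_smul] at hr0
    exact snf.bN.ne_zero i0 (Subtype.ext hr0.symm)
  set j := snf.f i0 with hj
  have hcoord : ∀ i, i ≠ j → snf.bM.repr 1 i = 0 := by
    intro i hi
    have h5 : r0 • (1 : O) = snf.a i0 • snf.bM j := by rw [hr0, hsnf]
    have h6 := congrArg (fun x => snf.bM.repr x i) h5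
    simp only [map_smul, Finsupp.smul_apply, Module.Basis.repr_self, smul_eq_mul] at h6
    rw [Finsupp.single_eq_of_ne hi, mul_zero] at h6
    exact (mul_eq_zero.mp h6).resolve_left hr0ne
  have h7 : (1 : O) = snf.bM.repr 1 j • snf.bM j := by
    conv_lhs => rw [← snf.bM.sum_repr 1]
    rw [Finset.sum_eq_single j]
    · intro i _ hi
      rw [hcoord i hi, zero_smul]
    · intro h
      exact absurd (Finset.mem_univ _) h
  have hw : snf.bM.repr 1 j ≠ 0 := by
    intro h
    rw [h, zero_smul] at h7
    exact one_ne_zero h7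
  obtain ⟨r, hr⟩ := hinv (snf.bM j) (by
    intro s
    have h8 : algebraMap k[X] O (snf.bM.repr 1 j) * (s • snf.bM j)
        = algebraMap k[X] O (snf.bM.repr 1 j) * snf.bM j := by
      rw [← Algebra.smul_def, ← Algebra.smul_def, ← smul_comm, ← h7, smul_one]
    exact mul_left_cancel₀ (by rwa [Ne, map_eq_zero_iff _ hinj]) h8)
  have h9 : snf.bM.repr 1 j * r = 1 := by
    apply hinj
    rw [map_mul, ← hr, ← Algebra.smul_def, ← h7, map_one]
  obtain ⟨c, -, hc⟩ := Polynomial.isUnit_iff.mp (IsUnit.of_mul_eq_one r h9)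
  refine ⟨snf.bM, fun i => if i = j then c else 0, fun i => ?_⟩
  change snf.bM.repr 1 i = C (if i = j then c else 0)
  by_cases hi : i = j
  · rw [if_pos hi, hi, hc]
  · rw [if_neg hi, hcoord i hi, C_0]

end Pool.QPC
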