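import Pool.Agent.QPG.B1

set_option autoImplicit false

open Polynomial

namespace Pool.QPC

open Pool.Agent.QPC (GD Tab)

/-- descent of a table along an injective ring hom whose range contains all the entries -/
theorem h1b_lift {A0 A G : Type} [CommRing A0] [CommRing A] {n : ℕ} [Group G] [Fintype G]
    [DecidableEq G] (φ : A0 →+* A) (hφ : Function.Injective φ) (D : GD A n G)
    (hc : ∀ a b l, ∃ z, φ z = D.c a b l) (he : ∀ l, ∃ z, φ z = D.e l)
    (hact : ∀ g i j, ∃ z, φ z = D.act g i j)
    (hx : ∀ t i, ∃ z, φ z = D.x t i) (hy : ∀ t i, ∃ z, φ z = D.y t i)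
    (ht : ∀ i, ∃ z, φ z = D.t i) (hw : ∀ i, ∃ z, φ z = D.w i) :
    ∃ D0 : GD A0 n G, (∀ a b l, D.c a b l = φ (D0.c a b l)) ∧ (∀ l, D.e l = φ (D0.e l)) ∧
      (∀ g l a, D.act g l a = φ (D0.act g l a)) := by
  choose c hc using hc
  choose e he using he
  choose act hact using hact
  choose x hx using hx
  choose y hy using hy
  choose t ht using ht
  choose w hw using hw
  refine ⟨{ c := c, e := e, comm := ?_, assoc := ?_, one_mul := ?_, act := act, act_one := ?_,
            act_mul := ?_, act_e := ?_, act_c := ?_, r := D.r, x := x, y := y, chr := ?_, t := t,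
            ht := ?_, w := w, tr := ?_ }, fun a b l => (hc a b l).symm, fun l => (he l).symm,
            fun g l a => (hact g l a).symm⟩
  · intro i j l
    apply hφ
    rw [hc, hc, D.comm]
  · intro i j k m
    apply hφ
    simp only [map_sum, map_mul, hc]
    exact D.assoc i j k m
  · intro j l
    apply hφ
    simp only [map_sum, map_mul, hc, he]
    rw [D.one_mul]
    split_ifs <;> simp
  · intro i j
    apply hφ
    rw [hact, D.act_one]
    split_ifs <;> simp
  · intro g h i j
    apply hφ
    simp only [map_sum, map_mul, hact]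
    exact D.act_mul g h i j
  · intro g i
    apply hφ
    simp only [map_sum, map_mul, hact, he]
    exact D.act_e g i
  · intro g i j m
    apply hφ
    simp only [map_sum, map_mul, hact, hc]
    exact D.act_c g i j m
  · intro g m
    apply hφ
    simp only [map_sum, map_mul, hact, hc, hx, hy]
    rw [D.chr g m]
    split_ifs
    · rw [he]
    · rw [map_zero]
  · intro l j
    apply hφ
    simp only [map_sum, map_mul, hact, ht, he]
    exact D.ht l j
  · apply hφ
    simp only [map_sum, map_mul, ht, hw, map_one]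
    exact D.tr

/-- a finite set of polynomials over an algebraic extension of `ZMod p` is defined over a
finite subfield, which may be taken to contain a given finite set -/
theorem h1b_field {p : ℕ} [Fact p.Prime] {k : Type} [Field k] [Algebra (ZMod p) k]
    [Algebra.IsAlgebraic (ZMod p) k] (E : Finset k) (Q : Set k[X]) (hQ : Q.Finite) :
    ∃ (k0 : Subfield k), Finite k0 ∧ (∀ x ∈ E, x ∈ k0) ∧
      ∀ q ∈ Q, ∃ z : k0[X], mapRingHom k0.subtype z = q := by
  classical
  let S : Set k := (E : Set k) ∪ ⋃ q ∈ Q, (q.coeffs : Set k)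
  have hS : S.Finite := (Finset.finite_toSet E).union
    (hQ.biUnion fun q _ => Finset.finite_toSet q.coeffs)
  have hfS : Finite S := hS
  have hfd : FiniteDimensional (ZMod p) (IntermediateField.adjoin (ZMod p) S) :=
    IntermediateField.finiteDimensional_adjoin fun x _ =>
      (Algebra.IsAlgebraic.isAlgebraic x).isIntegral
  have hfin : Finite (IntermediateField.adjoin (ZMod p) S) :=
    Module.finite_of_finite (ZMod p)
  have hsub : ∀ x ∈ S, x ∈ (IntermediateField.adjoin (ZMod p) S).toSubfield := fun x hx =>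
    IntermediateField.subset_adjoin (ZMod p) S hx
  refine ⟨(IntermediateField.adjoin (ZMod p) S).toSubfield, hfin, fun x hx =>
    hsub x (Or.inl hx), fun q hq => ?_⟩
  have h1 : q ∈ lifts (IntermediateField.adjoin (ZMod p) S).toSubfield.subtype := by
    rw [lifts_iff_coeff_lifts]
    intro m
    by_cases h0 : q.coeff m = 0
    · exact ⟨0, by rw [map_zero, h0]⟩
    · exact ⟨⟨q.coeff m, hsub _ (Or.inr (Set.mem_biUnion hq (coeff_mem_coeffs h0)))⟩, rfl⟩
  obtain ⟨z, hz⟩ := (mem_lifts q).1 h1
  exact ⟨z, by rw [coe_mapRingHom]; exact hz⟩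

/-- [QPG-H1b] Descent of a table to a finite field.
PROOF. The polynomials `D.c a b l`, `D.e l`, `D.act g i j`, `D.x t i`, `D.y t i`, `D.t i`, `D.w i`
are finitely many, so finitely many coefficients; `k` is algebraic over `ZMod p`, so the subfield
`k0` generated by these coefficients and by `E` is finite (finitely many algebraic elements:
`IntermediateField.adjoin` is finite dimensional over `ZMod p`, hence finite; take
`k0 := (IntermediateField.adjoin (ZMod p) S).toSubfield`). A polynomial with all coefficients in `k0`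
is `Polynomial.map k0.subtype` of a unique polynomial (`Polynomial.mem_lifts`, `Polynomial.lifts`,
`Polynomial.toSubring`/`Polynomial.map_injective`). Choose the lifts; all the equations of `GD` hold
because they hold after the injective ring hom `mapRingHom k0.subtype`. -/
theorem GD.descend {p : ℕ} [Fact p.Prime] {k G : Type} [Field k] [Algebra (ZMod p) k]
    [Algebra.IsAlgebraic (ZMod p) k] {n : ℕ} [Group G] [Fintype G] [DecidableEq G]
    (D : GD k[X] n G) (E : Finset k) :
    ∃ (k0 : Subfield k), Finite k0 ∧ (∀ x ∈ E, x ∈ k0) ∧ ∃ D0 : GD k0[X] n G,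
      (∀ a b l, D.c a b l = (D0.c a b l).map k0.subtype) ∧
      (∀ l, D.e l = (D0.e l).map k0.subtype) ∧
      (∀ g l a, D.act g l a = (D0.act g l a).map k0.subtype) := by
  classical
  let Q1 : Set k[X] := Set.range fun a : Fin n × Fin n × Fin n => D.c a.1 a.2.1 a.2.2
  let Q2 : Set k[X] := Set.range D.e
  let Q3 : Set k[X] := Set.range fun a : G × Fin n × Fin n => D.act a.1 a.2.1 a.2.2
  let Q4 : Set k[X] := Set.range fun a : Fin D.r × Fin n => D.x a.1 a.2
  let Q5 : Set k[X] := Set.range fun a : Fin D.r × Fin n => D.y a.1 a.2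
  let Q6 : Set k[X] := Set.range D.t
  let Q7 : Set k[X] := Set.range D.w
  have hfin : (Q1 ∪ (Q2 ∪ (Q3 ∪ (Q4 ∪ (Q5 ∪ (Q6 ∪ Q7)))))).Finite :=
    (Set.finite_range _).union ((Set.finite_range _).union ((Set.finite_range _).union
      ((Set.finite_range _).union ((Set.finite_range _).union
        ((Set.finite_range _).union (Set.finite_range _))))))
  obtain ⟨k0, h0, hE, hq⟩ := h1b_field (p := p) E _ hfin
  refine ⟨k0, h0, hE, ?_⟩
  have hinj : Function.Injective (mapRingHom k0.subtype) := by
    rw [coe_mapRingHom]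
    exact map_injective _ k0.subtype_injective
  exact h1b_lift (mapRingHom k0.subtype) hinj D
    (fun a b l => hq _ (Or.inl ⟨(a, b, l), rfl⟩))
    (fun l => hq _ (Or.inr (Or.inl ⟨l, rfl⟩)))
    (fun g i j => hq _ (Or.inr (Or.inr (Or.inl ⟨(g, i, j), rfl⟩))))
    (fun t i => hq _ (Or.inr (Or.inr (Or.inr (Or.inl ⟨(t, i), rfl⟩)))))
    (fun t i => hq _ (Or.inr (Or.inr (Or.inr (Or.inr (Or.inl ⟨(t, i), rfl⟩))))))
    (fun i => hq _ (Or.inr (Or.inr (Or.inr (Or.inr (Or.inr (Or.inl ⟨i, rfl⟩)))))))
    (fun i => hq _ (Or.inr (Or.inr (Or.inr (Or.inr (Or.inr (Or.inr ⟨i, rfl⟩)))))))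

end Pool.QPC
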