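import Pool.Agent.QPG.H1a
import Pool.Agent.QPG.H1b

set_option autoImplicit false

open Polynomial

namespace Pool.QPC

open Pool.Agent.QPC (GD Tab)

/-- [QPG-H1] Both together. -/
theorem exists_GD_finite {p : ℕ} [Fact p.Prime] {k O G : Type} [Field k] [Algebra (ZMod p) k]
    [Algebra.IsAlgebraic (ZMod p) k] [CommRing O] [Algebra k[X] O] {n : ℕ}
    (eta : Module.Basis (Fin n) k[X] O) [Group G] [Fintype G] [DecidableEq G]
    [MulSemiringAction G O] [SMulCommClass G k[X] O]
    (hinj : Function.Injective (algebraMap k[X] O))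
    (chr : CHR G O) (hinv : ∀ a : O, (∀ s : G, s • a = a) → ∃ r, a = algebraMap k[X] O r)
    (E : Finset k) :
    ∃ (k0 : Subfield k), Finite k0 ∧ (∀ x ∈ E, x ∈ k0) ∧ ∃ D0 : GD k0[X] n G,
      Compat D0 (mapRingHom k0.subtype) eta := by
  obtain ⟨D, hD⟩ := exists_GD eta hinj chr hinv
  obtain ⟨k0, h1, h2, D0, h3, h4, h5⟩ := GD.descend (p := p) D E
  exact ⟨k0, h1, h2, D0, fun a b l => (hD.hc a b l).trans (h3 a b l),
    fun l => (hD.he l).trans (h4 l), fun g a l => (hD.hact g a l).trans (h5 g l a)⟩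

end Pool.QPC
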