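import Pool.Agent.QPG.B1

set_option autoImplicit false

open Polynomial

namespace Pool.QPC

open Pool.Agent.QPC (GD Tab)

section

variable {R O : Type} [CommRing R] [CommRing O] [Algebra R O] {n : ℕ}
  (eta : Module.Basis (Fin n) R O)

theorem h1a_sum {ι : Type} (s : Finset ι) (u : ι → O) (l : Fin n) :
    eta.repr (∑ i ∈ s, u i) l = ∑ i ∈ s, eta.repr (u i) l := by
  rw [map_sum, Finset.sum_apply']

theorem h1a_smul_co (r : R) (u : O) (l : Fin n) : eta.repr (r • u) l = r * eta.repr u l := by
  rw [map_smul, Finsupp.smul_apply, smul_eq_mul]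

theorem h1a_self (j l : Fin n) : eta.repr (eta j) l = if j = l then 1 else 0 := by
  rw [eta.repr_self, Finsupp.single_apply]

theorem h1a_mul (u v : O) (m : Fin n) : eta.repr (u * v) m =
    ∑ i, ∑ j, eta.repr u i * eta.repr v j * eta.repr (eta i * eta j) m := by
  conv_lhs => rw [← eta.sum_repr u, ← eta.sum_repr v]
  rw [Finset.sum_mul_sum, h1a_sum]
  refine Finset.sum_congr rfl fun i _ => ?_
  rw [h1a_sum]
  refine Finset.sum_congr rfl fun j _ => ?_
  rw [smul_mul_smul_comm, h1a_smul_co]

theorem h1a_act {G : Type} [Group G] [MulSemiringAction G O] [SMulCommClass G R O] (g : G)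
    (u : O) (l : Fin n) : eta.repr (g • u) l = ∑ a, eta.repr (g • eta a) l * eta.repr u a := by
  conv_lhs => rw [← eta.sum_repr u]
  rw [Finset.smul_sum, h1a_sum]
  refine Finset.sum_congr rfl fun a _ => ?_
  rw [smul_comm, h1a_smul_co, mul_comm]

end

/-- [QPG-H1a] The Galois data (table) of `O` in the basis `eta`.
PROOF. All fields of `GD` are coordinates (`eta.repr`), `act g l a := eta.repr (g • eta a) l`,
`c a b l := eta.repr (eta a * eta b) l`, `e := eta.repr 1`. Equations: compare coordinates of
`mul_comm`, `mul_assoc`, `one_mul`, `one_smul`, `mul_smul`, `smul_one`, `smul_mul'`, CHR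
(`chr` gives `x, y : Fin N → O`; `r := N`; for `g = 1` the sum is `∑ x_t * y_t = 1`).
`t a` := the element with `∑ g, g • eta a = algebraMap (t a)` (`hinv`, the sum is invariant), so
`∑ g, act g l a = eta.repr (algebraMap (t a)) l = t a * e l`.
Element `w` of trace one: let `i0 : Fin n` (if `n = 0` then `O` is trivial; then `R` has `0 = 1`
because `algebraMap` is injective; all equations are trivial - `n = 0` is excluded by `[Nontrivial R]`
and `hinj`). `Tr (y_t) = algebraMap r_t`. `1 = ∑ x_t Tr(y_t * 1)` (`CHR.trace`), so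
`eta i0 = ∑ r_t • (eta i0 * x_t)` and, coordinate `i0`: `1 = ∑ r_t * c_t`,
`c_t := eta.repr (eta i0 * x_t) i0`. `w := coordinates of ∑ c_t • y_t`: its trace is `∑ c_t r_t = 1`.
Then `∑ j, t j * w j = 1` since `algebraMap (∑ t j * w j) = Tr (∑ w j • eta j) = 1` and `hinj`. -/
theorem exists_GD {R O G : Type} [CommRing R] [Nontrivial R] [CommRing O] [Algebra R O] {n : ℕ}
    (eta : Module.Basis (Fin n) R O) [Group G] [Fintype G] [DecidableEq G]
    [MulSemiringAction G O] [SMulCommClass G R O] (hinj : Function.Injective (algebraMap R O))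
    (chr : CHR G O) (hinv : ∀ a : O, (∀ s : G, s • a = a) → ∃ r, a = algebraMap R O r) :
    ∃ D : GD R n G, Compat D (RingHom.id R) eta := by
  obtain ⟨N, xx, yy, h1, h2⟩ := chr
  -- the trace
  have hTr : ∀ u : O, ∃ r, ∑ g : G, g • u = algebraMap R O r := by
    intro u
    apply hinv
    intro s
    rw [Finset.smul_sum, ← Equiv.sum_comp (Equiv.mulLeft s) (fun g => g • u)]
    exact Finset.sum_congr rfl fun g _ => (mul_smul s g u).symm
  choose tr htr using hTr
  have h1' : ∀ g : G, ∑ t, xx t * g • yy t = if g = 1 then 1 else 0 := by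
    intro g
    split_ifs with hg
    · rw [← h1, hg]
      exact Finset.sum_congr rfl fun t _ => by rw [one_smul]
    · exact h2 g hg
  -- an index
  have hn : Nonempty (Fin n) := by
    by_contra hne
    rw [not_nonempty_iff] at hne
    have h3 : ∀ u v : O, u = v := by
      intro u v
      apply eta.repr.injective
      ext l
      exact hne.elim l
    exact zero_ne_one (hinj (h3 (algebraMap R O 0) (algebraMap R O 1)))
  obtain ⟨i0⟩ := hn
  -- the element of trace one
  have hw : ∃ w : O, ∑ g : G, g • w = 1 := by
    refine ⟨∑ t, eta.repr (eta i0 * xx t) i0 • yy t, ?_⟩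
    have h3 : ∑ t, tr (yy t) • (eta i0 * xx t) = eta i0 := by
      have h4 := CHR.trace (G := G) h1 h2 1
      simp only [mul_one, htr] at h4
      calc ∑ t, tr (yy t) • (eta i0 * xx t)
          = eta i0 * ∑ t, xx t * algebraMap R O (tr (yy t)) := by
            rw [Finset.mul_sum]
            refine Finset.sum_congr rfl fun t _ => ?_
            rw [Algebra.smul_def]; ring
        _ = eta i0 := by rw [← h4, mul_one]
    have h5 : ∑ t, tr (yy t) * eta.repr (eta i0 * xx t) i0 = 1 := by
      have h6 := congrArg (fun u => eta.repr u i0) h3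
      simp only [h1a_sum, h1a_smul_co, h1a_self, if_true] at h6
      exact h6
    have h7 : ∀ g : G, g • ∑ t, eta.repr (eta i0 * xx t) i0 • yy t =
        ∑ t, eta.repr (eta i0 * xx t) i0 • g • yy t := by
      intro g
      rw [Finset.smul_sum]
      exact Finset.sum_congr rfl fun t _ => smul_comm _ _ _
    rw [Finset.sum_congr rfl fun g _ => h7 g, Finset.sum_comm]
    simp only [← Finset.smul_sum, htr]
    rw [← map_one (algebraMap R O), ← h5, map_sum]
    refine Finset.sum_congr rfl fun t _ => ?_
    rw [Algebra.smul_def, mul_comm, ← (algebraMap R O).map_mul]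
  obtain ⟨w, hw⟩ := hw
  refine ⟨{
      c := fun a b l => eta.repr (eta a * eta b) l
      e := fun l => eta.repr 1 l
      comm := fun i j l => by rw [mul_comm]
      assoc := fun i j k m => ?_
      one_mul := fun j l => ?_
      act := fun g l a => eta.repr (g • eta a) l
      act_one := fun i j => ?_
      act_mul := fun g h i j => ?_
      act_e := fun g i => ?_
      act_c := fun g i j m => ?_
      r := N
      x := fun t a => eta.repr (xx t) a
      y := fun t a => eta.repr (yy t) a
      chr := fun g m => ?_
      t := fun a => tr (eta a)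
      ht := fun l j => ?_
      w := fun a => eta.repr w a
      tr := ?_ }, ⟨fun _ _ _ => rfl, fun _ => rfl, fun _ _ _ => rfl⟩⟩
  · -- assoc
    have h3 : eta.repr (eta i * eta j * eta k) m =
        ∑ l, eta.repr (eta i * eta j) l * eta.repr (eta l * eta k) m := by
      rw [h1a_mul]
      refine Finset.sum_congr rfl fun l _ => ?_
      rw [Finset.sum_eq_single k]
      · rw [h1a_self, if_pos rfl, mul_one]
      · intro b _ hb
        rw [h1a_self, if_neg (Ne.symm hb), mul_zero, zero_mul]
      · intro h; exact absurd (Finset.mem_univ _) h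
    have h4 : eta.repr (eta i * (eta j * eta k)) m =
        ∑ l, eta.repr (eta j * eta k) l * eta.repr (eta i * eta l) m := by
      rw [h1a_mul, Finset.sum_comm]
      refine Finset.sum_congr rfl fun l _ => ?_
      rw [Finset.sum_eq_single i]
      · rw [h1a_self, if_pos rfl, one_mul]
      · intro b _ hb
        rw [h1a_self, if_neg (Ne.symm hb), zero_mul, zero_mul]
      · intro h; exact absurd (Finset.mem_univ _) h
    rw [← h3, ← h4, mul_assoc]
  · -- one_mul
    have h3 := h1a_mul eta 1 (eta j) l
    rw [one_mul, h1a_self] at h3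
    rw [h3]
    refine Finset.sum_congr rfl fun i _ => ?_
    rw [Finset.sum_eq_single j]
    · rw [h1a_self, if_pos rfl, mul_one]
    · intro b _ hb
      rw [h1a_self, if_neg (Ne.symm hb), mul_zero, zero_mul]
    · intro h; exact absurd (Finset.mem_univ _) h
  · -- act_one
    rw [one_smul, h1a_self]
    simp only [eq_comm]
  · -- act_mul
    rw [mul_smul, h1a_act]
  · -- act_e
    rw [← h1a_act, smul_one]
  · -- act_c
    rw [← h1a_act, smul_mul', h1a_mul]
  · -- chr
    have h3 : ∀ t : Fin N, ∑ a, ∑ b, eta.repr (xx t) a *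
        (∑ j, eta.repr (g • eta j) b * eta.repr (yy t) j) * eta.repr (eta a * eta b) m =
        eta.repr (xx t * g • yy t) m := by
      intro t
      rw [h1a_mul]
      refine Finset.sum_congr rfl fun a _ => Finset.sum_congr rfl fun b _ => ?_
      rw [← h1a_act]
    rw [Finset.sum_congr rfl fun t _ => h3 t, ← h1a_sum, h1']
    split_ifs <;> simp
  · -- ht
    rw [← h1a_sum, htr, Algebra.algebraMap_eq_smul_one, h1a_smul_co]
  · -- tr
    apply hinj
    rw [map_one, map_sum, ← hw]
    have h3 : ∀ g : G, g • w = ∑ a, eta.repr w a • g • eta a := by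
      intro g
      conv_lhs => rw [← eta.sum_repr w]
      rw [Finset.smul_sum]
      exact Finset.sum_congr rfl fun a _ => smul_comm _ _ _
    rw [Finset.sum_congr rfl fun g _ => h3 g, Finset.sum_comm]
    refine Finset.sum_congr rfl fun a _ => ?_
    rw [← Finset.smul_sum, htr, Algebra.smul_def, map_mul, mul_comm]

end Pool.QPC
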