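import Pool.Agent.QPG.H1
import Pool.Agent.QPC.G1

set_option autoImplicit false

open Polynomial

namespace Pool.QPC

open Pool.Agent.QPC (GD Tab)

theorem h2_pow {A : Type} [CommRing A] [IsDedekindDomain A] (hfin : Finite (ClassGroup A))
    (I : Ideal A) (hI : I ≠ ⊥) : ∃ h : ℕ, 0 < h ∧ ∃ f, I ^ h = Ideal.span {f} := by
  classical
  have : Fintype (ClassGroup A) := Fintype.ofFinite _
  have h1 : (ClassGroup.mk0 (⟨I, mem_nonZeroDivisors_iff_ne_zero.mpr hI⟩ :
      nonZeroDivisors (Ideal A))) ^ Fintype.card (ClassGroup A) = 1 := pow_card_eq_one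
  rw [← map_pow] at h1
  have key : ∀ J : nonZeroDivisors (Ideal A), ClassGroup.mk0 J = 1 →
      (J : Ideal A).IsPrincipal := fun ⟨_, hJ⟩ h => (ClassGroup.mk0_eq_one_iff hJ).1 h
  obtain ⟨f, hf⟩ := key _ h1
  exact ⟨Fintype.card (ClassGroup A), Fintype.card_pos, f, hf⟩

/-- [QPG-H2a] The class number theorem for a table over `k0[X]`, `k0` a finite field.
PROOF. `D.S` is a Dedekind domain by `Pool.Agent.QPC.G1b` (row QPC-G1, import), with the basis
`D.toTab.basis` over `k0[X]`. `ClassGroup.fintypeOfAdmissibleOfAlgebraic (bS := D.toTab.basis)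
Polynomial.cardPowDegreeIsAdmissible` (Mathlib.NumberTheory.ClassNumber.Finite; needs
`Algebra.IsAlgebraic k0[X] D.S`, true because `D.S` is a finite module) gives
`Fintype (ClassGroup D.S)`. For an ideal `I ≠ ⊥` the class of `I` has finite order `h`
(`ClassGroup.mk0`, `pow_card_eq_one`), and `ClassGroup.mk0_eq_one_iff` gives `I ^ h` principal. -/
theorem torsion_finite {k0 G : Type} [Field k0] [Finite k0] {n : ℕ} [Group G] [Fintype G]
    [DecidableEq G] (D : GD k0[X] n G) [IsDomain D.S] (I : Ideal D.S) (hI : I ≠ ⊥) :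
    ∃ h : ℕ, 0 < h ∧ ∃ f, I ^ h = Ideal.span {f} := by
  classical
  have : Fintype k0 := Fintype.ofFinite k0
  have : IsDedekindDomain D.S := Pool.Agent.QPC.G1b D
  have : Module.Finite k0[X] D.S := Module.Finite.of_basis D.toTab.basis
  have : Algebra.IsAlgebraic k0[X] D.S := inferInstance
  exact h2_pow (@Finite.of_fintype _ (ClassGroup.fintypeOfAdmissibleOfAlgebraic
    (bS := D.toTab.basis) Polynomial.cardPowDegreeIsAdmissible)) I hI

section

variable {A R O G : Type} [CommRing A] [CommRing R] [CommRing O] [Algebra R O] {n : ℕ}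
  [Group G] [Fintype G] [DecidableEq G] [MulSemiringAction G O] [SMulCommClass G R O]
  {D : GD A n G} {j : A →+* R} {eta : Module.Basis (Fin n) R O}

theorem h2_repr_sum (c : Fin n → R) (l : Fin n) :
    eta.repr (∑ a, algebraMap R O (c a) * eta a) l = c l := by
  have : ∑ a, algebraMap R O (c a) * eta a = ∑ a, c a • eta a := by
    refine Finset.sum_congr rfl fun a _ => ?_
    rw [Algebra.smul_def]
  rw [this, Module.Basis.repr_sum_self]

omit [SMulCommClass G R O] in
theorem h2_repr_mul (h : Compat D j eta) (x y : O) (l : Fin n) :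
    eta.repr (x * y) l = ∑ a, ∑ b, eta.repr x a * eta.repr y b * j (D.c a b l) := by
  conv_lhs => rw [← eta.sum_repr x, ← eta.sum_repr y]
  rw [Finset.sum_mul_sum, map_sum, Finset.sum_apply']
  refine Finset.sum_congr rfl fun a _ => ?_
  rw [map_sum, Finset.sum_apply']
  refine Finset.sum_congr rfl fun b _ => ?_
  rw [smul_mul_smul_comm, map_smul, Finsupp.smul_apply, smul_eq_mul, h.hc]

/-- the ring hom from the table algebra -/
noncomputable def h2_phi (h : Compat D j eta) : D.S →+* O where
  toFun x := ∑ l, algebraMap R O (j (x.co l)) * eta l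
  map_one' := by
    apply eta.repr.injective
    ext l
    rw [h2_repr_sum (fun a => j ((1 : D.S).co a)), h.he]
    rfl
  map_zero' := by
    refine Finset.sum_eq_zero fun l _ => ?_
    rw [Tab.zero_co, map_zero, map_zero, zero_mul]
  map_add' x y := by
    rw [← Finset.sum_add_distrib]
    refine Finset.sum_congr rfl fun l _ => ?_
    rw [Tab.add_co, map_add, map_add, add_mul]
  map_mul' x y := by
    apply eta.repr.injective
    ext l
    rw [h2_repr_sum (fun a => j ((x * y : D.S).co a)), h2_repr_mul h]
    rw [Tab.mul_co, map_sum]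
    refine Finset.sum_congr rfl fun a _ => ?_
    rw [map_sum]
    refine Finset.sum_congr rfl fun b _ => ?_
    rw [h2_repr_sum (fun a => j (x.co a)), h2_repr_sum (fun a => j (y.co a)), map_mul, map_mul]

omit [SMulCommClass G R O] in
theorem h2_phi_repr (h : Compat D j eta) (x : D.S) (l : Fin n) :
    eta.repr (h2_phi h x) l = j (x.co l) := h2_repr_sum (fun a => j (x.co a)) l

omit [SMulCommClass G R O] in
theorem h2_phi_inj (h : Compat D j eta) (hj : Function.Injective j) :
    Function.Injective (h2_phi h) := by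
  intro x y hxy
  refine Tab.ext' fun l => hj ?_
  rw [← h2_phi_repr h, ← h2_phi_repr h, hxy]

end

/-- [QPG-H2] The same for `O` over `k[X]`, `k` algebraic over `ZMod p`.
PROOF. `O` is Noetherian (finite over `k[X]`), so `I = span {a_1, .., a_r}` (`Submodule.FG`). Let `E`
be the finite set of all coefficients of all coordinates `eta.repr (a_i) l`. `exists_GD_finite` gives
`k0, D0` with `Compat D0 (mapRingHom k0.subtype) eta`. The ring hom
`φ : D0.S →+* O`, `x ↦ ∑ l, algebraMap k[X] O ((x.co l).map k0.subtype) * eta l` is injective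
(coordinates): it is a ring hom because it is the composition of `D0.S → (D0.map j).S`
(coordinatewise, `j = mapRingHom k0.subtype`), `bridge` for `f = RingHom.id k[X]`, and the
isomorphism `S (RingHom.id) O → O` (`S.lift _ (algebraMap k[X] O) (RingHom.id O)`); or prove it
directly from `Compat`. So `D0.S` is a domain, and each `a_i = φ (b_i)` (coordinates of `a_i` have
coefficients in `E ⊆ k0`). `I0 := span {b_i} ≠ ⊥`, `I0.map φ = I`; `torsion_finite`:
`I0 ^ h = span {y}`, so `I ^ h = (I0 ^ h).map φ = span {φ y}` (`Ideal.map_pow`, `Ideal.map_span`). -/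
theorem torsion {p : ℕ} [Fact p.Prime] {k O G : Type} [Field k] [Algebra (ZMod p) k]
    [Algebra.IsAlgebraic (ZMod p) k] [CommRing O] [IsDomain O] [Algebra k[X] O] {n : ℕ}
    (eta : Module.Basis (Fin n) k[X] O) [Group G] [Fintype G] [DecidableEq G]
    [MulSemiringAction G O] [SMulCommClass G k[X] O]
    (hinj : Function.Injective (algebraMap k[X] O))
    (chr : CHR G O) (hinv : ∀ a : O, (∀ s : G, s • a = a) → ∃ r, a = algebraMap k[X] O r)
    (I : Ideal O) (hI : I ≠ ⊥) : ∃ h : ℕ, 0 < h ∧ ∃ f, I ^ h = Ideal.span {f} := by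
  classical
  have : Module.Finite k[X] O := Module.Finite.of_basis eta
  have : IsNoetherianRing O := IsNoetherianRing.of_finite k[X] O
  obtain ⟨T, hT⟩ := (isNoetherianRing_iff_ideal_fg O).1 inferInstance I
  obtain ⟨k0, hfin, hE, D0, hD⟩ := exists_GD_finite (p := p) eta hinj chr hinv
    (T.biUnion fun a => Finset.univ.biUnion fun l => (eta.repr a l).support.image
      fun m => (eta.repr a l).coeff m)
  have hj : Function.Injective (mapRingHom k0.subtype) := fun x y hxy =>
    Polynomial.map_injective k0.subtype k0.subtype.injective hxy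
  have hphi := h2_phi_inj hD hj
  have : IsDomain D0.S := hphi.isDomain (h2_phi hD)
  have hlift : ∀ a ∈ T, ∃ b : D0.S, h2_phi hD b = a := by
    intro a ha
    have h1 : ∀ l, ∃ P : k0[X], mapRingHom k0.subtype P = eta.repr a l := by
      intro l
      have h2 : eta.repr a l ∈ Polynomial.lifts k0.subtype := by
        rw [Polynomial.lifts_iff_coeff_lifts]
        intro m
        by_cases hm : (eta.repr a l).coeff m = 0
        · exact ⟨0, by rw [hm, map_zero]⟩
        · refine ⟨⟨(eta.repr a l).coeff m, hE _ ?_⟩, rfl⟩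
          rw [Finset.mem_biUnion]
          refine ⟨a, ha, ?_⟩
          rw [Finset.mem_biUnion]
          refine ⟨l, Finset.mem_univ _, ?_⟩
          rw [Finset.mem_image]
          exact ⟨m, Polynomial.mem_support_iff.2 hm, rfl⟩
      rw [Polynomial.mem_lifts] at h2
      exact h2
    choose P hP using h1
    refine ⟨⟨P⟩, ?_⟩
    apply eta.repr.injective
    ext1 l
    rw [h2_phi_repr]
    exact hP l
  have hmap : (Ideal.span {b : D0.S | h2_phi hD b ∈ T}).map (h2_phi hD) = I := by
    rw [Ideal.map_span]
    have h1 : (h2_phi hD) '' {b : D0.S | h2_phi hD b ∈ T} = (T : Set O) := by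
      ext a
      constructor
      · rintro ⟨b, hb, rfl⟩
        exact hb
      · intro ha
        obtain ⟨b, hb⟩ := hlift a ha
        exact ⟨b, by rw [Set.mem_ofPred_eq, hb]; exact ha, hb⟩
    rw [h1]
    exact hT
  have hne : Ideal.span {b : D0.S | h2_phi hD b ∈ T} ≠ ⊥ := by
    intro h0
    rw [h0, Ideal.map_bot] at hmap
    exact hI hmap.symm
  obtain ⟨h, hpos, y, hy⟩ := torsion_finite D0 _ hne
  refine ⟨h, hpos, h2_phi hD y, ?_⟩
  rw [← hmap, ← Ideal.map_pow, hy, Ideal.map_span, Set.image_singleton]

end Pool.QPC
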