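import Pool.Agent.QPG.Defs
import Pool.Agent.PGL.Glue5

set_option autoImplicit false

open Polynomial Pool.Agent.PatchGL

namespace Pool.QPC

/-- [QPG-L3a] -/
theorem isDomain_laurent {R B O : Type*} [CommRing R] [CommRing B] [CommRing O] [Algebra R O]
    {ι : Type*} [Fintype ι] (eta : Module.Basis ι R O) (f0 : R →+* B) [IsDomain (S f0 O)]
    (f1 : R →+* LaurentSeries B) (hf1 : ∀ r, f1 r = HahnSeries.C (f0 r)) :
    IsDomain (S f1 O) := by
  let Θ : S f1 O →+* LaurentSeries (S f0 O) := S.lift f1 (mapHom (algebraMap B (S f0 O)))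
    (HahnSeries.C.comp (S.inc f0 O)) (fun r => by
      rw [RingHom.comp_apply, hf1, S.inc_algebraMap, HahnSeries.C_apply, mapHom_C', HahnSeries.C_apply])
  have hΘ : ∀ (b : LaurentSeries B) (a : O), Θ (algebraMap _ _ b * S.inc f1 O a) =
      mapHom (algebraMap B (S f0 O)) b * HahnSeries.C (S.inc f0 O a) := by
    intro b a
    rw [map_mul, S.lift_algebraMap, S.lift_inc]; rfl
  have hinj : Function.Injective Θ := by
    rw [injective_iff_map_eq_zero]
    intro x hx
    have h1 : x = ∑ i, algebraMap (LaurentSeries B) (S f1 O) ((S.basis f1 eta).repr x i) * S.inc f1 O (eta i) := by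
      conv_lhs => rw [← (S.basis f1 eta).sum_repr x]
      refine Finset.sum_congr rfl fun i _ => ?_
      rw [Algebra.smul_def, S.basis_apply]
    have h2 : ∀ i j, ((S.basis f1 eta).repr x i).coeff j = 0 := by
      intro i j
      have h3 := congrArg (fun z : LaurentSeries (S f0 O) => z.coeff j) hx
      simp only [HahnSeries.coeff_zero] at h3
      rw [h1, map_sum, HahnSeries.coeff_sum] at h3
      have h4 : ∀ i, (Θ (algebraMap (LaurentSeries B) (S f1 O) ((S.basis f1 eta).repr x i) * S.inc f1 O (eta i))).coeff j =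
          ((S.basis f1 eta).repr x i).coeff j • S.basis f0 eta i := by
        intro i
        rw [hΘ, mul_comm, HahnSeries.C_mul_eq_smul, HahnSeries.coeff_smul, mapHom_coeff, smul_eq_mul, mul_comm,
          S.basis_apply, Algebra.smul_def]
      rw [Finset.sum_congr rfl fun i _ => h4 i] at h3
      have h5 := congrArg (fun z => (S.basis f0 eta).repr z i) h3
      simp only [map_zero, Finsupp.zero_apply, Module.Basis.repr_sum_self] at h5
      exact h5
    have h3 : (S.basis f1 eta).repr x = 0 := by
      ext i j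
      rw [h2]; rfl
    exact (S.basis f1 eta).repr.map_eq_zero_iff.mp h3
  exact hinj.isDomain Θ

/-- [QPG-L3] `S(k((s)), s^2)` is a domain. -/
theorem isDomain_fz {p : ℕ} [Fact p.Prime] {k R O : Type*} [Field k] [CharP k p] [CommRing R]
    [CommRing O] [Algebra R O] {ι : Type*} [Fintype ι] (eta : Module.Basis ι R O) (f0 : R →+* k[X])
    [IsDomain (S f0 O)] (fz : R →+* (LaurentSeries k)[X])
    (hz : ∀ r, fz r = eval₂ ((C : LaurentSeries k →+* _).comp HahnSeries.C)
      (vz p (HahnSeries.single (-2) 1)) (f0 r)) :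
    IsDomain (S fz O) := by
  let f1 : R →+* LaurentSeries k[X] := (HahnSeries.C : k[X] →+* _).comp f0
  have h1 : IsDomain (S f1 O) := isDomain_laurent eta f0 f1 (fun _ => rfl)
  have h2 : ∀ r, chi k p 0 (fz r) = f1 r := by
    intro r
    rw [hz]
    exact chi_phV k p 0 (zero_pow (Fact.out : p.Prime).ne_zero) (f0 r)
  exact (S.map_injective eta (chi k p 0) h2 (chi_injective k p 0)).isDomain _

end Pool.QPC
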