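import Pool.Agent.QPG.Z0
import Pool.Agent.PGL.Glue5
import Pool.Agent.KTS.AA

set_option autoImplicit false

open Polynomial

namespace Pool.QPC

open Pool.Agent.PatchGL (chi kV zet mapHom mapHom_coeff chi_C chi_X chi_phV phV)

/-- coefficientwise ring hom of Hahn series with rational exponents -/
noncomputable def mapQ {A B : Type*} [CommRing A] [CommRing B] (f : A →+* B) :
    HahnSeries ℚ A →+* HahnSeries ℚ B where
  toFun x := x.map f
  map_one' := by
    ext m
    simp only [HahnSeries.map_coeff, HahnSeries.coeff_one]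
    split_ifs <;> simp
  map_zero' := by ext m; simp
  map_add' x y := by ext m; simp
  map_mul' x y := by
    ext m
    have h1 : (x.map f).support ⊆ x.support := Function.support_comp_subset (map_zero f) _
    have h2 : (y.map f).support ⊆ y.support := Function.support_comp_subset (map_zero f) _
    rw [HahnSeries.map_coeff, HahnSeries.coeff_mul, map_sum,
      HahnSeries.coeff_mul_left' x.isPWO_support h1]
    symm
    apply Finset.sum_subset_zero_on_sdiff
    · intro z hz
      rw [Finset.mem_antidiagonal] at hz ⊢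
      exact ⟨hz.1, h2 hz.2.1, hz.2.2⟩
    · intro z hz
      rw [Finset.mem_sdiff, Finset.mem_antidiagonal, Finset.mem_antidiagonal] at hz
      have : (y.map f).coeff z.2 = 0 := by
        by_contra h
        exact hz.2 ⟨hz.1.1, h, hz.1.2.2⟩
      rw [map_mul]
      rw [HahnSeries.map_coeff] at this
      rw [this, mul_zero]
    · intro z _
      rw [map_mul, HahnSeries.map_coeff, HahnSeries.map_coeff]

theorem mapQ_coeff {A B : Type*} [CommRing A] [CommRing B] (f : A →+* B) (x : HahnSeries ℚ A)
    (q : ℚ) : (mapQ f x).coeff q = f (x.coeff q) := rfl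

theorem mapQ_C {A B : Type*} [CommRing A] [CommRing B] (f : A →+* B) (a : A) :
    mapQ f (HahnSeries.C a) = HahnSeries.C (f a) := by
  ext q
  rw [mapQ_coeff, HahnSeries.C_apply, HahnSeries.C_apply, HahnSeries.coeff_single,
    HahnSeries.coeff_single]
  split_ifs <;> simp

/-- Laurent series inside Hahn series with rational exponents -/
noncomputable def embQ (A : Type*) [CommRing A] : LaurentSeries A →+* HahnSeries ℚ A :=
  HahnSeries.embDomainRingHom (Int.castAddHom ℚ) Int.cast_injective (fun _ _ => Int.cast_le)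

theorem embQ_coeff {A : Type*} [CommRing A] (x : LaurentSeries A) (n : ℤ) :
    (embQ A x).coeff (n : ℚ) = x.coeff n := by
  rw [embQ, HahnSeries.embDomainRingHom_apply]
  exact HahnSeries.embDomain_coeff

theorem embQ_coeff_of_not {A : Type*} [CommRing A] (x : LaurentSeries A) (q : ℚ)
    (h : ∀ n : ℤ, (n : ℚ) ≠ q) : (embQ A x).coeff q = 0 := by
  rw [embQ, HahnSeries.embDomainRingHom_apply]
  apply HahnSeries.embDomain_of_notMem_range
  rintro ⟨n, hn⟩
  exact h n hn

theorem embQ_injective (A : Type*) [CommRing A] : Function.Injective (embQ A) := by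
  intro x y h
  ext n
  rw [← embQ_coeff, ← embQ_coeff, h]

theorem mapQ_embQ {A B : Type*} [CommRing A] [CommRing B] (f : A →+* B) (x : LaurentSeries A) :
    mapQ f (embQ A x) = embQ B (mapHom f x) := by
  ext q
  rw [mapQ_coeff]
  by_cases h : ∃ n : ℤ, (n : ℚ) = q
  · obtain ⟨n, rfl⟩ := h
    rw [embQ_coeff, embQ_coeff, mapHom_coeff]
  · push Not at h
    rw [embQ_coeff_of_not _ _ h, embQ_coeff_of_not _ _ h, map_zero]

theorem embQ_C {A : Type*} [CommRing A] (a : A) : embQ A (HahnSeries.C a) = HahnSeries.C a :=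
  HahnSeries.embDomainRingHom_C

/-- the key lemma: an `l`-th power in Hahn series which is a power series has constant
coefficient an `l`-th power -/
theorem const_pow {A : Type*} [CommRing A] [IsDomain A] {l : ℕ} (hl : 1 ≤ l)
    (x : HahnSeries ℚ A) (Q : PowerSeries A)
    (h : x ^ l = embQ A (HahnSeries.ofPowerSeries ℤ A Q)) :
    ∃ b : A, b ^ l = PowerSeries.constantCoeff Q := by
  have hneg : ∀ q : ℚ, q < 0 → (x ^ l).coeff q = 0 := by
    intro q hq
    rw [h]
    by_cases hn : ∃ n : ℤ, (n : ℚ) = q
    · obtain ⟨n, rfl⟩ := hn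
      rw [embQ_coeff]
      have hn0 : n < 0 := by exact_mod_cast hq
      rw [HahnSeries.ofPowerSeries_apply, HahnSeries.embDomain_of_notMem_range]
      rintro ⟨i, hi⟩
      simp at hi
      omega
    · push Not at hn
      exact embQ_coeff_of_not _ _ hn
  have h0 : (x ^ l).coeff 0 = PowerSeries.constantCoeff Q := by
    rw [h]
    have : (0 : ℚ) = ((0 : ℤ) : ℚ) := by simp
    rw [this, embQ_coeff]
    have h2 : (0 : ℤ) = ((0 : ℕ) : ℤ) := rfl
    rw [h2, HahnSeries.ofPowerSeries_apply_coeff, PowerSeries.coeff_zero_eq_constantCoeff]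
  by_cases hc : PowerSeries.constantCoeff Q = 0
  · exact ⟨0, by rw [hc, zero_pow (by omega)]⟩
  · have hxl : x ^ l ≠ 0 := by
      intro h1
      rw [h1, HahnSeries.coeff_zero] at h0
      exact hc h0.symm
    have hx : x ≠ 0 := by
      rintro rfl
      exact hxl (zero_pow (by omega))
    have hord : (x ^ l).order = 0 := by
      apply le_antisymm
      · exact HahnSeries.order_le_of_coeff_ne_zero (by rw [h0]; exact hc)
      · by_contra hlt
        push Not at hlt
        exact hxl (HahnSeries.coeff_order_eq_zero.mp (hneg _ hlt))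
    have hlc : ∀ j : ℕ, (x ^ j).leadingCoeff = x.leadingCoeff ^ j := by
      intro j
      induction j with
      | zero => rw [pow_zero, pow_zero, HahnSeries.leadingCoeff_one]
      | succ j ih => rw [pow_succ, pow_succ, HahnSeries.leadingCoeff_mul, ih]
    refine ⟨x.leadingCoeff, ?_⟩
    rw [← hlc, HahnSeries.leadingCoeff_eq, hord, h0]

section N1

variable {k : Type} [Field k] {p : ℕ} [Fact p.Prime] [CharP k p]

/-- `z ↦ i + ζ` on `Ω[z]`, `Ω = HahnSeries ℚ k` -/
noncomputable def chiQ (k : Type) [Field k] (p : ℕ) [Fact p.Prime] [CharP k p] (i : k) :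
    (HahnSeries ℚ k)[X] →+* HahnSeries ℚ k[X] :=
  eval₂RingHom (mapQ C) (embQ k[X] (HahnSeries.ofPowerSeries ℤ _ (PowerSeries.C (C i) + zet k p)))

theorem chiQ_emb (i : k) (P : (LaurentSeries k)[X]) :
    chiQ k p i (mapRingHom (embQ k) P) = embQ k[X] (chi k p i P) := by
  have : (chiQ k p i).comp (mapRingHom (embQ k)) = (embQ k[X]).comp (chi k p i) := by
    apply Polynomial.ringHom_ext
    · intro a
      rw [RingHom.comp_apply, RingHom.comp_apply, coe_mapRingHom, map_C, chi_C, chiQ,
        coe_eval₂RingHom, eval₂_C, mapQ_embQ]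
      rfl
    · rw [RingHom.comp_apply, RingHom.comp_apply, coe_mapRingHom, map_X, chi_X, chiQ,
        coe_eval₂RingHom, eval₂_X]
  exact congrArg (fun g : (LaurentSeries k)[X] →+* HahnSeries ℚ k[X] => g P) this

theorem chiQ_shift (P : (HahnSeries ℚ k)[X]) :
    chiQ k p 0 (shift (HahnSeries ℚ k) P) = chiQ k p 1 P := by
  have : (chiQ k p 0).comp (shift (HahnSeries ℚ k)) = chiQ k p 1 := by
    apply Polynomial.ringHom_ext
    · intro a
      rw [RingHom.comp_apply, shift_C, chiQ, chiQ, coe_eval₂RingHom, coe_eval₂RingHom, eval₂_C,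
        eval₂_C]
    · rw [RingHom.comp_apply, shift_X, map_add, map_one, chiQ, chiQ, coe_eval₂RingHom,
        coe_eval₂RingHom, eval₂_X, eval₂_X]
      have h1 : (1 : HahnSeries ℚ k[X]) = embQ k[X] (HahnSeries.ofPowerSeries ℤ _ 1) := by
        rw [map_one, map_one]
      conv_lhs => rw [h1]
      rw [← map_add, ← map_add, C_0, C_1, map_zero, map_one]
      congr 2
      ring
  exact congrArg (fun g : (HahnSeries ℚ k)[X] →+* HahnSeries ℚ k[X] => g P) this

end N1

end Pool.QPC
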