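import Mathlib

/-! # QPC, section 7, S1: the Nullstellensatz and specialisations -/

set_option autoImplicit false

open MvPolynomial

namespace Pool.QPC

/-- A system of polynomial equations without solutions in an algebraically closed field `Ω` has no
solutions after any specialisation of a subring that contains finitely many given elements. -/
theorem s1_core {Ω : Type*} [Field Ω] [IsAlgClosed Ω] {σ τ : Type*} [Finite σ]
    (e : τ → MvPolynomial σ Ω) (h : ∀ x : σ → Ω, ∃ i, eval x (e i) ≠ 0) :
    ∃ C : Set Ω, C.Finite ∧ ∀ (A : Subring Ω), C ⊆ A → ∀ (e' : τ → MvPolynomial σ A),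
      (∀ i, map A.subtype (e' i) = e i) → ∀ {k' : Type*} [Field k'] (φ : A →+* k') (x : σ → k'),
        ∃ i, eval₂ φ x (e' i) ≠ 0 := by
  classical
  have hz : zeroLocus Ω (Ideal.span (Set.range e)) = ∅ := by
    rw [zeroLocus_span]
    ext x
    simp only [Set.mem_ofPred_eq, Set.mem_empty_iff_false, iff_false]
    intro hx
    obtain ⟨i, hi⟩ := h x
    exact hi (by have := hx (e i) ⟨i, rfl⟩; rwa [← coe_aeval_eq_eval])
  have htop : Ideal.span (Set.range e) = ⊤ := by
    rw [← Ideal.radical_eq_top, ← vanishingIdeal_zeroLocus_eq_radical (K := Ω), hz,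
      vanishingIdeal_empty]
  have h1 : (1 : MvPolynomial σ Ω) ∈ Ideal.span (Set.range e) := by rw [htop]; trivial
  obtain ⟨c, hc⟩ := Finsupp.mem_ideal_span_range_iff_exists_finsupp.mp h1
  refine ⟨⋃ i ∈ c.support, ((c i).coeffs : Set Ω), ?_, ?_⟩
  · exact Set.Finite.biUnion c.support.finite_toSet fun i _ => (c i).coeffs.finite_toSet
  · intro A hA e' he k' _ φ x
    by_contra hno
    push Not at hno
    have hlift : ∀ i, ∃ c' : MvPolynomial σ A, map A.subtype c' = c i := by
      intro i
      have : c i ∈ Set.range (map A.subtype) := by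
        rw [mem_range_map_iff_coeffs_subset]
        intro y hy
        by_cases hi : i ∈ c.support
        · exact ⟨⟨y, hA (Set.mem_biUnion hi hy)⟩, rfl⟩
        · rw [Finsupp.notMem_support_iff] at hi
          rw [hi] at hy
          simp at hy
      exact this
    choose c' hc' using hlift
    have h2 : ∑ i ∈ c.support, c' i * e' i = 1 := by
      apply map_injective A.subtype Subtype.val_injective
      rw [map_sum, map_one, ← hc, Finsupp.sum]
      exact Finset.sum_congr rfl fun i _ => by rw [map_mul, hc', he]
    have h3 := congrArg (eval₂Hom φ x) h2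
    rw [map_sum, map_one] at h3
    have h4 : ∑ i ∈ c.support, (eval₂Hom φ x) (c' i * e' i) = 0 := by
      apply Finset.sum_eq_zero
      intro i _
      rw [map_mul, coe_eval₂Hom, hno i, mul_zero]
    rw [h4] at h3
    exact zero_ne_one h3

end Pool.QPC
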