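import Mathlib

/-! # QPC, section 7, S3: specialisation at a split prime -/

set_option autoImplicit false

open Polynomial

namespace Pool.QPC

/-- Euclid and Schur: a monic polynomial of positive degree over `F_p[X]` has a root modulo some
prime that does not divide a given element. -/
theorem s3_schur {p : ℕ} [Fact p.Prime] (m : (ZMod p)[X][X]) (hm : m.Monic)
    (hd : 0 < m.natDegree) (g : (ZMod p)[X]) (hg : g ≠ 0) :
    ∃ π : (ZMod p)[X], Irreducible π ∧ ¬ π ∣ g ∧ ∃ a : (ZMod p)[X], π ∣ m.eval a := by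
  classical
  have hm0 : m ≠ 0 := hm.ne_zero
  -- a point where `m` does not vanish
  obtain ⟨a₀, ha₀⟩ : ∃ a₀ : (ZMod p)[X], m.eval a₀ ≠ 0 := by
    by_contra hno
    push Not at hno
    exact hm0 (Polynomial.funext fun r => by simpa using hno r)
  obtain ⟨c, hc⟩ : ∃ c : (ZMod p)[X], c = m.eval a₀ := ⟨_, rfl⟩
  have hc0 : c ≠ 0 := by rw [hc]; exact ha₀
  have hcg : c * g ≠ 0 := mul_ne_zero hc0 hg
  -- the polynomial `m (a₀ + c g T)`
  obtain ⟨q, hq⟩ : ∃ q : (ZMod p)[X][X], q = m.comp (C a₀ + C (c * g) * X) := ⟨_, rfl⟩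
  have hlin : (C a₀ + C (c * g) * X : (ZMod p)[X][X]).natDegree = 1 := by
    rw [add_comm]
    exact natDegree_linear hcg
  have hqd : 0 < q.natDegree := by
    rw [hq, natDegree_comp, hlin, mul_one]; exact hd
  -- values that are `c` times a constant
  have hfin : Set.Finite {x : (ZMod p)[X] | ∃ u : ZMod p, q.eval x = c * C u} := by
    have : {x : (ZMod p)[X] | ∃ u : ZMod p, q.eval x = c * C u} ⊆
        ⋃ u : ZMod p, {x | (q - C (c * C u)).IsRoot x} := by
      rintro x ⟨u, hu⟩
      rw [Set.mem_iUnion]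
      refine ⟨u, ?_⟩
      change (q - C (c * C u)).eval x = 0
      rw [eval_sub, eval_C, hu, sub_self]
    refine Set.Finite.subset (Set.finite_iUnion fun u => ?_) this
    apply Polynomial.finite_setOfPred_isRoot
    intro h0
    have : q.natDegree = 0 := by
      rw [sub_eq_zero.mp h0, natDegree_C]
    omega
  obtain ⟨x, hx⟩ : ∃ x : (ZMod p)[X], x ∉ {x : (ZMod p)[X] | ∃ u : ZMod p, q.eval x = c * C u} :=
    hfin.exists_notMem
  -- `q x = c (1 + g h)`
  have hval : q.eval x = m.eval (a₀ + c * g * x) := by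
    rw [hq, eval_comp]; simp
  obtain ⟨h, hh⟩ : ∃ h : (ZMod p)[X], m.eval (a₀ + c * g * x) - m.eval a₀ = (c * g * x) * h := by
    have := Polynomial.sub_dvd_eval_sub (a₀ + c * g * x) a₀ m
    obtain ⟨h, hh⟩ := this
    exact ⟨h, by rw [hh]; ring⟩
  obtain ⟨v, hv⟩ : ∃ v : (ZMod p)[X], v = 1 + g * (x * h) := ⟨_, rfl⟩
  have hqv : q.eval x = c * v := by
    rw [hval, hv]
    have : m.eval (a₀ + c * g * x) = c + (c * g * x) * h := by
      rw [← hh, hc]; ring
    rw [this]; ring
  have hv0 : v ≠ 0 := by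
    intro h0
    exact hx ⟨0, by rw [hqv, h0]; simp⟩
  have hvu : ¬ IsUnit v := by
    intro hu
    obtain ⟨u, -, hu⟩ := Polynomial.isUnit_iff.mp hu
    exact hx ⟨u, by rw [hqv, hu]⟩
  obtain ⟨π, hπ, hπv⟩ := WfDvdMonoid.exists_irreducible_factor hvu hv0
  refine ⟨π, hπ, ?_, a₀ + c * g * x, ?_⟩
  · intro hdvd
    apply hπ.not_isUnit
    have h1 : π ∣ v - g * (x * h) := dvd_sub hπv (hdvd.mul_right _)
    rw [hv] at h1
    have h2 : (1 + g * (x * h) - g * (x * h) : (ZMod p)[X]) = 1 := by ring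
    rw [h2] at h1
    exact isUnit_of_dvd_one h1
  · rw [← hval, hqv]
    exact hπv.mul_left _

/-- Elements of `K(θ)` are fractions of elements of `B[θ]` and `B`. -/
theorem s3_denoms {B K W : Type*} [CommRing B] [IsDomain B] [Field K] [Algebra B K]
    [IsFractionRing B K] [Field W] [Algebra K W] [Algebra B W] [IsScalarTower B K W] {θ : W}
    (hθ : IsIntegral K θ) {y : W} (hy : y ∈ IntermediateField.adjoin K {θ}) :
    ∃ g : B, g ≠ 0 ∧ algebraMap B W g * y ∈ Algebra.adjoin B {θ} := by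
  have hy' : y ∈ Algebra.adjoin K {θ} := by
    rw [← IntermediateField.adjoin_simple_toSubalgebra_of_isAlgebraic hθ.isAlgebraic]
    exact hy
  clear hy
  induction hy' using Algebra.adjoin_induction with
  | mem x hx =>
    rw [Set.mem_singleton_iff] at hx
    subst hx
    refine ⟨1, one_ne_zero, ?_⟩
    rw [map_one, one_mul]
    exact Algebra.subset_adjoin (Set.mem_singleton _)
  | algebraMap r =>
    obtain ⟨⟨a, b⟩, hab⟩ := IsLocalization.surj (nonZeroDivisors B) r
    refine ⟨b, nonZeroDivisors.ne_zero b.2, ?_⟩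
    have : algebraMap B W b * algebraMap K W r = algebraMap B W a := by
      rw [IsScalarTower.algebraMap_apply B K W, ← map_mul, mul_comm, hab,
        ← IsScalarTower.algebraMap_apply B K W]
    rw [this]
    exact Subalgebra.algebraMap_mem _ _
  | add x y hx hy ihx ihy =>
    obtain ⟨g₁, h₁, e₁⟩ := ihx
    obtain ⟨g₂, h₂, e₂⟩ := ihy
    refine ⟨g₁ * g₂, mul_ne_zero h₁ h₂, ?_⟩
    have : algebraMap B W (g₁ * g₂) * (x + y) =
        algebraMap B W g₂ * (algebraMap B W g₁ * x) +
          algebraMap B W g₁ * (algebraMap B W g₂ * y) := by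
      rw [map_mul]; ring
    rw [this]
    exact Subalgebra.add_mem _ (Subalgebra.mul_mem _ (Subalgebra.algebraMap_mem _ _) e₁)
      (Subalgebra.mul_mem _ (Subalgebra.algebraMap_mem _ _) e₂)
  | mul x y hx hy ihx ihy =>
    obtain ⟨g₁, h₁, e₁⟩ := ihx
    obtain ⟨g₂, h₂, e₂⟩ := ihy
    refine ⟨g₁ * g₂, mul_ne_zero h₁ h₂, ?_⟩
    have : algebraMap B W (g₁ * g₂) * (x * y) =
        (algebraMap B W g₁ * x) * (algebraMap B W g₂ * y) := by
      rw [map_mul]; ring
    rw [this]
    exact Subalgebra.mul_mem _ e₁ e₂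

/-- The core: a finite extension `W` of `F_p(X)`, finitely many elements of `W`. -/
theorem s3_core {p : ℕ} [Fact p.Prime] (K : Type*) {W : Type*} [Field K] [Algebra (ZMod p)[X] K]
    [IsFractionRing (ZMod p)[X] K] [Field W] [Algebra K W] [Algebra (ZMod p)[X] W]
    [IsScalarTower (ZMod p)[X] K W] [FiniteDimensional K W] (s : Finset W) :
    ∃ (π : (ZMod p)[X]) (_ : Irreducible π) (S : Subring W) (χ : S →+* AdjoinRoot π) (N : ℕ),
      (∀ b : (ZMod p)[X], ∃ h : algebraMap _ W b ∈ S, χ ⟨_, h⟩ = AdjoinRoot.mk π b) ∧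
      ∀ x ∈ s, x ^ p ^ N ∈ S := by
  classical
  have hBW : Function.Injective (algebraMap (ZMod p)[X] W) := by
    rw [IsScalarTower.algebraMap_eq (ZMod p)[X] K W]
    exact (algebraMap K W).injective.comp (IsFractionRing.injective (ZMod p)[X] K)
  have hKp : ExpChar K p := expChar_of_injective_ringHom (IsFractionRing.injective (ZMod p)[X] K) p
  have : ExpChar (separableClosure K W) p :=
    expChar_of_injective_algebraMap (algebraMap K (separableClosure K W)).injective p
  have : IsPurelyInseparable (separableClosure K W) W := separableClosure.isPurelyInseparable K W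
  -- a common exponent
  obtain ⟨N, hN⟩ : ∃ N : ℕ, ∀ x ∈ s, x ^ p ^ N ∈ separableClosure K W := by
    have h1 : ∀ x : W, ∃ n : ℕ, x ^ p ^ n ∈ separableClosure K W := by
      intro x
      obtain ⟨n, y, hy⟩ := IsPurelyInseparable.pow_mem (separableClosure K W) p x
      exact ⟨n, by rw [← hy]; exact y.2⟩
    choose n hn using h1
    refine ⟨s.sup n, fun x hx => ?_⟩
    have hle : n x ≤ s.sup n := Finset.le_sup hx
    obtain ⟨d, hd⟩ := Nat.exists_eq_add_of_le hle
    rw [hd, pow_add, pow_mul]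
    exact pow_mem (hn x) _
  -- a primitive element
  obtain ⟨α, hα⟩ := Field.exists_primitive_element K (separableClosure K W)
  have hα' : ∀ y ∈ separableClosure K W, y ∈ IntermediateField.adjoin K {(α : W)} := by
    intro y hy
    have h1 : IntermediateField.lift (IntermediateField.adjoin K {α}) =
        IntermediateField.adjoin K {(α : W)} := IntermediateField.lift_adjoin_simple _ _ _
    rw [← h1, hα, IntermediateField.lift_top]
    exact hy
  obtain ⟨m, hm⟩ := IsIntegral.exists_multiple_integral_of_isLocalization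
    (nonZeroDivisors (ZMod p)[X]) (α : W) (Algebra.IsIntegral.isIntegral (R := K) (α : W))
  obtain ⟨θ, hθ⟩ : ∃ θ : W, θ = algebraMap (ZMod p)[X] W m * (α : W) := ⟨_, rfl⟩
  have hm0 : algebraMap (ZMod p)[X] W m ≠ 0 := by
    rw [Ne, map_eq_zero_iff _ hBW]
    exact nonZeroDivisors.ne_zero m.2
  have hθi : IsIntegral (ZMod p)[X] θ := by
    rw [hθ, ← Algebra.smul_def]; exact hm
  have hθK : IsIntegral K θ := Algebra.IsIntegral.isIntegral θ
  have hle : IntermediateField.adjoin K {(α : W)} ≤ IntermediateField.adjoin K {θ} := by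
    rw [IntermediateField.adjoin_le_iff, Set.singleton_subset_iff]
    have h1 : (α : W) = (algebraMap K W (algebraMap (ZMod p)[X] K m))⁻¹ * θ := by
      rw [hθ, IsScalarTower.algebraMap_apply (ZMod p)[X] K W] at *
      field_simp
    change (α : W) ∈ IntermediateField.adjoin K {θ}
    rw [h1]
    exact mul_mem (inv_mem (IntermediateField.algebraMap_mem _ _))
      (IntermediateField.mem_adjoin_simple_self K θ)
  -- denominators
  have hden : ∀ x ∈ s, ∃ g : (ZMod p)[X], g ≠ 0 ∧
      algebraMap (ZMod p)[X] W g * x ^ p ^ N ∈ Algebra.adjoin (ZMod p)[X] {θ} := fun x hx =>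
    s3_denoms (K := K) hθK (hle (hα' _ (hN x hx)))
  obtain ⟨G, hG, hGx⟩ : ∃ G : (ZMod p)[X], G ≠ 0 ∧ ∀ x ∈ s,
      algebraMap (ZMod p)[X] W G * x ^ p ^ N ∈ Algebra.adjoin (ZMod p)[X] {θ} := by
    choose! g hg hgx using hden
    refine ⟨∏ x ∈ s, g x, Finset.prod_ne_zero_iff.mpr hg, fun x hx => ?_⟩
    rw [← Finset.prod_erase_mul _ _ hx, map_mul, mul_assoc]
    exact Subalgebra.mul_mem _ (Subalgebra.algebraMap_mem _ _) (hgx x hx)
  -- the prime
  have : Module.IsTorsionFree (ZMod p)[X] W := by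
    have := (faithfulSMul_iff_algebraMap_injective (ZMod p)[X] W).mpr hBW
    infer_instance
  have hmon : (minpoly (ZMod p)[X] θ).Monic := minpoly.monic hθi
  have hdeg : 0 < (minpoly (ZMod p)[X] θ).natDegree := minpoly.natDegree_pos hθi
  obtain ⟨π, hπ, hπG, a, ha⟩ := s3_schur _ hmon hdeg G hG
  have : Fact (Irreducible π) := ⟨hπ⟩
  have hev : (minpoly (ZMod p)[X] θ).eval₂ (AdjoinRoot.mk π) (AdjoinRoot.mk π a) = 0 := by
    rw [Polynomial.eval₂_hom, AdjoinRoot.mk_eq_zero]
    exact ha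
  obtain ⟨χ₁, hχ₁⟩ : ∃ χ₁ : Algebra.adjoin (ZMod p)[X] {θ} →+* AdjoinRoot π,
      ∀ b : (ZMod p)[X], χ₁ (algebraMap _ _ b) = AdjoinRoot.mk π b := by
    refine ⟨(AdjoinRoot.lift (AdjoinRoot.mk π) (AdjoinRoot.mk π a) hev).comp
      ((minpoly.equivAdjoin hθi).symm : _ ≃+* _).toRingHom, fun b => ?_⟩
    change AdjoinRoot.lift (AdjoinRoot.mk π) (AdjoinRoot.mk π a) hev
      ((minpoly.equivAdjoin hθi).symm (algebraMap _ _ b)) = _
    rw [AlgEquiv.commutes]
    exact AdjoinRoot.lift_of _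
  obtain ⟨gg, hgg⟩ : ∃ gg : Algebra.adjoin (ZMod p)[X] {θ}, gg = algebraMap _ _ G := ⟨_, rfl⟩
  have hggW : (gg : W) = algebraMap (ZMod p)[X] W G := by rw [hgg]; rfl
  have hGW : algebraMap (ZMod p)[X] W G ≠ 0 := by
    rw [Ne, map_eq_zero_iff _ hBW]; exact hG
  have hgg0 : gg ≠ 0 := by
    intro h0
    apply hGW
    rw [← hggW, h0]; rfl
  have hu₁ : IsUnit ((Algebra.adjoin (ZMod p)[X] {θ}).val.toRingHom gg) := by
    change IsUnit (gg : W)
    rw [hggW]; exact hGW.isUnit
  have hu₂ : IsUnit (χ₁ gg) := by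
    rw [hgg, hχ₁]
    apply Ne.isUnit
    rw [Ne, AdjoinRoot.mk_eq_zero]; exact hπG
  obtain ⟨j, hj⟩ : ∃ j : Localization.Away gg →+* W,
      j = IsLocalization.Away.lift gg hu₁ := ⟨_, rfl⟩
  have hjmap : ∀ c : Algebra.adjoin (ZMod p)[X] {θ},
      j (algebraMap _ _ c) = (c : W) := by
    intro c; rw [hj]; exact IsLocalization.Away.lift_eq gg hu₁ c
  have hjinj : Function.Injective j := by
    rw [injective_iff_map_eq_zero]
    intro z hz
    obtain ⟨c, ⟨k, hk⟩, rfl⟩ := IsLocalization.exists_mk'_eq (Submonoid.powers gg) z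
    rw [IsLocalization.mk'_eq_zero_iff]
    refine ⟨1, ?_⟩
    have h1 : j (algebraMap _ _ c) = 0 := by
      rw [← IsLocalization.mk'_spec (Localization.Away gg) c ⟨k, hk⟩, map_mul, hz, zero_mul]
    rw [hjmap] at h1
    rw [Submonoid.coe_one, one_mul]
    exact Subtype.ext h1
  obtain ⟨e, he⟩ : ∃ e : Localization.Away gg ≃+* j.range, ∀ z, ((e z : j.range) : W) = j z :=
    ⟨RingEquiv.ofBijective j.rangeRestrict ⟨fun x y h => hjinj (congrArg Subtype.val h),
      j.rangeRestrict_surjective⟩, fun z => rfl⟩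
  refine ⟨π, hπ, j.range, (IsLocalization.Away.lift gg hu₂).comp e.symm.toRingHom, N, ?_, ?_⟩
  · intro b
    have h1 : j (algebraMap (Algebra.adjoin (ZMod p)[X] {θ}) (Localization.Away gg)
        (algebraMap (ZMod p)[X] (Algebra.adjoin (ZMod p)[X] {θ}) b)) =
          algebraMap (ZMod p)[X] W b := by
      rw [hjmap]; rfl
    refine ⟨⟨_, h1⟩, ?_⟩
    have h2 : e.symm ⟨algebraMap (ZMod p)[X] W b, ⟨_, h1⟩⟩ =
        algebraMap (Algebra.adjoin (ZMod p)[X] {θ}) (Localization.Away gg)
          (algebraMap (ZMod p)[X] (Algebra.adjoin (ZMod p)[X] {θ}) b) := by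
      rw [RingEquiv.symm_apply_eq]
      apply Subtype.ext
      rw [he, h1]
    change IsLocalization.Away.lift gg hu₂ (e.symm _) = _
    rw [h2, IsLocalization.Away.lift_eq, hχ₁]
  · intro x hx
    obtain ⟨cc, hcc⟩ : ∃ cc : Algebra.adjoin (ZMod p)[X] {θ},
        (cc : W) = algebraMap (ZMod p)[X] W G * x ^ p ^ N := ⟨⟨_, hGx x hx⟩, rfl⟩
    refine ⟨IsLocalization.mk' (Localization.Away gg) cc
      (⟨gg, 1, by simp⟩ : Submonoid.powers gg), ?_⟩
    have h2 : j (algebraMap _ _ gg) * j (IsLocalization.mk' (Localization.Away gg) cc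
        (⟨gg, 1, by simp⟩ : Submonoid.powers gg)) = j (algebraMap _ _ cc) := by
      rw [← map_mul]
      congr 1
      exact IsLocalization.mk'_spec' (Localization.Away gg) cc
        (⟨gg, 1, by simp⟩ : Submonoid.powers gg)
    rw [hjmap, hjmap, hggW, hcc] at h2
    exact mul_left_cancel₀ hGW h2

/-- Values of polynomials over `F_p` lie in the field generated by the argument. -/
theorem s3_closure {p : ℕ} [Fact p.Prime] {F : Type*} [Field F] (h : (ZMod p)[X] →+* F)
    (q : (ZMod p)[X]) : h q ∈ Subfield.closure {h X} := by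
  induction q using Polynomial.induction_on' with
  | add q₁ q₂ h₁ h₂ => rw [map_add]; exact add_mem h₁ h₂
  | monomial n c =>
    rw [← C_mul_X_pow_eq_monomial, map_mul, map_pow]
    apply mul_mem
    · have : (C c : (ZMod p)[X]) = ((c.val : ℕ) : (ZMod p)[X]) := by
        rw [← C_eq_natCast, ZMod.natCast_zmod_val]
      rw [this, map_natCast]
      exact natCast_mem _ _
    · exact pow_mem (Subfield.subset_closure (Set.mem_singleton _)) _

/-- Specialisation: a finitely generated domain over a finite field `k₀` with a transcendental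
element `t` has a point over the algebraically closed field `k` whose coordinates lie in the field
generated by the value of `t ^ (p - 1)`. -/
theorem s3_spec (p : ℕ) [Fact p.Prime] {k₀ k A : Type*} [Field k₀] [Finite k₀] [CharP k₀ p]
    [Field k] [IsAlgClosed k] [Algebra k₀ k] [CommRing A] [IsDomain A] [Algebra k₀ A]
    [Algebra.FiniteType k₀ A] (t : A) (ht : Transcendental k₀ t) :
    ∃ φ : A →ₐ[k₀] k, ∀ a, φ a ∈ Subfield.closure {(φ t) ^ (p - 1)} := by
  classical
  have hp : p.Prime := Fact.out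
  have hcA : CharP A p := charP_of_injective_algebraMap (algebraMap k₀ A).injective p
  let _ : Algebra (ZMod p) k₀ := ZMod.algebra k₀ p
  let _ : Algebra (ZMod p) A := ZMod.algebra A p
  have tw : IsScalarTower (ZMod p) k₀ A := IsScalarTower.of_algebraMap_eq' (RingHom.ext_zmod _ _)
  have hft0 : Algebra.FiniteType (ZMod p) k₀ := by
    have : Module.Finite (ZMod p) k₀ := Module.Finite.of_finite
    infer_instance
  have hft : Algebra.FiniteType (ZMod p) A := Algebra.FiniteType.trans hft0 inferInstance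
  obtain ⟨r, hr⟩ : ∃ r : A, r = t ^ (p - 1) := ⟨_, rfl⟩
  have hrt : Transcendental (ZMod p) r := by
    rw [hr]
    exact (ht.restrictScalars (algebraMap (ZMod p) k₀).injective).pow
      (Nat.sub_pos_of_lt hp.one_lt)
  let algB : Algebra (ZMod p)[X] A := (aeval r : (ZMod p)[X] →ₐ[ZMod p] A).toRingHom.toAlgebra
  have hBA : ∀ b : (ZMod p)[X], algebraMap (ZMod p)[X] A b = aeval r b := fun b => rfl
  have hBinj : Function.Injective (algebraMap (ZMod p)[X] A) := transcendental_iff_injective.mp hrt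
  have tw2 : IsScalarTower (ZMod p) (ZMod p)[X] A :=
    IsScalarTower.of_algebraMap_eq' (RingHom.ext_zmod _ _)
  have hftB : Algebra.FiniteType (ZMod p)[X] A :=
    Algebra.FiniteType.of_restrictScalars_finiteType (ZMod p) (ZMod p)[X] A
  -- the generic fibre and a closed point of it
  let K := FractionRing (ZMod p)[X]
  let TT := TensorProduct (ZMod p)[X] K A
  have hftK : Algebra.FiniteType K TT := Algebra.FiniteType.baseChange K
  have hnt : Nontrivial TT := by
    have hinj2 : Function.Injective (Algebra.ofId (ZMod p)[X] (FractionRing A)) := by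
      change Function.Injective (algebraMap (ZMod p)[X] (FractionRing A))
      rw [IsScalarTower.algebraMap_eq (ZMod p)[X] A (FractionRing A)]
      exact (IsFractionRing.injective A (FractionRing A)).comp hBinj
    let g1 : K →ₐ[(ZMod p)[X]] FractionRing A := IsFractionRing.liftAlgHom hinj2
    let g2 : A →ₐ[(ZMod p)[X]] FractionRing A := IsScalarTower.toAlgHom _ _ _
    exact RingHom.domain_nontrivial (Algebra.TensorProduct.productMap g1 g2).toRingHom
  obtain ⟨𝔪, h𝔪⟩ := Ideal.exists_maximal TT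
  let _ : Field (TT ⧸ 𝔪) := Ideal.Quotient.field 𝔪
  have hftW : Algebra.FiniteType K (TT ⧸ 𝔪) :=
    Algebra.FiniteType.of_surjective (Ideal.Quotient.mkₐ K 𝔪) (Ideal.Quotient.mkₐ_surjective K 𝔪)
  have hfin : FiniteDimensional K (TT ⧸ 𝔪) := finite_of_finite_type_of_isJacobsonRing K (TT ⧸ 𝔪)
  obtain ⟨ι, hι⟩ : ∃ ι : A →ₐ[(ZMod p)[X]] (TT ⧸ 𝔪), True :=
    ⟨(Ideal.Quotient.mkₐ (ZMod p)[X] 𝔪).comp Algebra.TensorProduct.includeRight, trivial⟩
  obtain ⟨s, hs⟩ := hft.out
  obtain ⟨π, hπ, S, χ, N, hχ, hSx⟩ := s3_core (p := p) K (W := TT ⧸ 𝔪) (s.image ι)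
  have hcK : ExpChar K p :=
    expChar_of_injective_ringHom (IsFractionRing.injective (ZMod p)[X] K) p
  have hcW : ExpChar (TT ⧸ 𝔪) p :=
    expChar_of_injective_algebraMap (algebraMap K (TT ⧸ 𝔪)).injective p
  -- the twisted map into `S`
  have hmem : ∀ a : A, ((iterateFrobenius (TT ⧸ 𝔪) p N).comp ι.toRingHom) a ∈ S := by
    intro a
    have ha : a ∈ Algebra.adjoin (ZMod p) (s : Set A) := by rw [hs]; trivial
    induction ha using Algebra.adjoin_induction with
    | mem x hx =>
      change iterateFrobenius (TT ⧸ 𝔪) p N (ι x) ∈ S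
      rw [iterateFrobenius_def]
      exact hSx _ (Finset.mem_image_of_mem _ hx)
    | algebraMap c =>
      have : (algebraMap (ZMod p) A) c = algebraMap (ZMod p)[X] A (C c) := by
        rw [hBA, aeval_C]
      rw [this]
      change iterateFrobenius (TT ⧸ 𝔪) p N (ι _) ∈ S
      rw [ι.commutes, iterateFrobenius_def]
      exact pow_mem (hχ (C c)).choose _
    | add x y _ _ hx hy => rw [map_add]; exact add_mem hx hy
    | mul x y _ _ hx hy => rw [map_mul]; exact mul_mem hx hy
  obtain ⟨g, hg⟩ : ∃ g : A →+* S, ∀ a, (g a : TT ⧸ 𝔪) = (ι a) ^ p ^ N :=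
    ⟨((iterateFrobenius (TT ⧸ 𝔪) p N).comp ι.toRingHom).codRestrict S hmem,
      fun a => iterateFrobenius_def p N _⟩
  have hfact : Fact (Irreducible π) := ⟨hπ⟩
  have hfinF : Finite (AdjoinRoot π) := by
    have : Module.Finite (ZMod p) (AdjoinRoot π) := (AdjoinRoot.powerBasis hπ.ne_zero).finite
    exact Module.finite_of_finite (ZMod p)
  have hcF : ExpChar (AdjoinRoot π) p :=
    expChar_of_injective_ringHom (AdjoinRoot.of π).injective p
  have hperf : PerfectRing (AdjoinRoot π) p := PerfectRing.ofFiniteOfIsReduced p _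
  obtain ⟨ψ, hψ⟩ : ∃ ψ : A →+* AdjoinRoot π, ψ =
      ((iterateFrobeniusEquiv (AdjoinRoot π) p N).symm.toRingHom.comp χ).comp g := ⟨_, rfl⟩
  have hψr : ψ r = AdjoinRoot.mk π X := by
    have h1 : g r = (⟨algebraMap _ (TT ⧸ 𝔪) (X : (ZMod p)[X]), (hχ X).choose⟩ : S) ^ p ^ N := by
      apply Subtype.ext
      rw [hg]
      have : r = algebraMap (ZMod p)[X] A X := by rw [hBA, aeval_X]
      rw [this, ι.commutes]
      rfl
    rw [hψ]
    change (iterateFrobeniusEquiv (AdjoinRoot π) p N).symm (χ (g r)) = _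
    rw [h1, map_pow, (hχ X).choose_spec, RingEquiv.symm_apply_eq, iterateFrobeniusEquiv_apply,
      iterateFrobenius_def]
  let _ : Algebra k₀ (AdjoinRoot π) := (ψ.comp (algebraMap k₀ A)).toAlgebra
  have hfd : Module.Finite k₀ (AdjoinRoot π) := Module.Finite.of_finite
  have halg : Algebra.IsAlgebraic k₀ (AdjoinRoot π) := Algebra.IsAlgebraic.of_finite _ _
  let lf : AdjoinRoot π →ₐ[k₀] k := IsAlgClosed.lift
  let φ : A →ₐ[k₀] k :=
    { (lf.toRingHom.comp ψ) with
      commutes' := fun c => lf.commutes c }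
  have hφ : ∀ a, φ a = lf (ψ a) := fun a => rfl
  refine ⟨φ, fun a => ?_⟩
  obtain ⟨q, hq⟩ := AdjoinRoot.mk_surjective (ψ a)
  rw [← map_pow, ← hr, hφ, hφ, hψr, ← hq]
  exact s3_closure (lf.toRingHom.comp (AdjoinRoot.mk π)) q

end Pool.QPC
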