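import Pool.Agent.QPG.Defs
import Pool.Agent.QPG.S1a

/-! # QPC, section 7: coordinates in `S(R,t)` and the statement S1 -/

set_option autoImplicit false

open Polynomial

namespace Pool.QPC

theorem map_congr' {R B B' O : Type*} [CommRing R] [CommRing B] [CommRing B'] [CommRing O]
    [Algebra R O] {f : R →+* B} {f' : R →+* B'} {h h' : B →+* B'} (e : h = h')
    (hf : ∀ r : R, h (f r) = f' r) (hf' : ∀ r : R, h' (f r) = f' r) (x : S f O) :
    S.map h hf x = S.map h' hf' x := by
  subst e; rfl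

section coords

variable {k₀ : Type*} [CommRing k₀] {O : Type*} [CommRing O] [Algebra k₀[X] O] {n : ℕ}
  {p m : ℕ} {R R' R'' : Type*} [CommRing R] [CommRing R'] [CommRing R'']
  [Algebra k₀ R] [Algebra k₀ R'] [Algebra k₀ R'']

/-- Base change along a homomorphism of `k₀`-algebras `g` with `g ti = ti'`. -/
noncomputable def rmap (g : R →ₐ[k₀] R') {ti : R} {ti' : R'} (ht : g ti = ti') :
    SRt k₀ p m ti O →+* SRt k₀ p m ti' O :=
  S.map (mapRingHom (g : R →+* R')) (pw_comp m _ _ _
    (fun c => by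
      rw [Polynomial.algebraMap_apply, Polynomial.algebraMap_apply, coe_mapRingHom, map_C]
      exact congrArg C (g.commutes c))
    (by
      rw [vz, vz, coe_mapRingHom, Polynomial.map_mul, map_C, Polynomial.map_sub,
        Polynomial.map_pow, map_X]
      rw [← ht]; rfl))

/-- The coefficients of the coordinates. -/
noncomputable def co (eta : Module.Basis (Fin n) k₀[X] O) {ti : R} (x : SRt k₀ p m ti O)
    (i : Fin n) (j : ℕ) : R := ((S.basis _ eta).repr x i).coeff j

variable (eta : Module.Basis (Fin n) k₀[X] O)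

theorem co_rmap (g : R →ₐ[k₀] R') {ti : R} {ti' : R'} (ht : g ti = ti')
    (x : SRt k₀ p m ti O) (i : Fin n) (j : ℕ) : co eta (rmap g ht x) i j = g (co eta x i j) := by
  rw [co, rmap, S.map_repr, coe_mapRingHom, coeff_map]; rfl

variable {eta}

theorem ext_co {ti : R} {x y : SRt k₀ p m ti O} (h : ∀ i j, co eta x i j = co eta y i j) :
    x = y := by
  apply (S.basis _ eta).repr.injective
  ext i j
  exact h i j

variable (eta)

theorem co_zero {ti : R} (i : Fin n) (j : ℕ) : co eta (0 : SRt k₀ p m ti O) i j = 0 := by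
  rw [co, map_zero]; rfl

theorem co_sub {ti : R} (x y : SRt k₀ p m ti O) (i : Fin n) (j : ℕ) :
    co eta (x - y) i j = co eta x i j - co eta y i j := by
  rw [co, map_sub, Finsupp.sub_apply, coeff_sub]; rfl

variable {eta}

theorem rmap_rmap (g : R →ₐ[k₀] R') {ti : R} {ti' : R'} (ht : g ti = ti')
    (g' : R' →ₐ[k₀] R'') {ti'' : R''} (ht' : g' ti' = ti'') (x : SRt k₀ p m ti O) :
    rmap g' ht' (rmap g ht x) = rmap (g'.comp g) (by rw [AlgHom.comp_apply, ht, ht']) x := by
  have e : (mapRingHom (g' : R' →+* R'')).comp (mapRingHom (g : R →+* R')) =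
      mapRingHom ((g'.comp g : R →ₐ[k₀] R'') : R →+* R'') := by
    ext <;> simp
  rw [rmap, rmap, rmap, S.map_map]
  exact map_congr' e _ _ x

theorem rmap_injective (eta : Module.Basis (Fin n) k₀[X] O) (g : R →ₐ[k₀] R')
    (hg : Function.Injective g) {ti : R} {ti' : R'} (ht : g ti = ti') :
    Function.Injective (rmap (O := O) (p := p) (m := m) g ht) :=
  S.map_injective eta _ _ (Polynomial.map_injective _ hg)

/-- The element with given coefficients of the coordinates. -/
noncomputable def gen (eta : Module.Basis (Fin n) k₀[X] O) (D : ℕ) (ti : R)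
    (x : Fin n × Fin (D + 1) → R) : SRt k₀ p m ti O :=
  ∑ i : Fin n, (∑ j : Fin (D + 1), monomial (j : ℕ) (x (i, j)) : R[X]) • S.basis _ eta i

theorem co_gen (eta : Module.Basis (Fin n) k₀[X] O) (D : ℕ) (ti : R)
    (x : Fin n × Fin (D + 1) → R) (i : Fin n) (j : ℕ) :
    co eta (gen (p := p) (m := m) eta D ti x) i j =
      if h : j < D + 1 then x (i, ⟨j, h⟩) else 0 := by
  rw [co, gen, Module.Basis.repr_sum_self, finsetSum_coeff]
  split_ifs with h
  · rw [Finset.sum_eq_single (⟨j, h⟩ : Fin (D + 1))]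
    · rw [coeff_monomial, if_pos rfl]
    · intro b _ hb
      rw [coeff_monomial, if_neg]
      intro hbj
      exact hb (Fin.ext hbj)
    · intro hno
      exact absurd (Finset.mem_univ _) hno
  · apply Finset.sum_eq_zero
    intro b _
    rw [coeff_monomial, if_neg]
    intro hbj
    exact h (hbj ▸ b.2)

theorem rmap_gen (eta : Module.Basis (Fin n) k₀[X] O) (D : ℕ) (g : R →ₐ[k₀] R') {ti : R}
    {ti' : R'} (ht : g ti = ti') (x : Fin n × Fin (D + 1) → R) :
    rmap g ht (gen (p := p) (m := m) eta D ti x) = gen eta D ti' (fun i => g (x i)) := by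
  apply ext_co (eta := eta)
  intro i j
  rw [co_rmap, co_gen, co_gen]
  split_ifs with h
  · rfl
  · exact map_zero g

/-- Elements with small degrees are of the form `gen`. -/
theorem eq_gen (eta : Module.Basis (Fin n) k₀[X] O) (D : ℕ) {ti : R} (x : SRt k₀ p m ti O)
    (hx : ∀ i j, D < j → co eta x i j = 0) :
    x = gen eta D ti (fun i => co eta x i.1 (i.2 : ℕ)) := by
  apply ext_co (eta := eta)
  intro i j
  rw [co_gen]
  split_ifs with h
  · rfl
  · exact hx i j (by omega)

end coords

/-- S1: if `Y` has no `l`-th root over the algebraically closed field `Ω` then there are no `l`-th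
roots of degree at most `D` after any specialisation of a subalgebra that contains certain finitely
many elements. -/
theorem s1 {k₀ : Type*} [CommRing k₀] {O : Type*} [CommRing O] [Algebra k₀[X] O] {n : ℕ}
    (eta : Module.Basis (Fin n) k₀[X] O) {p m : ℕ} {Ω : Type*} [Field Ω] [IsAlgClosed Ω]
    [Algebra k₀ Ω] (ti : Ω) (Y : SRt k₀ p m ti O) (l : ℕ) (hY : ∀ h : SRt k₀ p m ti O, h ^ l ≠ Y)
    (D : ℕ) : ∃ C : Set Ω, C.Finite ∧ ∀ (A : Subalgebra k₀ Ω), C ⊆ A → ∀ (ta : A),
      ∀ hta : A.val ta = ti, ∀ YA : SRt k₀ p m ta O, rmap A.val hta YA = Y →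
      ∀ {k' : Type*} [Field k'] [Algebra k₀ k'] (φ : A →ₐ[k₀] k') (h : SRt k₀ p m (φ ta) O),
        (∀ i j, D < j → co eta h i j = 0) → h ^ l ≠ rmap φ rfl YA := by
  classical
  let σ := Fin n × Fin (D + 1)
  let P := MvPolynomial σ Ω
  let cP : Ω →ₐ[k₀] P := IsScalarTower.toAlgHom k₀ Ω P
  have hcP : ∀ a, cP a = MvPolynomial.C a := fun a => rfl
  let H : SRt k₀ p m (cP ti) O := gen eta D (cP ti) MvPolynomial.X
  let e : Fin n × ℕ → P := fun i => co eta (H ^ l - rmap cP rfl Y) i.1 i.2
  obtain ⟨C, hC, hcore⟩ := s1_core (Ω := Ω) (σ := σ) e (by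
    intro x
    by_contra hno
    push Not at hno
    let ev : P →ₐ[k₀] Ω := (MvPolynomial.aeval x : P →ₐ[Ω] Ω).restrictScalars k₀
    have hev : ∀ q : P, ev q = MvPolynomial.eval x q := fun q => by
      change MvPolynomial.aeval x q = _
      rw [← MvPolynomial.coe_aeval_eq_eval]; rfl
    have hevC : ev (cP ti) = ti := by
      rw [hev, hcP, MvPolynomial.eval_C]
    apply hY (rmap ev hevC H)
    rw [← map_pow, ← sub_eq_zero]
    have h1 : rmap ev hevC (H ^ l) - Y = rmap ev hevC (H ^ l - rmap cP rfl Y) := by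
      rw [map_sub, rmap_rmap]
      congr 1
      apply ext_co (eta := eta)
      intro i j
      rw [co_rmap]
      change _ = ev (cP _)
      rw [hev, hcP, MvPolynomial.eval_C]
    rw [h1]
    apply ext_co (eta := eta)
    intro i j
    rw [co_rmap, co_zero, hev]
    exact hno (i, j))
  refine ⟨C, hC, fun A hA ta hta YA hYA k' _ _ φ h hdeg heq => ?_⟩
  let PA := MvPolynomial σ A
  let cA : A →ₐ[k₀] PA := IsScalarTower.toAlgHom k₀ A PA
  have hcA : ∀ a, cA a = MvPolynomial.C a := fun a => rfl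
  let HA : SRt k₀ p m (cA ta) O := gen eta D (cA ta) MvPolynomial.X
  let e' : Fin n × ℕ → PA := fun i => co eta (HA ^ l - rmap cA rfl YA) i.1 i.2
  let ι : PA →ₐ[k₀] P :=
    { MvPolynomial.map (A.val : A →+* Ω) with
      commutes' := fun c => by
        change MvPolynomial.map (A.val : A →+* Ω) (MvPolynomial.C (algebraMap k₀ A c)) = _
        rw [MvPolynomial.map_C]; rfl }
  have hι : ∀ q, ι q = MvPolynomial.map (A.val : A →+* Ω) q := fun q => rfl
  have hιta : ι (cA ta) = cP ti := by
    rw [hι, hcA, MvPolynomial.map_C, hcP]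
    exact congrArg MvPolynomial.C hta
  have hHA : rmap ι hιta HA = H := by
    change rmap ι hιta (gen eta D (cA ta) MvPolynomial.X) = gen eta D (cP ti) MvPolynomial.X
    rw [rmap_gen]
    congr 1
    funext i
    rw [hι, MvPolynomial.map_X]
  have hYAP : rmap ι hιta (rmap cA rfl YA) = rmap cP rfl Y := by
    rw [← hYA, rmap_rmap, rmap_rmap]
    apply ext_co (eta := eta)
    intro i j
    rw [co_rmap, co_rmap]
    change ι (cA _) = cP (A.val _)
    rw [hι, hcA, MvPolynomial.map_C, hcP]; rfl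
  obtain ⟨⟨i, j⟩, hij⟩ := hcore A.toSubring hA e' (by
    rintro ⟨i, j⟩
    change ι (co eta (HA ^ l - rmap cA rfl YA) i j) = co eta (H ^ l - rmap cP rfl Y) i j
    rw [← co_rmap eta ι hιta, map_sub, map_pow, hHA, hYAP]) (k' := k') (φ : A →+* k')
    (fun i => co eta h i.1 (i.2 : ℕ))
  apply hij
  let ev : PA →ₐ[k₀] k' :=
    { MvPolynomial.eval₂Hom (φ : A →+* k') (fun i : σ => co eta h i.1 (i.2 : ℕ)) with
      commutes' := fun c => by
        change MvPolynomial.eval₂Hom (φ : A →+* k') _ (MvPolynomial.C (algebraMap k₀ A c)) = _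
        rw [MvPolynomial.eval₂Hom_C]
        exact φ.commutes c }
  have hev : ∀ q, ev q = MvPolynomial.eval₂ (φ : A →+* k')
      (fun i : σ => co eta h i.1 (i.2 : ℕ)) q := fun q => rfl
  have hevt : ev (cA ta) = φ ta := by
    rw [hev, hcA, MvPolynomial.eval₂_C]; rfl
  have h1 : rmap ev hevt HA = h := by
    change rmap ev hevt (gen eta D (cA ta) MvPolynomial.X) = h
    rw [rmap_gen]
    conv_rhs => rw [eq_gen eta D h hdeg]
    congr 1
    funext i
    rw [hev, MvPolynomial.eval₂_X]
  have h2 : rmap ev hevt (rmap cA rfl YA) = rmap φ rfl YA := by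
    rw [rmap_rmap]
    apply ext_co (eta := eta)
    intro i j
    rw [co_rmap, co_rmap]
    change ev (cA _) = φ _
    rw [hev, hcA, MvPolynomial.eval₂_C]; rfl
  change ev (co eta (HA ^ l - rmap cA rfl YA) i j) = 0
  rw [← co_rmap eta ev hevt, map_sub, map_pow, h1, h2, heq, sub_self, co_zero]

end Pool.QPC
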