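import Pool.Agent.QPG.Sp1

/-! # QPC, section 7: the degree bound S2 -/

set_option autoImplicit false

open Polynomial

namespace Pool.QPC

section infty

variable {k' : Type*} [Field k']

open scoped Classical in
/-- The valuation ring at infinity of `k'(z)`. -/
noncomputable abbrev Vi (k' : Type*) [Field k'] : ValuationSubring (RatFunc k') :=
  (RatFunc.inftyValuation k').valuationSubring

theorem mem_Vi_iff (q : k'[X]) (e : ℕ) :
    algebraMap k'[X] (RatFunc k') q * (RatFunc.X⁻¹) ^ e ∈ Vi k' ↔ q.natDegree ≤ e := by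
  classical
  rw [Vi, Valuation.mem_valuationSubring_iff]
  by_cases hq : q = 0
  · subst hq; simp
  · rw [map_mul, RatFunc.inftyValuation_apply, RatFunc.inftyValuation.polynomial (F := k') hq,
      map_pow, map_inv₀, RatFunc.inftyValuation.X, ← WithZero.exp_neg, ← WithZero.exp_nsmul,
      ← WithZero.exp_add, ← WithZero.exp_zero, WithZero.exp_le_exp]
    simp

theorem C_mem_Vi (c : k') : algebraMap k'[X] (RatFunc k') (C c) ∈ Vi k' := by
  have := (mem_Vi_iff (C c) 0).mpr (by simp)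
  simpa using this

theorem Xinv_mem_Vi : (RatFunc.X⁻¹ : RatFunc k') ∈ Vi k' := by
  have := (mem_Vi_iff (1 : k'[X]) 1).mpr (by simp)
  simpa using this

variable {L : Type*} [CommRing L] (j : RatFunc k' →+* L)

/-- `x` is integral over the valuation ring at infinity. -/
def IntL (x : L) : Prop := (j.comp (Vi k').subtype).IsIntegralElem x

variable {j}

theorem IntL.add {x y : L} (hx : IntL j x) (hy : IntL j y) : IntL j (x + y) :=
  RingHom.IsIntegralElem.add _ hx hy

theorem IntL.mul {x y : L} (hx : IntL j x) (hy : IntL j y) : IntL j (x * y) :=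
  RingHom.IsIntegralElem.mul _ hx hy

theorem IntL.zero : IntL j (0 : L) := RingHom.isIntegralElem_zero _

theorem IntL.one : IntL j (1 : L) := RingHom.isIntegralElem_one _

theorem IntL.sum {ι : Type*} (s : Finset ι) (f : ι → L) (h : ∀ i ∈ s, IntL j (f i)) :
    IntL j (∑ i ∈ s, f i) := by
  classical
  induction s using Finset.induction_on with
  | empty => simpa using IntL.zero
  | insert a s ha ih =>
    rw [Finset.sum_insert ha]
    exact (h a (Finset.mem_insert_self _ _)).add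
      (ih fun i hi => h i (Finset.mem_insert_of_mem hi))

theorem IntL.pow {x : L} (hx : IntL j x) (n : ℕ) : IntL j (x ^ n) := by
  induction n with
  | zero => simpa using IntL.one
  | succ n ih => rw [pow_succ]; exact ih.mul hx

theorem IntL.of_pow {x : L} {n : ℕ} (hn : 0 < n) (hx : IntL j (x ^ n)) : IntL j x := by
  let _ : Algebra (Vi k') L := (j.comp (Vi k').subtype).toAlgebra
  exact IsIntegral.of_pow (R := Vi k') hn hx

theorem IntL.of_mem {x : RatFunc k'} (hx : x ∈ Vi k') : IntL j (j x) :=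
  RingHom.isIntegralElem_map _ (x := (⟨x, hx⟩ : Vi k'))

theorem IntL.of_root {y : L} (P : (RatFunc k')[X]) (hP : P.Monic) (h0 : P.eval₂ j y = 0)
    (hc : ∀ i, P.coeff i ∈ Vi k') : IntL j y := by
  have hsub : (↑P.coeffs : Set (RatFunc k')) ⊆ ((Vi k').toSubring : Set (RatFunc k')) := by
    intro a ha
    obtain ⟨i, -, rfl⟩ := Polynomial.mem_coeffs_iff.mp ha
    exact hc i
  refine ⟨P.toSubring (Vi k').toSubring hsub, ?_, ?_⟩
  · exact (Polynomial.monic_toSubring P (Vi k').toSubring hsub).mpr hP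
  · have h1 : (P.toSubring (Vi k').toSubring hsub).map (Vi k').subtype = P :=
      Polynomial.map_toSubring P (Vi k').toSubring hsub
    rw [← Polynomial.eval₂_map, h1]
    exact h0

theorem IntL.descend {x : RatFunc k'} (hj : Function.Injective j) (hx : IntL j (j x)) :
    x ∈ Vi k' := by
  obtain ⟨P, hP, h0⟩ := hx
  have h1 : P.eval₂ (Vi k').subtype x = 0 := by
    apply hj
    rw [map_zero, Polynomial.hom_eval₂]
    exact h0
  have h2 : IsIntegral (Vi k') x := ⟨P, hP, h1⟩
  obtain ⟨y, hy⟩ := IsIntegrallyClosed.isIntegral_iff.mp h2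
  rw [← hy]
  exact y.2

end infty

section bound

variable {k₀ : Type*} [CommRing k₀] {O : Type*} [CommRing O] [Algebra k₀[X] O]

/-- The trace of an element of `S f O` comes from the base ring. -/
theorem trace_base {B : Type*} [CommRing B] {R : Type*} [CommRing R] [Algebra R O] (f : R →+* B)
    {G : Type*} [Group G] [Fintype G] [MulSemiringAction G O] [SMulCommClass G R O]
    (hinv : ∀ a : O, (∀ s : G, s • a = a) → ∃ r, a = algebraMap R O r) (x : S f O) :
    ∃ T : B, ∑ s : G, s • x = algebraMap B (S f O) T := by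
  refine S.induction_on f (P := fun x => ∃ T : B, ∑ s : G, s • x = algebraMap B (S f O) T) x ?_ ?_
  · intro b a
    obtain ⟨r, hr⟩ := hinv (∑ s : G, s • a) (fun t => by
      rw [Finset.smul_sum]
      exact Fintype.sum_equiv (Equiv.mulLeft t) _ _ (fun s => by
        rw [Equiv.coe_mulLeft, mul_smul]))
    refine ⟨b * f r, ?_⟩
    have : ∑ s : G, s • (algebraMap B (S f O) b * S.inc f O a) =
        algebraMap B (S f O) b * S.inc f O (∑ s : G, s • a) := by
      rw [map_sum, Finset.mul_sum]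
      refine Finset.sum_congr rfl fun s _ => ?_
      rw [smul_mul', S.smul_algebraMap, S.smul_inc]
    rw [this, hr, S.inc_algebraMap, map_mul]
  · rintro x y ⟨T, hT⟩ ⟨T', hT'⟩
    refine ⟨T + T', ?_⟩
    rw [map_add, ← hT, ← hT', ← Finset.sum_add_distrib]
    exact Finset.sum_congr rfl fun s _ => smul_add _ _ _

theorem natDegree_pw {k' : Type*} [Field k'] [Algebra k₀ k'] {p : ℕ} (hp : 1 ≤ p) (m : ℕ) (ti : k')
    (r : k₀[X]) : (pw (k := k₀) m (vz p ti) r).natDegree ≤ p * m * r.natDegree := by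
  have h1 : (vz p ti).natDegree ≤ p := by
    rw [vz]
    refine (natDegree_C_mul_le _ _).trans ((natDegree_sub_le _ _).trans ?_)
    rw [natDegree_X_pow, max_le_iff]
    exact ⟨le_rfl, natDegree_X_le.trans hp⟩
  have h2 : pw (k := k₀) m (vz p ti) r = aeval ((vz p ti) ^ m) r := rfl
  rw [h2, aeval_eq_sum_range]
  apply natDegree_sum_le_of_forall_le
  intro i hi
  rw [Finset.mem_range] at hi
  refine (natDegree_smul_le _ _).trans ((natDegree_pow_le).trans ?_)
  have h3 : ((vz p ti) ^ m).natDegree ≤ m * p :=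
    natDegree_pow_le.trans (Nat.mul_le_mul_left _ h1)
  calc i * ((vz p ti) ^ m).natDegree ≤ r.natDegree * (m * p) :=
        Nat.mul_le_mul (by omega) h3
    _ = p * m * r.natDegree := by ring

variable {k' : Type*} [Field k'] [Algebra k₀ k'] {p m : ℕ} {ti : k'}

/-- `k₀[X] → k'(z)` -/
noncomputable abbrev f1 (k₀ : Type*) [CommRing k₀] {k' : Type*} [Field k'] [Algebra k₀ k']
    (p m : ℕ) (ti : k') : k₀[X] →+* RatFunc k' :=
  (algebraMap k'[X] (RatFunc k')).comp (pw (k := k₀) m (vz p ti))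

/-- Integrality at infinity of the elements of `O`. -/
theorem inc_int (hp : 1 ≤ p) {c : O} (P : k₀[X][X]) (hP : P.Monic)
    (h0 : P.eval₂ (algebraMap k₀[X] O) c = 0) {D : ℕ} (hD : ∀ i, (P.coeff i).natDegree ≤ D)
    {e : ℕ} (he : p * m * D ≤ e) :
    IntL (algebraMap (RatFunc k') (S (f1 k₀ p m ti) O))
      (S.inc (f1 k₀ p m ti) O c *
        (algebraMap (RatFunc k') (S (f1 k₀ p m ti) O) (RatFunc.X⁻¹)) ^ e) := by
  have hmon : (P.map (f1 k₀ p m ti)).Monic := hP.map _
  have hroot : (P.map (f1 k₀ p m ti)).eval₂ (algebraMap (RatFunc k') (S (f1 k₀ p m ti) O))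
      (S.inc (f1 k₀ p m ti) O c) = 0 := by
    rw [eval₂_map]
    have e1 : (algebraMap (RatFunc k') (S (f1 k₀ p m ti) O)).comp (f1 k₀ p m ti) =
        (S.inc (f1 k₀ p m ti) O).comp (algebraMap k₀[X] O) := by
      ext r
      · exact (S.inc_algebraMap (f1 k₀ p m ti) (O := O) (C r)).symm
      · exact (S.inc_algebraMap (f1 k₀ p m ti) (O := O) X).symm
    rw [e1, ← Polynomial.hom_eval₂, h0, map_zero]
  have hsc := scaleRoots_eval₂_eq_zero (algebraMap (RatFunc k') (S (f1 k₀ p m ti) O))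
    (s := (RatFunc.X⁻¹ : RatFunc k') ^ e) hroot
  rw [map_pow, mul_comm] at hsc
  refine IntL.of_root _ ((monic_scaleRoots_iff _).mpr hmon) hsc fun i => ?_
  rw [coeff_scaleRoots, ← pow_mul]
  by_cases hi : i < (P.map (f1 k₀ p m ti)).natDegree
  · rw [coeff_map]
    change algebraMap k'[X] (RatFunc k') (pw (k := k₀) m (vz p ti) (P.coeff i)) * _ ∈ _
    rw [mem_Vi_iff]
    refine (natDegree_pw hp m ti _).trans ((Nat.mul_le_mul_left _ (hD i)).trans (he.trans ?_))
    have : 1 ≤ (P.map (f1 k₀ p m ti)).natDegree - i := by omega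
    calc e = e * 1 := (mul_one e).symm
      _ ≤ _ := Nat.mul_le_mul_left _ this
  · rcases Nat.lt_or_eq_of_le (not_lt.mp hi) with h | h
    · rw [coeff_eq_zero_of_natDegree_lt h, zero_mul]
      exact zero_mem _
    · rw [← h, hmon.coeff_natDegree, Nat.sub_self, mul_zero, pow_zero, mul_one]
      exact one_mem _

/-- Integrality at infinity of elements of `S(k',t)` with small degrees. -/
theorem int_of_deg {n : ℕ} (eta : Module.Basis (Fin n) k₀[X] O) {G : Type*} [Group G]
    [MulSemiringAction G O] [SMulCommClass G k₀[X] O] {e : ℕ}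
    (he : ∀ (s : G) (a : Fin n), IntL (algebraMap (RatFunc k') (S (f1 k₀ p m ti) O))
      (S.inc (f1 k₀ p m ti) O (s • eta a) *
        (algebraMap (RatFunc k') (S (f1 k₀ p m ti) O) (RatFunc.X⁻¹)) ^ e))
    {x : SRt k₀ p m ti O} {D : ℕ} (hx : ∀ i j, D < j → co eta x i j = 0) (s : G) :
    IntL (algebraMap (RatFunc k') (S (f1 k₀ p m ti) O))
      (S.map (f' := f1 k₀ p m ti) (algebraMap k'[X] (RatFunc k')) (fun _ => rfl) (s • x) *
        (algebraMap (RatFunc k') (S (f1 k₀ p m ti) O) (RatFunc.X⁻¹)) ^ (D + e)) := by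
  have hdeg : ∀ i, ((S.basis _ eta).repr x i).natDegree ≤ D := by
    intro i
    rw [natDegree_le_iff_coeff_eq_zero]
    intro j hj
    exact hx i j hj
  have hsx : s • x = ∑ i, algebraMap k'[X] _ ((S.basis _ eta).repr x i) *
      S.inc _ O (s • eta i) := by
    conv_lhs => rw [← (S.basis (pw (k := k₀) m (vz p ti)) eta).sum_repr x]
    rw [Finset.smul_sum]
    refine Finset.sum_congr rfl fun i _ => ?_
    rw [Algebra.smul_def, smul_mul', S.smul_algebraMap, S.basis_apply, S.smul_inc]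
  rw [hsx, map_sum, Finset.sum_mul]
  refine IntL.sum _ _ fun i _ => ?_
  rw [map_mul, S.map_algebraMap, S.map_inc]
  have h1 : algebraMap (RatFunc k') (S (f1 k₀ p m ti) O)
        (algebraMap k'[X] (RatFunc k') ((S.basis _ eta).repr x i)) *
      S.inc (f1 k₀ p m ti) O (s • eta i) *
        (algebraMap (RatFunc k') (S (f1 k₀ p m ti) O) (RatFunc.X⁻¹)) ^ (D + e) =
      algebraMap (RatFunc k') (S (f1 k₀ p m ti) O)
        (algebraMap k'[X] (RatFunc k') ((S.basis _ eta).repr x i) * (RatFunc.X⁻¹) ^ D) *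
      (S.inc (f1 k₀ p m ti) O (s • eta i) *
        (algebraMap (RatFunc k') (S (f1 k₀ p m ti) O) (RatFunc.X⁻¹)) ^ e) := by
    rw [map_mul, map_pow]; ring
  rw [h1]
  exact (IntL.of_mem ((mem_Vi_iff _ _).mpr (hdeg i))).mul (he s i)

end bound

/-- S2: the degree of an `l`-th root is bounded, uniformly in the field and the parameter. -/
theorem s2.{u} {k₀ : Type*} [CommRing k₀] {O : Type*} [CommRing O] [Algebra k₀[X] O] {n : ℕ}
    (eta : Module.Basis (Fin n) k₀[X] O) {G : Type*} [Group G] [Fintype G]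
    [MulSemiringAction G O] [SMulCommClass G k₀[X] O] (chr : CHR G O)
    (hinv : ∀ a : O, (∀ s : G, s • a = a) → ∃ r, a = algebraMap k₀[X] O r)
    {p : ℕ} (hp : 1 ≤ p) (m : ℕ) {l : ℕ} (hl : 1 ≤ l) (D : ℕ) :
    ∃ D' : ℕ, ∀ {k' : Type u} [Field k'] [Algebra k₀ k'] (ti : k') (h Y : SRt k₀ p m ti O),
      h ^ l = Y → (∀ i j, D < j → co eta Y i j = 0) → ∀ i j, D' < j → co eta h i j = 0 := by
  classical
  obtain ⟨N, x, y, hxy, hxy'⟩ := chr
  -- integral equations
  have hfin : Module.Finite k₀[X] O := Module.Finite.of_basis eta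
  have hint : ∀ c : O, ∃ (P : k₀[X][X]) (D : ℕ), P.Monic ∧ P.eval₂ (algebraMap k₀[X] O) c = 0 ∧
      ∀ i, (P.coeff i).natDegree ≤ D := by
    intro c
    obtain ⟨P, hP, h0⟩ := Algebra.IsIntegral.isIntegral (R := k₀[X]) c
    refine ⟨P, P.support.sup fun i => (P.coeff i).natDegree, hP, h0, fun i => ?_⟩
    by_cases hi : i ∈ P.support
    · exact Finset.le_sup (f := fun i => (P.coeff i).natDegree) hi
    · rw [notMem_support_iff.mp hi]; simp
  choose P E hPm hP0 hPd using hint
  obtain ⟨e, he1, he2⟩ : ∃ e : ℕ, (∀ (s : G) (a : Fin n), p * m * E (s • eta a) ≤ e) ∧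
      ∀ (s : G) (i : Fin N), p * m * E (s • y i) ≤ e := by
    refine ⟨(Finset.univ.sup fun q : G × Fin n => p * m * E (q.1 • eta q.2)) ⊔
      (Finset.univ.sup fun q : G × Fin N => p * m * E (q.1 • y q.2)), ?_, ?_⟩
    · intro s a
      exact le_sup_of_le_left (Finset.le_sup (f := fun q : G × Fin n => p * m * E (q.1 • eta q.2))
        (Finset.mem_univ (s, a)))
    · intro s i
      exact le_sup_of_le_right (Finset.le_sup (f := fun q : G × Fin N => p * m * E (q.1 • y q.2))
        (Finset.mem_univ (s, i)))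
  obtain ⟨Dx, hDx⟩ : ∃ Dx : ℕ, ∀ i a, (eta.repr (x i) a).natDegree ≤ Dx := by
    refine ⟨Finset.univ.sup fun q : Fin N × Fin n => (eta.repr (x q.1) q.2).natDegree, ?_⟩
    intro i a
    exact Finset.le_sup (f := fun q : Fin N × Fin n => (eta.repr (x q.1) q.2).natDegree)
      (Finset.mem_univ (i, a))
  refine ⟨e + (D + e) + p * m * Dx, ?_⟩
  intro k' _ _ ti h Y hY hdY i₀ j₀ hj₀
  have hnt : Nontrivial (S (f1 k₀ p m ti) O) :=
    ⟨⟨_, _, (S.basis (f1 k₀ p m ti) eta).ne_zero i₀⟩⟩
  have hinj : Function.Injective (algebraMap (RatFunc k') (S (f1 k₀ p m ti) O)) :=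
    (algebraMap (RatFunc k') (S (f1 k₀ p m ti) O)).injective
  let ℓ : SRt k₀ p m ti O →+* S (f1 k₀ p m ti) O :=
    S.map (f' := f1 k₀ p m ti) (algebraMap k'[X] (RatFunc k')) (fun _ => rfl)
  obtain ⟨w, hw⟩ : ∃ w, w = algebraMap (RatFunc k') (S (f1 k₀ p m ti) O) (RatFunc.X⁻¹) := ⟨_, rfl⟩
  have hwi : IntL (algebraMap (RatFunc k') (S (f1 k₀ p m ti) O)) w := by
    rw [hw]; exact IntL.of_mem Xinv_mem_Vi
  have hA : ∀ (s : G) (a : Fin n), IntL (algebraMap (RatFunc k') (S (f1 k₀ p m ti) O))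
      (S.inc (f1 k₀ p m ti) O (s • eta a) * w ^ e) := fun s a => by
    rw [hw]; exact inc_int hp _ (hPm _) (hP0 _) (hPd _) (he1 s a)
  have hB : ∀ (s : G) (i : Fin N), IntL (algebraMap (RatFunc k') (S (f1 k₀ p m ti) O))
      (S.inc (f1 k₀ p m ti) O (s • y i) * w ^ e) := fun s i => by
    rw [hw]; exact inc_int hp _ (hPm _) (hP0 _) (hPd _) (he2 s i)
  -- the conjugates of `h`
  have hh : ∀ s : G, IntL (algebraMap (RatFunc k') (S (f1 k₀ p m ti) O))
      (ℓ (s • h) * w ^ (D + e)) := by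
    intro s
    apply IntL.of_pow (n := l) hl
    have h1 : (ℓ (s • h) * w ^ (D + e)) ^ l =
        (ℓ (s • Y) * w ^ (D + e)) * w ^ ((D + e) * (l - 1)) := by
      rw [mul_pow, ← map_pow, ← smul_pow', hY, ← pow_mul, mul_assoc, ← pow_add]
      congr 2
      obtain ⟨l', rfl⟩ : ∃ l', l = l' + 1 := ⟨l - 1, by omega⟩
      simp only [Nat.add_sub_cancel]
      ring
    rw [h1]
    refine IntL.mul ?_ (hwi.pow _)
    rw [hw] at hA ⊢
    exact int_of_deg eta hA hdY s
  -- the traces
  have hT : ∀ i : Fin N, ∃ T : k'[X], T.natDegree ≤ e + (D + e) ∧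
      ∑ s : G, s • (S.inc (pw (k := k₀) m (vz p ti)) O (y i) * h) = algebraMap k'[X] _ T := by
    intro i
    obtain ⟨T, hT⟩ := trace_base (pw (k := k₀) m (vz p ti)) hinv
      (S.inc (pw (k := k₀) m (vz p ti)) O (y i) * h)
    refine ⟨T, ?_, hT⟩
    rw [← mem_Vi_iff]
    apply IntL.descend hinj
    have h2 : algebraMap (RatFunc k') (S (f1 k₀ p m ti) O)
        (algebraMap k'[X] (RatFunc k') T * (RatFunc.X⁻¹) ^ (e + (D + e))) =
        ∑ s : G, (S.inc (f1 k₀ p m ti) O (s • y i) * w ^ e) * (ℓ (s • h) * w ^ (D + e)) := by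
      have h3 : ℓ (algebraMap k'[X] _ T) = algebraMap (RatFunc k') (S (f1 k₀ p m ti) O)
        (algebraMap k'[X] (RatFunc k') T) := S.map_algebraMap _ _ _
      rw [map_mul, ← h3, ← hT, map_sum, map_pow, ← hw, Finset.sum_mul]
      refine Finset.sum_congr rfl fun s _ => ?_
      have h4 : ℓ (S.inc (pw (k := k₀) m (vz p ti)) O (s • y i)) =
        S.inc (f1 k₀ p m ti) O (s • y i) := S.map_inc _ _ _
      rw [smul_mul', S.smul_inc, map_mul, h4]
      ring
    rw [h2]
    exact IntL.sum _ _ fun s _ => (hB s i).mul (hh s)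
  choose T hTd hT using hT
  -- the formula for `h`
  have hform : h = ∑ i, algebraMap k'[X] _ (T i) * S.inc (pw (k := k₀) m (vz p ti)) O (x i) := by
    have h1 : ∑ i, S.inc (pw (k := k₀) m (vz p ti)) O (x i) *
        S.inc (pw (k := k₀) m (vz p ti)) O (y i) = 1 := by
      rw [← map_one (S.inc (pw (k := k₀) m (vz p ti)) O), ← hxy, map_sum]
      simp only [map_mul]
    have h2 : ∀ s : G, s ≠ 1 → ∑ i, S.inc (pw (k := k₀) m (vz p ti)) O (x i) *
        (s • S.inc (pw (k := k₀) m (vz p ti)) O (y i)) = 0 := by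
      intro s hs
      rw [← map_zero (S.inc (pw (k := k₀) m (vz p ti)) O), ← hxy' s hs, map_sum]
      simp only [map_mul, S.smul_inc]
    conv_lhs => rw [CHR.trace h1 h2 h]
    refine Finset.sum_congr rfl fun i _ => ?_
    rw [hT, mul_comm]
  change ((S.basis _ eta).repr h i₀).coeff j₀ = 0
  rw [hform, map_sum, Finsupp.finsetSum_apply]
  apply coeff_eq_zero_of_natDegree_lt
  refine lt_of_le_of_lt ?_ hj₀
  apply natDegree_sum_le_of_forall_le
  intro i _
  rw [S.basis_repr_mul_inc]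
  refine natDegree_mul_le.trans (Nat.add_le_add (hTd i) ?_)
  exact (natDegree_pw hp m ti _).trans (Nat.mul_le_mul_left _ (hDx i i₀))

end Pool.QPC
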