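import Pool.Agent.QPG.Sp2
import Pool.Agent.QPG.S3

/-! # QPC, section 7: the specialisation over a finite field of constants -/

set_option autoImplicit false

open Polynomial

namespace Pool.QPC

section nat

variable {k₀ : Type*} [CommRing k₀] {O : Type*} [CommRing O] [Algebra k₀[X] O] {n : ℕ}
  {p m : ℕ} [Fact p.Prime] {R R' : Type*} [CommRing R] [CommRing R']
  [Algebra k₀ R] [Algebra k₀ R'] [CharP R p] [CharP R' p]
  {G : Type*} [Group G] [MulSemiringAction G O] [SMulCommClass G k₀[X] O]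

theorem rmap_tau (g : R →ₐ[k₀] R') {ti : R} {ti' : R'} (ht : g ti = ti') (x : SRt k₀ p m ti O) :
    rmap g ht (tau m ti x) = tau m ti' (rmap g ht x) := by
  unfold rmap tau
  rw [S.map_map, S.map_map]
  apply map_congr'
  apply Polynomial.ringHom_ext
  · intro a
    simp [shift_C]
  · simp [shift_X]

theorem rmap_smul (g : R →ₐ[k₀] R') {ti : R} {ti' : R'} (ht : g ti = ti') (s : G)
    (x : SRt k₀ p m ti O) : rmap g ht (s • x) = s • rmap g ht x :=
  S.map_smul' _ _ s x

theorem rmap_Xn [Fintype G] (g : R →ₐ[k₀] R') {ti : R} {ti' : R'} (ht : g ti = ti')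
    (F : SRt k₀ p m ti O) (ν : G → ℕ) : rmap g ht (Xn F ν) = Xn (rmap g ht F) ν := by
  rw [Xn, Xn, map_prod]
  exact Finset.prod_congr rfl fun s _ => by rw [map_pow, rmap_smul]

theorem rmap_Yn [Fintype G] (g : R →ₐ[k₀] R') {ti : R} {ti' : R'} (ht : g ti = ti') (l : ℕ)
    (F : SRt k₀ p m ti O) (ν : G → ℕ) :
    rmap g ht (Yn m ti l F ν) = Yn m ti' l (rmap g ht F) ν := by
  rw [Yn, Yn, map_mul, map_pow, rmap_tau, rmap_Xn]

end nat

/-- Elements whose coefficients lie in a subalgebra descend to it. -/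
theorem exists_lift {k₀ : Type*} [CommRing k₀] {O : Type*} [CommRing O] [Algebra k₀[X] O] {n : ℕ}
    (eta : Module.Basis (Fin n) k₀[X] O) {p m : ℕ} {Ω : Type*} [CommRing Ω] [Algebra k₀ Ω]
    {ti : Ω} (A : Subalgebra k₀ Ω) {ta : A} (hta : A.val ta = ti) (x : SRt k₀ p m ti O)
    (hx : ∀ i j, co eta x i j ∈ A) : ∃ y : SRt k₀ p m ta O, rmap A.val hta y = x := by
  have hq : ∀ i, ∃ q : A[X], q.map (A.val : A →+* Ω) = (S.basis _ eta).repr x i := by
    intro i
    have : (S.basis _ eta).repr x i ∈ lifts (A.val : A →+* Ω) := by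
      rw [lifts_iff_coeff_lifts]
      intro j
      exact ⟨⟨_, hx i j⟩, rfl⟩
    exact (mem_lifts _).mp this
  choose q hq using hq
  refine ⟨∑ i, q i • S.basis _ eta i, ?_⟩
  apply ext_co (eta := eta)
  intro i j
  rw [co_rmap, co, Module.Basis.repr_sum_self]
  change (A.val : A →+* Ω) _ = _
  rw [← coeff_map, hq]; rfl

end Pool.QPC
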