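import Pool.Agent.QPG.Sp3

/-! # QPC, section 7: the specialisation over a finite field of constants (SPEC₀) -/

set_option autoImplicit false

open Polynomial

namespace Pool.QPC

theorem co_bound {k₀ : Type*} [CommRing k₀] {O : Type*} [CommRing O] [Algebra k₀[X] O] {n : ℕ}
    (eta : Module.Basis (Fin n) k₀[X] O) {p m : ℕ} {R : Type*} [CommRing R] [Algebra k₀ R]
    {ti : R} (x : SRt k₀ p m ti O) : ∃ D : ℕ, ∀ i j, D < j → co eta x i j = 0 := by
  refine ⟨Finset.univ.sup fun i => ((S.basis (pw (k := k₀) m (vz p ti)) eta).repr x i).natDegree,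
    fun i j hj => ?_⟩
  apply coeff_eq_zero_of_natDegree_lt
  exact lt_of_le_of_lt (Finset.le_sup
    (f := fun i => ((S.basis (pw (k := k₀) m (vz p ti)) eta).repr x i).natDegree)
    (Finset.mem_univ i)) hj

theorem co_finite {k₀ : Type*} [CommRing k₀] {O : Type*} [CommRing O] [Algebra k₀[X] O] {n : ℕ}
    (eta : Module.Basis (Fin n) k₀[X] O) {p m : ℕ} {R : Type*} [CommRing R] [Algebra k₀ R]
    {ti : R} (x : SRt k₀ p m ti O) :
    (Set.range fun q : Fin n × ℕ => co eta x q.1 q.2).Finite := by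
  obtain ⟨D, hD⟩ := co_bound eta x
  apply ((Set.finite_range fun q : Fin n × Fin (D + 1) => co eta x q.1 q.2).union
    (Set.finite_singleton (0 : R))).subset
  rintro _ ⟨⟨i, j⟩, rfl⟩
  by_cases hj : j < D + 1
  · left
    exact ⟨(i, ⟨j, hj⟩), rfl⟩
  · right
    exact hD i j (by omega)

/-- The statement of section 7 when the field of constants `k₀` is finite. -/
theorem spec0 {p : ℕ} [Fact p.Prime] {k₀ k Ω : Type*} [Field k₀] [Finite k₀] [CharP k₀ p]
    [Field k] [IsAlgClosed k] [Algebra k₀ k] [CharP k p] [Field Ω] [IsAlgClosed Ω]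
    [Algebra k₀ Ω] [CharP Ω p] {O : Type*} [CommRing O] [Algebra k₀[X] O] {n : ℕ}
    (eta : Module.Basis (Fin n) k₀[X] O) {G : Type*} [Group G] [Fintype G]
    [MulSemiringAction G O] [SMulCommClass G k₀[X] O] (chr : CHR G O)
    (hinv : ∀ a : O, (∀ s : G, s • a = a) → ∃ r, a = algebraMap k₀[X] O r)
    (m : ℕ) {l : ℕ} (hl : 1 ≤ l) (t : Ω) (ht : Transcendental k₀ t)
    (F : SRt k₀ p m t⁻¹ O) {N : ℕ} (a u al : Fin N → SRt k₀ p m t⁻¹ O)
    (hau : ∀ j, a j ^ m = F * u j) (hal : ∑ j, al j * u j = 1)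
    (hY : ∀ ν : G → ℕ, (∀ g, ν g < l) → (∃ g g', ν g ≠ ν g') →
      ∀ h : SRt k₀ p m t⁻¹ O, h ^ l ≠ Yn m t⁻¹ l F ν) :
    ∃ b : k, b ≠ 0 ∧ (∀ c : k₀, algebraMap k₀ k c ∈ Subfield.closure {b ^ (p - 1)}) ∧
      b ∈ Subfield.closure {b ^ (p - 1)} ∧
      ∃ (F' : SRt k₀ p m b⁻¹ O) (a' u' al' : Fin N → SRt k₀ p m b⁻¹ O),
        (∀ i j, co eta F' i j ∈ Subfield.closure {b ^ (p - 1)}) ∧
        (∀ r i j, co eta (a' r) i j ∈ Subfield.closure {b ^ (p - 1)} ∧
          co eta (u' r) i j ∈ Subfield.closure {b ^ (p - 1)} ∧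
          co eta (al' r) i j ∈ Subfield.closure {b ^ (p - 1)}) ∧
        (∀ j, a' j ^ m = F' * u' j) ∧ ∑ j, al' j * u' j = 1 ∧
        ∀ ν : G → ℕ, (∀ g, ν g < l) → (∃ g g', ν g ≠ ν g') →
          ∀ h : SRt k₀ p m b⁻¹ O, h ^ l ≠ Yn m b⁻¹ l F' ν := by
  classical
  have hp : p.Prime := Fact.out
  have ht0 : t ≠ 0 := by
    rintro rfl
    exact ht isAlgebraic_zero
  -- the degree bound
  obtain ⟨D, hD⟩ : ∃ D : ℕ, ∀ (ν : G → Fin l) i j, D < j →
      co eta (Yn m t⁻¹ l F (fun g => (ν g : ℕ))) i j = 0 := by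
    choose D hD using fun ν : G → Fin l => co_bound eta (Yn m t⁻¹ l F (fun g => (ν g : ℕ)))
    refine ⟨Finset.univ.sup D, fun ν i j hj => hD ν i j (lt_of_le_of_lt ?_ hj)⟩
    exact Finset.le_sup (Finset.mem_univ ν)
  obtain ⟨D', hD'⟩ := s2 eta chr hinv hp.one_le m hl D
  -- the finite sets of S1
  have hs1 : ∀ ν : {ν : G → Fin l // ∃ g g', (ν g : ℕ) ≠ ν g'}, _ := fun ν =>
    s1 eta (p := p) (m := m) t⁻¹ (Yn m t⁻¹ l F (fun g => (ν.1 g : ℕ))) l
      (hY (fun g => (ν.1 g : ℕ)) (fun g => (ν.1 g).2) ν.2) D'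
  choose C hCf hC using hs1
  obtain ⟨T, hT⟩ : ∃ T : Set Ω, T = ({t, t⁻¹} ∪ (Set.range fun q : Fin n × ℕ => co eta F q.1 q.2) ∪
      (⋃ r, Set.range fun q : Fin n × ℕ => co eta (a r) q.1 q.2) ∪
      (⋃ r, Set.range fun q : Fin n × ℕ => co eta (u r) q.1 q.2) ∪
      (⋃ r, Set.range fun q : Fin n × ℕ => co eta (al r) q.1 q.2) ∪ ⋃ ν, C ν) := ⟨_, rfl⟩
  have hTf : T.Finite := by
    rw [hT]
    refine Set.Finite.union (Set.Finite.union (Set.Finite.union (Set.Finite.union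
      (Set.Finite.union (by simp) (co_finite eta F)) ?_) ?_) ?_) ?_
    · exact Set.finite_iUnion fun r => co_finite eta _
    · exact Set.finite_iUnion fun r => co_finite eta _
    · exact Set.finite_iUnion fun r => co_finite eta _
    · exact Set.finite_iUnion fun ν => hCf ν
  obtain ⟨A, hA⟩ : ∃ A : Subalgebra k₀ Ω, A = Algebra.adjoin k₀ T := ⟨_, rfl⟩
  have hTA : T ⊆ A := by rw [hA]; exact Algebra.subset_adjoin
  have hfgA : Algebra.FiniteType k₀ A := by
    rw [hA]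
    exact (Subalgebra.fg_iff_finiteType _).mp ⟨hTf.toFinset, by rw [hTf.coe_toFinset]⟩
  have hcA : CharP A p := charP_of_injective_algebraMap (algebraMap k₀ A).injective p
  have htA : t ∈ A := hTA (by rw [hT]; simp)
  have htiA : t⁻¹ ∈ A := hTA (by rw [hT]; simp)
  have hFA : ∀ i j, co eta F i j ∈ A := fun i j => hTA (by
    rw [hT]
    exact Or.inl (Or.inl (Or.inl (Or.inl (Or.inr ⟨(i, j), rfl⟩)))))
  have haA : ∀ r i j, co eta (a r) i j ∈ A := fun r i j => hTA (by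
    rw [hT]
    exact Or.inl (Or.inl (Or.inl (Or.inr (Set.mem_iUnion.mpr ⟨r, (i, j), rfl⟩)))))
  have huA : ∀ r i j, co eta (u r) i j ∈ A := fun r i j => hTA (by
    rw [hT]
    exact Or.inl (Or.inl (Or.inr (Set.mem_iUnion.mpr ⟨r, (i, j), rfl⟩))))
  have halA : ∀ r i j, co eta (al r) i j ∈ A := fun r i j => hTA (by
    rw [hT]
    exact Or.inl (Or.inr (Set.mem_iUnion.mpr ⟨r, (i, j), rfl⟩)))
  have hCA : ∀ ν, C ν ⊆ A := fun ν x hx => hTA (by
    rw [hT]
    exact Or.inr (Set.mem_iUnion.mpr ⟨ν, hx⟩))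
  obtain ⟨tA, htA'⟩ : ∃ tA : A, A.val tA = t := ⟨⟨t, htA⟩, rfl⟩
  obtain ⟨tiA, htiA'⟩ : ∃ tiA : A, A.val tiA = t⁻¹ := ⟨⟨t⁻¹, htiA⟩, rfl⟩
  obtain ⟨FA, hFA⟩ := exists_lift eta A htiA' F hFA
  choose aA haA using fun r => exists_lift eta A htiA' (a r) (haA r)
  choose uA huA using fun r => exists_lift eta A htiA' (u r) (huA r)
  choose alA halA using fun r => exists_lift eta A htiA' (al r) (halA r)
  have hval : Function.Injective A.val := Subtype.val_injective
  have hinjA := rmap_injective (p := p) (m := m) eta A.val hval htiA'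
  have hau' : ∀ j, aA j ^ m = FA * uA j := fun j => by
    apply hinjA
    rw [map_pow, map_mul, haA, hFA, huA, hau]
  have hal' : ∑ j, alA j * uA j = 1 := by
    apply hinjA
    rw [map_sum, map_one, ← hal]
    exact Finset.sum_congr rfl fun j _ => by rw [map_mul, halA, huA]
  have hYA : ∀ ν : G → ℕ, rmap A.val htiA' (Yn m tiA l FA ν) = Yn m t⁻¹ l F ν := fun ν => by
    rw [rmap_Yn, hFA]
  -- the specialisation
  have htrA : Transcendental k₀ tA := by
    intro halg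
    apply ht
    rw [← htA']
    exact halg.algHom A.val
  obtain ⟨φ, hφ⟩ := s3_spec p (k := k) tA htrA
  have hmul : tA * tiA = 1 := by
    apply hval
    rw [map_mul, map_one, htA', htiA', mul_inv_cancel₀ ht0]
  have hmul' : φ tA * φ tiA = 1 := by rw [← map_mul, hmul, map_one]
  have hb0 : φ tA ≠ 0 := left_ne_zero_of_mul_eq_one hmul'
  have hφti : φ tiA = (φ tA)⁻¹ := eq_inv_of_mul_eq_one_right hmul'
  refine ⟨φ tA, hb0, fun c => ?_, hφ tA, rmap φ hφti FA, fun r => rmap φ hφti (aA r),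
    fun r => rmap φ hφti (uA r), fun r => rmap φ hφti (alA r), ?_, ?_, ?_, ?_, ?_⟩
  · rw [← φ.commutes c]
    exact hφ _
  · intro i j
    rw [co_rmap]; exact hφ _
  · intro r i j
    rw [co_rmap, co_rmap, co_rmap]
    exact ⟨hφ _, hφ _, hφ _⟩
  · intro j
    rw [← map_pow, hau', map_mul]
  · rw [← map_one (rmap φ hφti), ← hal', map_sum]
    exact Finset.sum_congr rfl fun j _ => by rw [map_mul]
  · intro ν hν hνn h hh
    obtain ⟨ν', rfl⟩ : ∃ ν' : G → Fin l, ν = fun g => (ν' g : ℕ) :=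
      ⟨fun g => ⟨ν g, hν g⟩, rfl⟩
    rw [← rmap_Yn] at hh
    have hdY : ∀ i j, D < j →
        co eta (rmap φ hφti (Yn m tiA l FA (fun g => (ν' g : ℕ)))) i j = 0 := by
      intro i j hj
      rw [co_rmap]
      have : co eta (Yn m tiA l FA (fun g => (ν' g : ℕ))) i j = 0 := by
        apply hval
        rw [map_zero, ← co_rmap eta A.val htiA', hYA]
        exact hD ν' i j hj
      rw [this, map_zero]
    have hdh := hD' _ h _ hh hdY
    have key := hC ⟨ν', hνn⟩ A (hCA _) tiA htiA' _ (hYA _) φ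
    clear hdY
    have key2 : ∀ (ti' : k) (hti' : φ tiA = ti') (h : SRt k₀ p m ti' O),
        (∀ i j, D' < j → co eta h i j = 0) →
        h ^ l ≠ rmap φ hti' (Yn m tiA l FA (fun g => (ν' g : ℕ))) := by
      intro ti' hti'
      subst hti'
      exact key
    exact key2 _ hφti h hdh hh

end Pool.QPC
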