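import Pool.Agent.QPG.Sp3b

/-! # QPC, section 7: transport of the rings `S f O` along a descent `O₀ → O` of the basis -/

set_option autoImplicit false

open Polynomial

namespace Pool.QPC

section theta

variable {R₀ R B B' O₀ O : Type*} [CommRing R₀] [CommRing R] [CommRing B] [CommRing B']
  [CommRing O₀] [CommRing O] [Algebra R₀ O₀] [Algebra R O]
  (i₀ : R₀ →+* R) (ψ : O₀ →+* O) (hψ : ∀ r, ψ (algebraMap R₀ O₀ r) = algebraMap R O (i₀ r))
  (f₀ : R₀ →+* B) (f : R →+* B) (hf : ∀ r, f₀ r = f (i₀ r))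
  (f₀' : R₀ →+* B') (f' : R →+* B') (hf' : ∀ r, f₀' r = f' (i₀ r))
  {n : ℕ} (eta₀ : Module.Basis (Fin n) R₀ O₀) (eta : Module.Basis (Fin n) R O)
  (hb : ∀ i, ψ (eta₀ i) = eta i)

/-- the map `S f₀ O₀ → S f O` -/
noncomputable def Theta : S f₀ O₀ →+* S f O :=
  S.lift f₀ (algebraMap B (S f O)) ((S.inc f O).comp ψ) (fun r => by
    rw [RingHom.comp_apply, hψ, S.inc_algebraMap, hf])

theorem Theta_algebraMap (b : B) :
    Theta i₀ ψ hψ f₀ f hf (algebraMap B (S f₀ O₀) b) = algebraMap B (S f O) b := by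
  rw [Theta, S.lift_algebraMap]

theorem Theta_inc (a : O₀) :
    Theta i₀ ψ hψ f₀ f hf (S.inc f₀ O₀ a) = S.inc f O (ψ a) := by
  rw [Theta, S.lift_inc]; rfl

include hb in
theorem Theta_repr (x : S f₀ O₀) (i : Fin n) :
    (S.basis f eta).repr (Theta i₀ ψ hψ f₀ f hf x) i = (S.basis f₀ eta₀).repr x i := by
  have h1 : Theta i₀ ψ hψ f₀ f hf x = ∑ j, (S.basis f₀ eta₀).repr x j • S.basis f eta j := by
    conv_lhs => rw [← (S.basis f₀ eta₀).sum_repr x]
    rw [map_sum]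
    refine Finset.sum_congr rfl fun j _ => ?_
    rw [Algebra.smul_def, map_mul, Theta_algebraMap, S.basis_apply, Theta_inc, hb,
      ← S.basis_apply f eta, ← Algebra.smul_def]
  rw [h1, Module.Basis.repr_sum_self]

include hb in
theorem Theta_injective : Function.Injective (Theta i₀ ψ hψ f₀ f hf) := by
  intro x y hxy
  apply (S.basis f₀ eta₀).repr.injective
  ext i
  rw [← Theta_repr i₀ ψ hψ f₀ f hf eta₀ eta hb, ← Theta_repr i₀ ψ hψ f₀ f hf eta₀ eta hb, hxy]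

include hb in
theorem Theta_surjective : Function.Surjective (Theta i₀ ψ hψ f₀ f hf) := by
  intro y
  refine ⟨∑ j, (S.basis f eta).repr y j • S.basis f₀ eta₀ j, ?_⟩
  apply (S.basis f eta).repr.injective
  ext i
  rw [Theta_repr i₀ ψ hψ f₀ f hf eta₀ eta hb, Module.Basis.repr_sum_self]

theorem Theta_map (h : B →+* B') (hh₀ : ∀ r, h (f₀ r) = f₀' r) (hh : ∀ r, h (f r) = f' r)
    (x : S f₀ O₀) : Theta i₀ ψ hψ f₀' f' hf' (S.map h hh₀ x) =
      S.map h hh (Theta i₀ ψ hψ f₀ f hf x) := by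
  refine S.induction_on f₀ (P := fun x => Theta i₀ ψ hψ f₀' f' hf' (S.map h hh₀ x) =
      S.map h hh (Theta i₀ ψ hψ f₀ f hf x)) x ?_ ?_
  · intro b a
    rw [map_mul, map_mul, map_mul, map_mul, S.map_algebraMap, S.map_inc, Theta_algebraMap,
      Theta_inc, Theta_algebraMap, Theta_inc, S.map_algebraMap, S.map_inc]
  · intro x y hx hy
    rw [map_add, map_add, map_add, map_add, hx, hy]

variable {G : Type*} [Group G] [MulSemiringAction G O₀] [SMulCommClass G R₀ O₀]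
  [MulSemiringAction G O] [SMulCommClass G R O] (hs : ∀ (s : G) (a : O₀), ψ (s • a) = s • ψ a)

include hs in
theorem Theta_smul (s : G) (x : S f₀ O₀) :
    Theta i₀ ψ hψ f₀ f hf (s • x) = s • Theta i₀ ψ hψ f₀ f hf x := by
  refine S.induction_on f₀ (P := fun x => Theta i₀ ψ hψ f₀ f hf (s • x) =
    s • Theta i₀ ψ hψ f₀ f hf x) x ?_ ?_
  · intro b a
    rw [smul_mul', S.smul_algebraMap, S.smul_inc, map_mul, map_mul, Theta_algebraMap, Theta_inc,
      Theta_inc, smul_mul', S.smul_algebraMap, S.smul_inc, hs]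
  · intro x y hx hy
    rw [smul_add, map_add, map_add, smul_add, hx, hy]

end theta

section thetaS

variable {k₀ k R O₀ O : Type*} [CommRing k₀] [CommRing k] [Algebra k₀ k] [CommRing R]
  [Algebra k₀ R] [Algebra k R] [IsScalarTower k₀ k R]
  [CommRing O₀] [CommRing O] [Algebra k₀[X] O₀] [Algebra k[X] O]
  (ψ : O₀ →+* O)
  (hψ : ∀ r, ψ (algebraMap k₀[X] O₀ r) = algebraMap k[X] O (mapRingHom (algebraMap k₀ k) r))
  {n : ℕ} (eta₀ : Module.Basis (Fin n) k₀[X] O₀) (eta : Module.Basis (Fin n) k[X] O)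
  (hb : ∀ i, ψ (eta₀ i) = eta i) {p m : ℕ} (ti : R)

theorem pw_map (y : R[X]) (r : k₀[X]) :
    pw (k := k₀) m y r = pw (k := k) m y (mapRingHom (algebraMap k₀ k) r) := by
  change aeval (y ^ m) r = aeval (y ^ m) (r.map (algebraMap k₀ k))
  rw [aeval_map_algebraMap]

/-- the map `S(R,t) → S(R,t)` from the ring over `k₀` to the ring over `k` -/
noncomputable def ThS : SRt k₀ p m ti O₀ →+* SRt k p m ti O :=
  Theta (mapRingHom (algebraMap k₀ k)) ψ hψ _ _ (pw_map _)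

include hb in
theorem ThS_repr (x : SRt k₀ p m ti O₀) (i : Fin n) :
    (S.basis (pw (k := k) m (vz p ti)) eta).repr (ThS ψ hψ ti x) i =
      (S.basis (pw (k := k₀) m (vz p ti)) eta₀).repr x i :=
  Theta_repr _ ψ hψ _ _ _ eta₀ eta hb x i

include hb in
theorem ThS_injective : Function.Injective (ThS ψ hψ (p := p) (m := m) ti) :=
  Theta_injective _ ψ hψ _ _ _ eta₀ eta hb

include hb in
theorem ThS_surjective : Function.Surjective (ThS ψ hψ (p := p) (m := m) ti) :=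
  Theta_surjective _ ψ hψ _ _ _ eta₀ eta hb

variable {G : Type*} [Group G] [MulSemiringAction G O₀] [SMulCommClass G k₀[X] O₀]
  [MulSemiringAction G O] [SMulCommClass G k[X] O] (hs : ∀ (s : G) (a : O₀), ψ (s • a) = s • ψ a)

include hs in
theorem ThS_smul (s : G) (x : SRt k₀ p m ti O₀) : ThS ψ hψ ti (s • x) = s • ThS ψ hψ ti x :=
  Theta_smul _ ψ hψ _ _ _ hs s x

theorem ThS_tau [Fact p.Prime] [CharP R p] (x : SRt k₀ p m ti O₀) :
    ThS ψ hψ ti (tau m ti x) = tau m ti (ThS ψ hψ ti x) :=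
  Theta_map _ ψ hψ _ _ _ _ _ _ _ _ _ x

include hs in
theorem ThS_Xn [Fintype G] (F : SRt k₀ p m ti O₀) (ν : G → ℕ) :
    ThS ψ hψ ti (Xn F ν) = Xn (ThS ψ hψ ti F) ν := by
  rw [Xn, Xn, map_prod]
  exact Finset.prod_congr rfl fun s _ => by rw [map_pow, ThS_smul ψ hψ ti hs]

include hs in
theorem ThS_Yn [Fact p.Prime] [CharP R p] [Fintype G] (l : ℕ) (F : SRt k₀ p m ti O₀)
    (ν : G → ℕ) : ThS ψ hψ ti (Yn m ti l F ν) = Yn m ti l (ThS ψ hψ ti F) ν := by
  rw [Yn, Yn, map_mul, map_pow, ThS_tau, ThS_Xn ψ hψ ti hs]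

end thetaS

end Pool.QPC
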