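import Pool.Agent.QPG.B1

set_option autoImplicit false

open Polynomial

namespace Pool.QPC

/-- not an `l`-th power up to `l`-th powers, for all non-constant exponents -/
def NTS {G A : Type*} [Group G] [Fintype G] [CommRing A] [MulSemiringAction G A] (l : ℕ)
    (F : A) : Prop :=
  ∀ ν : G → ℕ, (∀ g, ν g < l) → (∃ g g', ν g ≠ ν g') → ∀ a h : A, a ≠ 0 →
    a ^ l * Xn F ν ≠ h ^ l

theorem inj_of_basis {R O : Type*} [CommRing R] [CommRing O] [Nontrivial O] [Algebra R O] {n : ℕ}
    (eta : Module.Basis (Fin n) R O) : Function.Injective (algebraMap R O) := by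
  rw [injective_iff_map_eq_zero]
  intro r hr
  have hn : Nonempty (Fin n) := by
    by_contra h
    rw [not_nonempty_iff] at h
    have h1 : (1 : O) = 0 := by
      apply eta.repr.injective
      ext i
      exact (h.false i).elim
    exact one_ne_zero h1
  obtain ⟨i⟩ := hn
  have h1 : r • eta i = 0 := by rw [Algebra.smul_def, hr, zero_mul]
  have h2 : eta.repr (r • eta i) i = 0 := by rw [h1, map_zero]; rfl
  rw [map_smul, Finsupp.smul_apply, Module.Basis.repr_self, Finsupp.single_eq_same, smul_eq_mul,
    mul_one] at h2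
  exact h2

theorem cert_of_pow {A : Type*} [CommRing A] [IsDedekindDomain A] {m : ℕ} (hm : 0 < m)
    {f : A} (hf : f ≠ 0) (J : Ideal A) (h : Ideal.span {f} = J ^ m) : Cert m f := by
  classical
  have hJ0 : J ≠ ⊥ := by
    rintro rfl
    rw [Ideal.bot_pow hm.ne', Ideal.span_singleton_eq_bot] at h
    exact hf h
  obtain ⟨s, hs⟩ := (isNoetherianRing_iff_ideal_fg A).mp inferInstance J
  have h1 : ∀ a ∈ s, ∃ u, a ^ m = f * u := by
    intro a ha
    have h2 : a ^ m ∈ Ideal.span {f} := by
      rw [h]
      apply Ideal.pow_mem_pow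
      rw [← hs]
      exact Ideal.subset_span ha
    rw [Ideal.mem_span_singleton] at h2
    exact h2
  choose! u hu using h1
  have htop : Ideal.span (u '' (s : Set A)) = ⊤ := by
    by_contra hne
    obtain ⟨M, hM, hle⟩ := Ideal.exists_le_maximal _ hne
    have hprime := hM.isPrime
    have h3 : J ≤ J * M := by
      rw [← hs, Ideal.span_le]
      intro a ha
      change a ∈ Ideal.span (s : Set A) * M
      rw [hs]
      have hdvd : J ∣ Ideal.span {a} := by
        rw [Ideal.dvd_iff_le, Ideal.span_singleton_le_iff_mem, ← hs]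
        exact Ideal.subset_span ha
      obtain ⟨B, hB⟩ := hdvd
      have h4 : J ^ m * B ^ m ≤ J ^ m * M := by
        rw [← mul_pow, ← hB, Ideal.span_singleton_pow, hu a ha, ← Ideal.span_singleton_mul_span_singleton,
          h]
        apply Ideal.mul_mono_right
        rw [Ideal.span_singleton_le_iff_mem]
        exact hle (Ideal.subset_span ⟨a, ha, rfl⟩)
      have h5 : B ^ m ≤ M := by
        have hJm : J ^ m ≠ 0 := pow_ne_zero _ hJ0
        rw [← Ideal.dvd_iff_le] at h4 ⊢
        exact (mul_dvd_mul_iff_left hJm).mp h4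
      have h6 : B ≤ M := hprime.le_of_pow_le h5
      have h7 : a ∈ Ideal.span {a} := Ideal.mem_span_singleton_self a
      rw [hB] at h7
      exact Ideal.mul_mono_right h6 h7
    have h8 : J * M ∣ J * ⊤ := by
      rw [Ideal.mul_top, Ideal.dvd_iff_le]; exact h3
    have h9 : M ∣ ⊤ := (mul_dvd_mul_iff_left (a := J) hJ0).mp h8
    rw [Ideal.dvd_iff_le, top_le_iff] at h9
    exact hM.ne_top h9
  have h1top : (1 : A) ∈ Ideal.span (u '' (s : Set A)) := by rw [htop]; trivial
  rw [Ideal.span, Submodule.mem_span_image_finset_iff_exists_fun] at h1top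
  obtain ⟨c, hc⟩ := h1top
  refine ⟨s.card, fun i => (s.equivFin.symm i : A), fun i => u (s.equivFin.symm i),
    fun i => c (s.equivFin.symm i), fun i => hu _ (s.equivFin.symm i).2, ?_⟩
  rw [← hc]
  exact Equiv.sum_comp s.equivFin.symm (fun x : s => c x * u x)

end Pool.QPC
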