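import Pool.Agent.QPG.Z0
import Pool.Agent.QPG.H2
import Pool.Agent.QPC.G8

set_option autoImplicit false

open Polynomial

namespace Pool.QPC

open Pool.Agent.QPC (GD Tab vw)

/-- `v ↦ 1/w`, `k[v] → k((w))` -/
noncomputable def hw1 (k : Type) [CommRing k] : k[X] →+* LaurentSeries k :=
  eval₂RingHom HahnSeries.C (HahnSeries.single (-1) 1)

/-- the element is `≡ 0` modulo the variable -/
def IsSmall {k : Type} [CommRing k] (x : LaurentSeries k) : Prop :=
  ∃ a : PowerSeries k, x = HahnSeries.ofPowerSeries ℤ k (PowerSeries.X * a)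

theorem isSmall_of_coeff {k : Type} [CommRing k] (x : LaurentSeries k)
    (h : ∀ a : ℤ, a ≤ 0 → x.coeff a = 0) : IsSmall x := by
  refine ⟨PowerSeries.mk fun i => x.coeff (i + 1), ?_⟩
  ext a
  by_cases ha : a ≤ 0
  · rw [h a ha]
    by_cases ha' : a < 0
    · rw [HahnSeries.ofPowerSeries_apply, HahnSeries.embDomain_of_notMem_range]
      rintro ⟨i, hi⟩
      simp at hi
      omega
    · have : a = ((0 : ℕ) : ℤ) := by push_cast; omega
      rw [this, HahnSeries.ofPowerSeries_apply_coeff]
      simp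
  · obtain ⟨b, rfl⟩ : ∃ b : ℕ, a = ((b + 1 : ℕ) : ℤ) := ⟨(a - 1).toNat, by push_cast; omega⟩
    rw [HahnSeries.ofPowerSeries_apply_coeff, PowerSeries.coeff_succ_X_mul, PowerSeries.coeff_mk]
    push_cast
    rfl

theorem IsSmall.coeff {k : Type} [CommRing k] {x : LaurentSeries k} (h : IsSmall x) (a : ℤ)
    (ha : a ≤ 0) : x.coeff a = 0 := by
  obtain ⟨s, rfl⟩ := h
  by_cases ha' : a < 0
  · rw [HahnSeries.ofPowerSeries_apply, HahnSeries.embDomain_of_notMem_range]
    rintro ⟨i, hi⟩
    simp at hi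
    omega
  · have : a = ((0 : ℕ) : ℤ) := by push_cast; omega
    rw [this, HahnSeries.ofPowerSeries_apply_coeff]
    simp

theorem IsSmall.add {k : Type} [CommRing k] {x y : LaurentSeries k} (hx : IsSmall x)
    (hy : IsSmall y) : IsSmall (x + y) := by
  obtain ⟨a, rfl⟩ := hx
  obtain ⟨b, rfl⟩ := hy
  exact ⟨a + b, by rw [mul_add, map_add]⟩

theorem IsSmall.mul_ps {k : Type} [CommRing k] {x : LaurentSeries k} (hx : IsSmall x)
    (b : PowerSeries k) : IsSmall (x * HahnSeries.ofPowerSeries ℤ k b) := by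
  obtain ⟨a, rfl⟩ := hx
  exact ⟨a * b, by rw [← map_mul, mul_assoc]⟩

theorem vw_coeff {k : Type} [CommRing k] (d : k[X]) (a : ℤ) :
    (vw k d).coeff a = if a ≤ 0 then d.coeff (-a).toNat else 0 := by
  induction d using Polynomial.induction_on' with
  | add p q hp hq =>
    rw [map_add, HahnSeries.coeff_add, hp, hq]
    split_ifs
    · rw [Polynomial.coeff_add]
    · rw [add_zero]
  | monomial i c =>
    have h1 : vw k (monomial i c) = HahnSeries.single (-(i : ℤ)) c := by
      rw [vw, coe_eval₂RingHom, eval₂_monomial, HahnSeries.single_pow, one_pow,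
        HahnSeries.C_apply, HahnSeries.single_mul_single, mul_one, zero_add]
      congr 1
      simp
    rw [h1, HahnSeries.coeff_single, Polynomial.coeff_monomial]
    by_cases ha : a ≤ 0
    · rw [if_pos ha]
      by_cases hai : a = -(i : ℤ)
      · rw [if_pos hai, if_pos (by omega)]
      · rw [if_neg hai, if_neg (by omega)]
    · rw [if_neg ha, if_neg (by omega)]

/-- `vw d = c v^r u` with `u = 1 + small` -/
theorem vw_factor {k : Type} [Field k] (d : k[X]) (hd : d ≠ 0) :
    ∃ u : LaurentSeries k, IsSmall (u - 1) ∧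
      vw k d = HahnSeries.C d.leadingCoeff * HahnSeries.single (-(d.natDegree : ℤ)) 1 * u := by
  have hc : d.leadingCoeff ≠ 0 := leadingCoeff_ne_zero.mpr hd
  refine ⟨HahnSeries.C (d.leadingCoeff)⁻¹ * HahnSeries.single (d.natDegree : ℤ) 1 * vw k d,
    ?_, ?_⟩
  · apply isSmall_of_coeff
    intro a ha
    rw [HahnSeries.coeff_sub, mul_assoc, HahnSeries.C_mul_eq_smul, HahnSeries.coeff_smul,
      HahnSeries.coeff_single_mul, one_mul, vw_coeff, smul_eq_mul, HahnSeries.coeff_one]
    by_cases h0 : a = 0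
    · subst h0
      rw [if_pos (by omega), if_pos rfl]
      have : (-(0 - (d.natDegree : ℤ))).toNat = d.natDegree := by omega
      rw [this]
      rw [Polynomial.coeff_natDegree, inv_mul_cancel₀ hc, sub_self]
    · rw [if_neg h0, if_pos (by omega), sub_zero]
      rw [Polynomial.coeff_eq_zero_of_natDegree_lt (by omega), mul_zero]
  · have h1 : (HahnSeries.C d.leadingCoeff : LaurentSeries k) * HahnSeries.C (d.leadingCoeff)⁻¹ = 1 := by
      rw [← map_mul, mul_inv_cancel₀ hc, map_one]
    have h2 : (HahnSeries.single (-(d.natDegree : ℤ)) (1 : k) : LaurentSeries k) *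
        HahnSeries.single (d.natDegree : ℤ) 1 = 1 := by
      rw [HahnSeries.single_mul_single, neg_add_cancel, one_mul]; rfl
    calc vw k d = (HahnSeries.C d.leadingCoeff * HahnSeries.C (d.leadingCoeff)⁻¹) *
          (HahnSeries.single (-(d.natDegree : ℤ)) (1 : k) *
            HahnSeries.single (d.natDegree : ℤ) 1) * vw k d := by
          rw [h1, h2, one_mul, one_mul]
      _ = _ := by ring

theorem hf_v {k0 k : Type} [CommRing k0] [CommRing k] (i : k0 →+* k) (m : ℕ) (a : k0[X]) :
    pw (k := k) m (X : k[X]) (mapRingHom i a) = Pool.Agent.QPC.vt i m a := by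
  have : (pw (k := k) m (X : k[X])).comp (mapRingHom i) = Pool.Agent.QPC.vt i m := by
    refine Polynomial.ringHom_ext (fun a => ?_) ?_
    · rw [RingHom.comp_apply, coe_mapRingHom, map_C, pw_C]
      simp [Pool.Agent.QPC.vt]
    · rw [RingHom.comp_apply, coe_mapRingHom, map_X, pw_X]
      simp [Pool.Agent.QPC.vt]
  exact congrArg (fun g : k0[X] →+* k[X] => g a) this

theorem hf_x {k0 k : Type} [CommRing k0] [CommRing k] (i : k0 →+* k) (a : k0[X]) :
    (RingHom.id k[X]) (mapRingHom i a) = mapRingHom i a := rfl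

/-- `S id O ≃ O` -/
noncomputable def idEquiv {R O : Type} [CommRing R] [CommRing O] [Algebra R O] :
    S (RingHom.id R) O ≃+* O :=
  RingEquiv.ofRingHom
    (S.lift (RingHom.id R) (algebraMap R O) (RingHom.id O) (fun _ => rfl))
    (S.inc (RingHom.id R) O)
    (by
      ext a
      rw [RingHom.comp_apply, S.lift_inc])
    (by
      apply S.hom_ext
      · intro b
        rw [RingHom.comp_apply, S.lift_algebraMap, S.inc_algebraMap]; rfl
      · intro a
        rw [RingHom.comp_apply, S.lift_inc]; rfl)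

section base

variable {n : ℕ} {G : Type} [Group G] [Fintype G] [DecidableEq G]

/-- transport of `NT` -/
theorem NT_transport {k : Type} [CommRing k] {D' : GD k n G} {A : Type} [CommRing A]
    [MulSemiringAction G A] (e : D'.S ≃+* A) (he : ∀ g x, e (D'.ac g x) = g • e x)
    {l : ℕ} (hl : 0 < l) (F : D'.S) (h : GD.NT l F) : NTS (G := G) l (e F) := by
  intro ν hν hne a b ha heq
  have : NeZero l := ⟨hl.ne'⟩
  have h1 := h (fun g => (ν g : ZMod l)) (by
    rintro ⟨c, hc⟩
    obtain ⟨g, g', hgg⟩ := hne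
    apply hgg
    have h2 : (ν g : ZMod l) = (ν g' : ZMod l) := (hc g).trans (hc g').symm
    have h3 := congrArg ZMod.val h2
    rwa [ZMod.val_natCast_of_lt (hν g), ZMod.val_natCast_of_lt (hν g')] at h3)
    (e.symm a) (e.symm b) (by
      intro h0
      apply ha
      rw [← e.apply_symm_apply a, h0, map_zero])
  apply h1
  apply e.injective
  rw [map_mul, map_pow, map_pow, e.apply_symm_apply, e.apply_symm_apply, ← heq]
  congr 1
  rw [GD.Xn, map_prod, Xn]
  refine Finset.prod_congr rfl fun g _ => ?_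
  rw [map_pow, he, ZMod.val_natCast_of_lt (hν g)]

theorem NTS_scale {A : Type*} [CommRing A] [IsDomain A] [MulSemiringAction G A] {l m : ℕ}
    (hlm : l ∣ m) (F c : A) (hc : c ≠ 0) (hcG : ∀ g : G, g • c = c) (h : NTS (G := G) l F) :
    NTS (G := G) l (c ^ m * F) := by
  obtain ⟨q, rfl⟩ := hlm
  intro ν hν hne a b ha heq
  refine h ν hν hne (a * (c ^ q) ^ (∑ g, ν g)) b (mul_ne_zero ha (pow_ne_zero _ (pow_ne_zero _ hc)))
    ?_
  rw [← heq]
  have : Xn (c ^ (l * q) * F) ν = ((c ^ q) ^ (∑ g, ν g)) ^ l * Xn F ν := by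
    rw [Xn, Xn, ← Finset.prod_pow_eq_pow_sum, ← Finset.prod_pow, ← Finset.prod_mul_distrib]
    refine Finset.prod_congr rfl fun g _ => ?_
    rw [smul_mul', smul_pow', hcG, mul_pow]
    congr 1
    rw [← pow_mul, ← pow_mul, ← pow_mul]
    congr 1
    ring
  rw [this, mul_pow]
  ring

end base

end Pool.QPC
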