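import Pool.Agent.QPG.Z1

set_option autoImplicit false

open Polynomial

namespace Pool.QPC

open Pool.Agent.QPC (GD Tab vw)

theorem bridge_eta {A R O : Type} [CommRing A] [CommRing R] [CommRing O] [Algebra R O] {n : ℕ}
    {G : Type} [Group G] [Fintype G] [DecidableEq G] [MulSemiringAction G O] [SMulCommClass G R O]
    {D : GD A n G} {j : A →+* R} {eta : Module.Basis (Fin n) R O} (h : Compat D j eta)
    {B : Type} [CommRing B] (f : R →+* B) (f' : A →+* B) (hf : ∀ a, f (j a) = f' a) (a : Fin n) :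
    bridge h f f' hf ((D.map f').eta a) = S.basis f eta a := by
  apply (S.basis f eta).repr.injective
  ext l
  rw [bridge_repr, Module.Basis.repr_self, Finsupp.single_apply]
  change (Pi.single a 1 : Fin n → B) l = _
  rw [Pi.single_apply]
  by_cases hla : l = a
  · rw [if_pos hla, if_pos hla.symm]
  · rw [if_neg hla, if_neg (fun h => hla h.symm)]

theorem torsion_transport {A B : Type} [CommRing A] [CommRing B] (e : A ≃+* B)
    (h : ∀ I : Ideal B, I ≠ ⊥ → ∃ h : ℕ, 0 < h ∧ ∃ f, I ^ h = Ideal.span {f})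
    (I : Ideal A) (hI : I ≠ ⊥) : ∃ h : ℕ, 0 < h ∧ ∃ f, I ^ h = Ideal.span {f} := by
  have hne : I.map e ≠ ⊥ := by
    intro h0
    apply hI
    rwa [Ideal.map_eq_bot_iff_of_injective e.injective] at h0
  obtain ⟨q, hq, f, hf⟩ := h (I.map e) hne
  refine ⟨q, hq, e.symm f, ?_⟩
  have h1 : ((I ^ q).map e).map e.symm = (Ideal.span {f}).map e.symm := by
    rw [Ideal.map_pow, hf]
  rw [Ideal.map_span, Set.image_singleton] at h1
  rw [← h1, Ideal.map_symm, Ideal.comap_map_of_bijective e e.bijective]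

theorem base {p : ℕ} [Fact p.Prime] {k : Type} [Field k] [Algebra (ZMod p) k] [CharP k p]
    [IsAlgClosed k] [Algebra.IsAlgebraic (ZMod p) k]
    {O : Type} [CommRing O] [IsDomain O] [Algebra k[X] O] {n : ℕ}
    (eta : Module.Basis (Fin n) k[X] O)
    {G : Type} [Group G] [Fintype G] [DecidableEq G] [MulSemiringAction G O]
    [SMulCommClass G k[X] O] (chr : CHR G O)
    (hinv : ∀ a : O, (∀ s : G, s • a = a) → ∃ r, a = algebraMap k[X] O r)
    {l e : ℕ} (hl : l.Prime) (hlp : l ≠ p) (he : 1 ≤ e) (hlG : ¬ l ∣ Fintype.card G)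
    (fw : k[X] →+* LaurentSeries k)
    (hw : ∀ r, hw1 k (pw (k := k) (l ^ e) (X : k[X]) r) = fw r) :
    IsDomain (S (pw (k := k) (l ^ e) (X : k[X])) O) ∧
    ∃ (f' : S (pw (k := k) (l ^ e) (X : k[X])) O) (r : ℕ) (g : S fw O), f' ≠ 0 ∧
      Cert (l ^ e) f' ∧
      (∀ i j, IsSmall ((S.basis fw eta).repr (g * S.basis fw eta j) i - if i = j then 1 else 0)) ∧
      S.map (hw1 k) hw f' =
        (algebraMap (LaurentSeries k) (S fw O) (HahnSeries.single (-1) 1) ^ r * g) ^ (l ^ e) ∧
      NTS (G := G) l f' := by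
  have hinj := inj_of_basis eta
  obtain ⟨k0, hfin, -, D0, hD⟩ := exists_GD_finite (p := p) eta hinj chr hinv ∅
  have : Fact l.Prime := ⟨hl⟩
  have hm : 0 < l ^ e := pow_pos hl.pos e
  -- the x-line
  let ex : D0.Sx k0.subtype ≃+* O :=
    (bridge hD (RingHom.id k[X]) (mapRingHom k0.subtype) (hf_x k0.subtype)).trans idEquiv
  have hdom : IsDomain (D0.Sx k0.subtype) := ex.toMulEquiv.isDomain
  have htor : ∀ I : Ideal (D0.Sx k0.subtype), I ≠ ⊥ →
      ∃ h : ℕ, 0 < h ∧ ∃ f, I ^ h = Ideal.span {f} :=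
    torsion_transport ex (torsion (p := p) eta hinj chr hinv)
  -- roots of unity
  have hne : NeZero ((l ^ e : ℕ) : k) := by
    refine ⟨?_⟩
    rw [Ne, CharP.cast_eq_zero_iff k p]
    intro h
    have := (Fact.out : p.Prime).dvd_of_dvd_pow h
    exact hlp ((Nat.prime_dvd_prime_iff_eq Fact.out hl).mp this).symm
  obtain ⟨ζ, hζ⟩ := HasEnoughRootsOfUnity.exists_primitiveRoot k (l ^ e)
  obtain ⟨f1, d, I, g1, hf1, hd, hI, hvw, hsm, hNT⟩ :=
    Pool.Agent.QPC.G8 p k0.subtype D0 hdom l e hlp (by omega) hlG ζ hζ htor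
  have hdomv : IsDomain (D0.Sv k0.subtype (l ^ e)) :=
    Pool.Agent.QPC.G5a k0.subtype D0 hdom (l ^ e) hm
  have hded : IsDedekindDomain (D0.Sv k0.subtype (l ^ e)) :=
    Pool.Agent.QPC.G1b (D0.map (Pool.Agent.QPC.vt k0.subtype (l ^ e)))
  let ev := bridge hD (pw (k := k) (l ^ e) (X : k[X])) (Pool.Agent.QPC.vt k0.subtype (l ^ e))
    (hf_v k0.subtype (l ^ e))
  have hfw : ∀ a, fw (mapRingHom k0.subtype a)
      = ((vw k).comp (Pool.Agent.QPC.vt k0.subtype (l ^ e))) a := by
    intro a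
    rw [← hw, hf_v]
    rfl
  let ew := bridge hD fw ((vw k).comp (Pool.Agent.QPC.vt k0.subtype (l ^ e))) hfw
  have hdomS : IsDomain (S (pw (k := k) (l ^ e) (X : k[X])) O) := ev.symm.toMulEquiv.isDomain
  refine ⟨hdomS, ?_⟩
  obtain ⟨u, hu, hdu⟩ := vw_factor d hd
  have hc : d.leadingCoeff ≠ 0 := leadingCoeff_ne_zero.mpr hd
  have hcS : algebraMap k[X] (S (pw (k := k) (l ^ e) (X : k[X])) O) (C (d.leadingCoeff)⁻¹) ≠ 0 := by
    intro h0
    have h1 : algebraMap k[X] (S (pw (k := k) (l ^ e) (X : k[X])) O)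
        (C (d.leadingCoeff)⁻¹ * C d.leadingCoeff) = 0 := by
      rw [map_mul, h0, zero_mul]
    rw [← C_mul, inv_mul_cancel₀ hc, C_1, map_one] at h1
    exact one_ne_zero h1
  have hcert1 : Cert (l ^ e) f1 := cert_of_pow hm hf1 I hI
  refine ⟨algebraMap k[X] _ (C (d.leadingCoeff)⁻¹) ^ (l ^ e) * ev f1, d.natDegree,
    algebraMap _ (S fw O) u * ew g1, ?_, ?_, ?_, ?_, ?_⟩
  · apply mul_ne_zero (pow_ne_zero _ hcS)
    intro h0
    apply hf1
    rwa [map_eq_zero_iff ev ev.injective] at h0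
  · rw [mul_comm]
    exact (hcert1.map ev.toRingHom).mul_pow _
  · intro i j
    have h1 : (S.basis fw eta).repr (ew g1 * S.basis fw eta j) i
        = (g1 * (D0.map ((vw k).comp (Pool.Agent.QPC.vt k0.subtype (l ^ e)))).eta j).co i := by
      rw [← bridge_eta hD fw _ hfw j, ← map_mul, bridge_repr]
    have h2 : IsSmall ((S.basis fw eta).repr (ew g1 * S.basis fw eta j) i
        - if i = j then 1 else 0) := by
      rw [h1]
      have h3 : (g1 * (D0.map ((vw k).comp (Pool.Agent.QPC.vt k0.subtype (l ^ e)))).eta j).co i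
          - (if i = j then 1 else 0)
          = ((g1 - 1) * (D0.map ((vw k).comp
            (Pool.Agent.QPC.vt k0.subtype (l ^ e)))).eta j).co i := by
        rw [sub_mul, one_mul, sub_eq_add_neg, sub_eq_add_neg, Tab.add_co, Tab.neg_co]
        congr 2
        change _ = (Pi.single j 1 : Fin n → LaurentSeries k) i
        rw [Pi.single_apply]
      rw [h3]
      exact isSmall_of_coeff _ (fun a ha => hsm j i a ha)
    have h4 : (S.basis fw eta).repr (algebraMap _ (S fw O) u * ew g1 * S.basis fw eta j) i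
        = u * (S.basis fw eta).repr (ew g1 * S.basis fw eta j) i := by
      rw [mul_assoc, ← Algebra.smul_def, map_smul, Finsupp.smul_apply, smul_eq_mul]
    rw [h4]
    obtain ⟨w, hw'⟩ := hu
    have h5 : u = HahnSeries.ofPowerSeries ℤ k (1 + PowerSeries.X * w) := by
      rw [map_add, map_one, ← hw']; ring
    have h6 : u * (S.basis fw eta).repr (ew g1 * S.basis fw eta j) i - (if i = j then 1 else 0)
        = ((S.basis fw eta).repr (ew g1 * S.basis fw eta j) i - if i = j then 1 else 0) *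
          HahnSeries.ofPowerSeries ℤ k (1 + PowerSeries.X * w) +
          HahnSeries.ofPowerSeries ℤ k (PowerSeries.X * (if i = j then w else 0)) := by
      rw [← h5]
      split_ifs
      · rw [← hw']; ring
      · rw [mul_zero, map_zero]; ring
    rw [h6]
    exact (h2.mul_ps _).add ⟨_, rfl⟩
  · have h1 : S.map (hw1 k) hw (ev f1) = ew (D0.vwS k0.subtype (l ^ e) f1) := by
      rw [GD.vwS]
      exact (bridge_hom hD _ _ _ _ _ _ _ _ _ _).symm
    rw [map_mul, h1, hvw, map_pow, map_pow, map_mul, S.map_algebraMap, bridge_algebraMap, ← mul_pow]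
    congr 1
    rw [hdu, ← mul_assoc, ← mul_assoc, ← map_mul, ← map_pow, ← map_mul]
    congr 2
    have h2 : hw1 k (C (d.leadingCoeff)⁻¹) = HahnSeries.C (d.leadingCoeff)⁻¹ := by
      rw [hw1, coe_eval₂RingHom, eval₂_C]
    have h3 : (HahnSeries.single (-1) (1 : k) : LaurentSeries k) ^ d.natDegree
        = HahnSeries.single (-(d.natDegree : ℤ)) 1 := by
      rw [HahnSeries.single_pow, one_pow]
      congr 1
      simp
    have h4 : (HahnSeries.C (d.leadingCoeff)⁻¹ : LaurentSeries k) * HahnSeries.C d.leadingCoeff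
        = 1 := by
      rw [← map_mul, inv_mul_cancel₀ hc, map_one]
    rw [h2, h3, ← mul_assoc, ← mul_assoc, h4, one_mul]
  · apply NTS_scale (dvd_pow_self l (by omega)) _ _ hcS (fun g => S.smul_algebraMap g _)
    exact NT_transport ev (bridge_ac hD _ _ _) hl.pos f1 hNT

end Pool.QPC
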