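import Pool.Agent.QPG.Z2
import Pool.Agent.QPG.H0
import Pool.Agent.QPG.L3
import Pool.Agent.QPG.DD
import Pool.Agent.PGL.Glue5

set_option autoImplicit false

open Polynomial

namespace Pool.QPC

open Pool.Agent.PatchGL (chi)

theorem fz_eq {p : ℕ} {k : Type} [Field k] (m : ℕ) (r : k[X]) :
    eval₂ ((C : LaurentSeries k →+* _).comp HahnSeries.C) (vz p (HahnSeries.single (-2) 1))
      (pw (k := k) m (X : k[X]) r)
      = pw (k := k) m (vz p (HahnSeries.single (-2) 1 : LaurentSeries k)) r := by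
  have h := pw_comp (k := k) m (X : k[X]) (vz p (HahnSeries.single (-2) 1 : LaurentSeries k))
    (eval₂RingHom ((C : LaurentSeries k →+* _).comp HahnSeries.C)
      (vz p (HahnSeries.single (-2) 1)))
    (fun c => by
      rw [Polynomial.algebraMap_apply, Algebra.algebraMap_self_apply, coe_eval₂RingHom, eval₂_C,
        Polynomial.algebraMap_apply, RingHom.comp_apply]
      exact congrArg C (LaurentSeries.algebraMap_apply k c).symm)
    (by rw [coe_eval₂RingHom, eval₂_X]) r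
  exact h

/-- Sections 4 and 5 together. -/
theorem part1 {p : ℕ} [Fact p.Prime] {k : Type} [Field k] [Algebra (ZMod p) k] [CharP k p]
    [IsAlgClosed k] [Algebra.IsAlgebraic (ZMod p) k]
    {O : Type} [CommRing O] [IsDomain O] [Algebra k[X] O] {n : ℕ}
    (eta : Module.Basis (Fin n) k[X] O)
    {G : Type} [Group G] [Fintype G] [DecidableEq G] [MulSemiringAction G O]
    [SMulCommClass G k[X] O] (chr : CHR G O)
    (hinv : ∀ a : O, (∀ s : G, s • a = a) → ∃ r, a = algebraMap k[X] O r)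
    {l e : ℕ} (hl : l.Prime) (hlp : l ≠ p) (he : 1 ≤ e) (hlG : ¬ l ∣ Fintype.card G)
    (fP : k[X] →+* PowerSeries (Polynomial k))
    (hP : ∀ r, PowerSeries.C (pw (k := k) (l ^ e) (X : k[X]) r) = fP r)
    (fV : k[X] →+* LaurentSeries (Polynomial k))
    (hV : ∀ r, HahnSeries.C (pw (k := k) (l ^ e) (X : k[X]) r) = fV r) :
    IsDomain (S (pw (k := k) (l ^ e) (X : k[X])) O) ∧
    ∃ (f' : S (pw (k := k) (l ^ e) (X : k[X])) O) (r : ℕ)
      (F : S (pw (k := k) (l ^ e) (vz p (HahnSeries.single (-2) 1 : LaurentSeries k))) O),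
      f' ≠ 0 ∧ NTS (G := G) l f' ∧ Cert (l ^ e) F ∧
      (∃ F0 : S fP O,
        (∀ (h1 : ∀ r, HahnSeries.ofPowerSeries ℤ (Polynomial k) (fP r) = fV r)
          (h2 : ∀ r, chi k p 0 (pw (k := k) (l ^ e)
            (vz p (HahnSeries.single (-2) 1 : LaurentSeries k)) r) = fV r),
          S.map (HahnSeries.ofPowerSeries ℤ (Polynomial k)) h1 F0 = S.map (chi k p 0) h2 F) ∧
        (∀ h3 : ∀ r, PowerSeries.constantCoeff (fP r) = pw (k := k) (l ^ e) (X : k[X]) r,
          S.map PowerSeries.constantCoeff h3 F0 = f')) ∧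
      ∀ i : k, i ≠ 0 → i ^ p = i → (∃ F0 : S fP O,
        (∀ (h1 : ∀ r, HahnSeries.ofPowerSeries ℤ (Polynomial k) (fP r) = fV r)
          (h2 : ∀ r, chi k p i (pw (k := k) (l ^ e)
            (vz p (HahnSeries.single (-2) 1 : LaurentSeries k)) r) = fV r),
          S.map (HahnSeries.ofPowerSeries ℤ (Polynomial k)) h1 F0 = S.map (chi k p i) h2 F) ∧
        (∀ h3 : ∀ r, PowerSeries.constantCoeff (fP r) = pw (k := k) (l ^ e) (X : k[X]) r,
          S.map PowerSeries.constantCoeff h3 F0 =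
            algebraMap (Polynomial k) (S (pw (k := k) (l ^ e) (X : k[X])) O)
              (Polynomial.X ^ (r * (l ^ e))))) := by
  obtain ⟨eta', cst, hcst⟩ := exists_basis_one eta hinv
  have hm : 1 ≤ l ^ e := Nat.one_le_pow _ _ hl.pos
  obtain ⟨hdomv, f', r, g, hf', hcert, hsm, hfg, hNT⟩ := base eta' chr hinv hl hlp he hlG
    ((hw1 k).comp (pw (k := k) (l ^ e) (X : k[X]))) (fun _ => rfl)
  have hdomz : IsDomain (S (pw (k := k) (l ^ e)
      (vz p (HahnSeries.single (-2) 1 : LaurentSeries k))) O) :=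
    isDomain_fz eta' (pw (k := k) (l ^ e) (X : k[X])) _ (fun r => (fz_eq _ r).symm)
  have hded : IsDedekindDomain (S (pw (k := k) (l ^ e)
      (vz p (HahnSeries.single (-2) 1 : LaurentSeries k))) O) :=
    isDedekind_fz eta' chr hinv _
  refine ⟨hdomv, f', r, ?_⟩
  obtain ⟨F, hF, h0, hi⟩ := Pool.Agent.PatchGL.glue (p := p) eta' (pw (k := k) (l ^ e) (X : k[X])) _
    (fz_eq (l ^ e)) ((hw1 k).comp (pw (k := k) (l ^ e) (X : k[X]))) (fun _ => rfl)
    fP hP fV hV (l ^ e) r hm cst (fun i => by rw [hcst, pw_C]; rfl) f' hf' hcert g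
    (fun i j => by
      obtain ⟨a, ha⟩ := hsm i j
      exact ⟨a, by rw [← ha]; ring⟩)
    hfg
  exact ⟨F, hf', hNT, hF, h0, hi⟩

end Pool.QPC
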